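import Pool.Agent.Lib.H15M.Defs

/-! # H15M, chunk A1 (S/M): Gromov products along a path -/

namespace H15M

variable {X : Type}

/-- (A1a, S) PROOF. `d w x + d w y - d x y ≥ 0` by the triangle inequality; symmetry. -/
theorem gp_nonneg {d : X → X → ℕ} {δ : ℕ} (h : Hyp d δ) (w x y : X) : 0 ≤ gp d w x y := by
  have h1 := h.tri x w y
  rw [h.symm x w] at h1
  unfold gp
  omega

/-- (A1b, S) PROOF. Definition and `h.symm`. -/
theorem gp_symm {d : X → X → ℕ} {δ : ℕ} (h : Hyp d δ) (w x y : X) : gp d w x y = gp d w y x := by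
  unfold gp
  rw [h.symm x y]
  ring

/-- (A1c, S) PROOF. Triangle inequalities: `d w x ≥ d w x' - d x x'`, `d x y ≤ d x x' + d x' y`. -/
theorem gp_move {d : X → X → ℕ} {δ : ℕ} (h : Hyp d δ) (w x x' y : X) : gp d w x y ≤ gp d w x' y + 2 * d x x' := by
  have h1 := h.tri w x' x
  have h2 := h.tri x' x y
  rw [h.symm x' x] at h1 h2
  unfold gp
  omega

/-- (A1d, S) PROOF. Triangle inequalities for the base point: `d w x ≤ d w w' + d w' x`, the same for `y`. -/
theorem gp_base {d : X → X → ℕ} {δ : ℕ} (h : Hyp d δ) (w w' x y : X) : gp d w x y ≤ gp d w' x y + 2 * d w w' := by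
  have h1 := h.tri w w' x
  have h2 := h.tri w w' y
  unfold gp
  omega

/-- (A1e, M) PROOF. Induction on `k`. `k = 0`: `n = 1`. Step: for `n ≤ 2 ^ k` use the induction hypothesis (and
`0 ≤ 2 * δ`). Otherwise split at `2 ^ k`: the induction hypothesis for `p` with `n = 2 ^ k` and for
`i ↦ p (i + 2 ^ k)` with `n - 2 ^ k`; then `h.hyp` with `x = p 0`, `y = p n`, `z = p (2 ^ k)` and `gp_symm`. -/
theorem gp_path {d : X → X → ℕ} {δ : ℕ} (h : Hyp d δ) (w : X) (m : ℤ) (k : ℕ) :
    ∀ (n : ℕ) (p : ℕ → X), 1 ≤ n → n ≤ 2 ^ k → (∀ i, i < n → m ≤ gp d w (p i) (p (i + 1))) →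
      m - 2 * δ * k ≤ gp d w (p 0) (p n) := by
  induction k with
  | zero =>
    intro n p h1 h2 h3
    have hn : n = 1 := by
      rw [pow_zero] at h2
      omega
    subst hn
    have h4 := h3 0 (by omega)
    push_cast
    rw [zero_add] at h4
    linarith
  | succ k ih =>
    intro n p h1 h2 h3
    have hδ : (0 : ℤ) ≤ 2 * δ := by positivity
    by_cases hn : n ≤ 2 ^ k
    · have h4 := ih n p h1 hn h3
      push_cast
      linarith
    · have hk : 1 ≤ 2 ^ k := Nat.one_le_two_pow
      have h5 := ih (2 ^ k) p hk le_rfl fun i hi => h3 i (by omega)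
      have h6 := ih (n - 2 ^ k) (fun i => p (i + 2 ^ k)) (by omega) (by rw [pow_succ] at h2; omega) fun i hi => by
        have h7 := h3 (i + 2 ^ k) (by omega)
        have h8 : i + 1 + 2 ^ k = i + 2 ^ k + 1 := by ring
        show m ≤ gp d w (p (i + 2 ^ k)) (p (i + 1 + 2 ^ k))
        rw [h8]
        exact h7
      have h9 : m - 2 * δ * k ≤ gp d w (p (2 ^ k)) (p n) := by
        have h10 : n - 2 ^ k + 2 ^ k = n := by omega
        have h11 : m - 2 * δ * k ≤ gp d w (p (0 + 2 ^ k)) (p (n - 2 ^ k + 2 ^ k)) := h6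
        rwa [h10, zero_add] at h11
      rw [gp_symm h] at h9
      have h12 := h.hyp (p 0) (p n) (p (2 ^ k)) w
      have h13 := le_min h5 h9
      push_cast
      linarith

end H15M
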