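import Pool.Agent.Lib.H15M.Defs

/-! # H15M, chunk A2 (S/M): an exponential function beats a linear one -/

namespace H15M

theorem a2_sq (k : ℕ) (hk : 4 ≤ k) : k * k ≤ 2 ^ k := by
  induction k, hk using Nat.le_induction with
  | base => norm_num
  | succ n hn ih =>
    rw [pow_succ]
    nlinarith

/-- (A2, S/M) Only natural numbers. PROOF. With `c = 2 * δ + 1` take `k = D / c` (floor). Then `2 * δ * k ≤ c * k ≤ D`, so the
second inequality holds if `K + 2 < D`. And `D < c * (k + 1)`, so the first one holds if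
`6 * K * c * (k + 1) + K + 2 ≤ 2 ^ k`, which is true for all large `k` (for example `k * k ≤ 2 ^ k` for `k ≥ 4`, or a
limit in Mathlib), and `k → ∞` as `D → ∞`. -/
theorem num (K δ : ℕ) : ∃ D0 : ℕ, ∀ D : ℕ, D0 < D → ∃ k : ℕ, 6 * K * D + K + 2 ≤ 2 ^ k ∧ K + 2 * δ * k + 2 < 2 * D := by
  obtain ⟨c, hc⟩ : ∃ c, c = 2 * δ + 1 := ⟨_, rfl⟩
  obtain ⟨N, hN⟩ : ∃ N, N = 12 * K * c + K + 2 := ⟨_, rfl⟩
  refine ⟨c * (N + 4) + K + 2, fun D hD => ⟨D / c, ?_, ?_⟩⟩
  · have hc0 : 0 < c := by omega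
    have h1 : N + 4 ≤ D / c := by
      rw [Nat.le_div_iff_mul_le hc0, mul_comm]
      omega
    obtain ⟨k, hk⟩ : ∃ k, k = D / c := ⟨_, rfl⟩
    rw [← hk] at h1 ⊢
    have h2 : D < c * (k + 1) := by
      rw [hk]
      exact Nat.lt_mul_div_succ D hc0
    refine le_trans ?_ (a2_sq k (by omega))
    have h3 : 6 * K * D ≤ 6 * K * (c * (k + 1)) := Nat.mul_le_mul_left _ h2.le
    have h4 : 6 * K * (c * (k + 1)) + K + 2 ≤ N * k := by
      have h5 : 1 ≤ k := by omega
      have h6 : 6 * K * c * 1 ≤ 6 * K * c * k := Nat.mul_le_mul_left _ h5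
      have h7 : (K + 2) * 1 ≤ (K + 2) * k := Nat.mul_le_mul_left _ h5
      rw [hN]
      nlinarith
    have h8 : N * k ≤ k * k := Nat.mul_le_mul_right _ (by omega)
    omega
  · have h1 : c * (D / c) ≤ D := Nat.mul_div_le D c
    have h2 : 2 * δ * (D / c) ≤ c * (D / c) := Nat.mul_le_mul_right _ (by omega)
    omega

end H15M
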