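import Pool.Agent.Lib.H15M.A1
import Pool.Agent.Lib.H15M.A2

/-! # H15M, chunk A3 (M): path connected sets are quasiconvex -/

namespace H15M

/-- (A3a, S) Points of a geodesic through `w`. PROOF. `h.geo a w`: `c (d a w - s)`. -/
theorem pt_on {X : Type} {d : X → X → ℕ} {δ : ℕ} (h : Hyp d δ) (a w : X) (s : ℕ) (hs : s ≤ d a w) :
    ∃ o, d o w = s ∧ d a o + d o w = d a w := by
  obtain ⟨c, h0, h1, h2⟩ := h.geo a w
  refine ⟨c (d a w - s), ?_, ?_⟩
  · have h3 := h2 (d a w - s) (d a w) (Nat.sub_le _ _) le_rfl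
    rw [h1] at h3
    omega
  · have h3 := h2 (d a w - s) (d a w) (Nat.sub_le _ _) le_rfl
    have h4 := h2 0 (d a w - s) (Nat.zero_le _) (Nat.sub_le _ _)
    rw [h1] at h3
    rw [h0] at h4
    omega

/-- (A3b, M) PROOF. `D0` from `num K δ`. Suppose that for some `a, b, w` as in the statement all `y ∈ P` have
`D0 < d w y`. Let `D` be the largest number (it is at most `d a b`, because `d w a ≤ d a b`) such that for some `w` between
`a` and `b` (that is, `d a w + d w b = d a b`) all `y ∈ P` have `D ≤ d w y`; take this `w`. So `D0 < D`, and for every point `o`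
between `a` and `b` there is `y ∈ P` with `d o y ≤ D`. By `pt_on` choose `o1` between `a` and `w` with
`d o1 w = min (2 * D) (d a w)` and `o2` between `w` and `b` with `d w o2 = min (2 * D) (d w b)`; `o1`, `o2` are between `a` and
`b`, and `d o1 w + d w o2 = d o1 o2` (triangle inequalities). Choose `a' ∈ P`: if `d a w ≤ 2 * D` then `o1 = a` (distance `0`;
instead of equality use `d a o1 = 0`) and `a' = a`, otherwise `d o1 a' ≤ D`. In both cases `2 * D ≤ gp d w o1 a'`: in the first case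
it is at least `2 * d w a - 2 * d a o1`, and `D ≤ d w a`; in the second
`gp d w o1 a' = 2 * D + d w a' - d o1 a' ≥ 2 * D + D - D`. The same for `b'`. `d a' b' ≤ 6 * D`. The path `p` of `PathProp` from `a'` to `b'` has
`n ≤ K * (6 * D) + K` steps and stays in `P`, so `gp d w (p i) (p (i + 1)) ≥ D + D - K`. Put `o1` in front of the path and
`o2` behind: `n + 2` steps, all Gromov products at least `2 * D - K`; with `k` from `num`, `gp_path` gives
`2 * D - K - 2 * δ * k ≤ gp d w o1 o2 = 0`: contradiction to `num`. -/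
theorem qc (δ K : ℕ) : ∃ D0 : ℕ, ∀ {X : Type} (d : X → X → ℕ), Hyp d δ → ∀ P : Set X, PathProp d K P →
    ∀ a ∈ P, ∀ b ∈ P, ∀ w, d a w + d w b = d a b → ∃ y ∈ P, d w y ≤ D0 := by
  classical
  obtain ⟨D0, hD0⟩ := num K δ
  refine ⟨D0, ?_⟩
  intro X d h P hP a ha b hb w0 hw0
  by_contra hcon
  push Not at hcon
  let Q : ℕ → Prop := fun D => ∃ w, d a w + d w b = d a b ∧ ∀ y ∈ P, D ≤ d w y
  have hQb : ∀ k, Q k → k ≤ d a b := by
    rintro k ⟨w, hw, hk⟩
    have h1 := hk a ha
    rw [h.symm w a] at h1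
    omega
  have hQ0 : Q (D0 + 1) := ⟨w0, hw0, fun y hy => hcon y hy⟩
  obtain ⟨D, hD, hDQ, hDn⟩ : ∃ D, D0 + 1 ≤ D ∧ Q D ∧ ¬ Q (D + 1) := by
    refine ⟨Nat.findGreatest Q (d a b), Nat.le_findGreatest (hQb _ hQ0) hQ0,
      Nat.findGreatest_spec (hQb _ hQ0) hQ0, fun hn => ?_⟩
    exact Nat.findGreatest_is_greatest (Nat.lt_succ_self _) (hQb _ hn) hn
  obtain ⟨w, hw, hwP⟩ := hDQ
  have hne : ∀ o, d a o + d o b = d a b → ∃ y ∈ P, d o y ≤ D := by
    intro o ho
    by_contra hc
    push Not at hc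
    exact hDn ⟨o, ho, fun y hy => hc y hy⟩
  obtain ⟨k, hk1, hk2⟩ := hD0 D (by omega)
  obtain ⟨o1, ho1, ho1'⟩ := pt_on h a w (min (2 * D) (d a w)) (min_le_right _ _)
  obtain ⟨o2, ho2, ho2'⟩ := pt_on h b w (min (2 * D) (d b w)) (min_le_right _ _)
  have hwb := h.symm w b
  have hb1 : d a o1 + d o1 b = d a b := by
    have t1 := h.tri a o1 b
    have t2 := h.tri o1 w b
    omega
  have hb2 : d a o2 + d o2 b = d a b := by
    have t1 := h.tri a o2 b
    have t2 := h.tri a w o2
    have t3 := h.symm w o2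
    have t4 := h.symm b o2
    omega
  have h12 : d o1 w + d w o2 = d o1 o2 := by
    have t1 := h.tri a o1 b
    have t2 := h.tri o1 o2 b
    have t3 := h.symm b o2
    have t4 := h.symm w o2
    have t5 := h.tri o1 w o2
    omega
  have ea : ∃ a' ∈ P, (2 * D : ℤ) ≤ gp d w o1 a' ∧ d o1 a' ≤ D := by
    rcases le_or_gt (d a w) (2 * D) with hc | hc
    · refine ⟨a, ha, ?_, ?_⟩
      · have t1 := hwP a ha
        have t2 := h.symm w a
        have t3 := h.symm w o1
        have t4 := h.symm o1 a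
        unfold gp
        omega
      · have t4 := h.symm o1 a
        omega
    · obtain ⟨y, hy, hyD⟩ := hne o1 hb1
      refine ⟨y, hy, ?_, hyD⟩
      have t1 := hwP y hy
      have t3 := h.symm w o1
      unfold gp
      omega
  have eb : ∃ b' ∈ P, (2 * D : ℤ) ≤ gp d w o2 b' ∧ d o2 b' ≤ D := by
    rcases le_or_gt (d b w) (2 * D) with hc | hc
    · refine ⟨b, hb, ?_, ?_⟩
      · have t1 := hwP b hb
        have t3 := h.symm w o2
        have t4 := h.symm o2 b
        unfold gp
        omega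
      · have t4 := h.symm o2 b
        omega
    · obtain ⟨y, hy, hyD⟩ := hne o2 hb2
      refine ⟨y, hy, ?_, hyD⟩
      have t1 := hwP y hy
      have t3 := h.symm w o2
      unfold gp
      omega
  obtain ⟨a', ha', ga, la⟩ := ea
  obtain ⟨b', hb', gb, lb⟩ := eb
  have hab : d a' b' ≤ 6 * D := by
    have t1 := h.tri a' o1 b'
    have t2 := h.tri o1 o2 b'
    have t3 := h.symm a' o1
    have t4 := h.symm w o2
    have t5 : min (2 * D) (d a w) ≤ 2 * D := min_le_left _ _
    have t6 : min (2 * D) (d b w) ≤ 2 * D := min_le_left _ _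
    omega
  obtain ⟨n, p, hp0, hpn, hn, hpP, hstep⟩ := hP a' ha' b' hb'
  have hn2 : n + 2 ≤ 2 ^ k := by
    have t1 : K * d a' b' ≤ K * (6 * D) := Nat.mul_le_mul_left _ hab
    have t2 : K * (6 * D) = 6 * K * D := by ring
    omega
  let q : ℕ → X := fun i => if i = 0 then o1 else if i ≤ n + 1 then p (i - 1) else o2
  have hq0 : q 0 = o1 := by simp [q]
  have hq1 : ∀ i, i ≤ n → q (i + 1) = p i := by
    intro i hi
    simp [q, hi]
  have hq2 : q (n + 2) = o2 := by simp [q]
  have hmain := gp_path h w (2 * D - K) k (n + 2) q (by omega) hn2 (by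
    intro i hi
    rcases Nat.eq_zero_or_pos i with hi0 | hi0
    · subst hi0
      rw [hq0, hq1 0 (Nat.zero_le _), hp0]
      omega
    · obtain ⟨j, rfl⟩ : ∃ j, i = j + 1 := ⟨i - 1, by omega⟩
      rcases Nat.lt_or_ge j n with hj | hj
      · rw [hq1 j hj.le, hq1 (j + 1) hj]
        have t1 := hwP _ (hpP j hj.le)
        have t2 := hwP _ (hpP (j + 1) hj)
        have t3 := hstep j hj
        unfold gp
        omega
      · have hjn : j = n := by omega
        subst hjn
        rw [hq1 j le_rfl, hq2, hpn, gp_symm h]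
        omega)
  rw [hq0, hq2] at hmain
  have hz : gp d w o1 o2 = 0 := by
    have t3 := h.symm w o1
    unfold gp
    omega
  rw [hz] at hmain
  have hk3 : ((K + 2 * δ * k + 2 : ℕ) : ℤ) < ((2 * D : ℕ) : ℤ) := by exact_mod_cast hk2
  push_cast at hk3
  linarith

end H15M
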