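import Pool.Agent.Lib.H15M.A1

/-! # H15M, chunk A4 (S/M): the Gromov product and the distance to a geodesic -/

namespace H15M

/-- (A4a, S) The four point condition in the usual form. PROOF. `h.hyp x y z w`, unfold `gp`, `omega`. -/
theorem four {X : Type} {d : X → X → ℕ} {δ : ℕ} (h : Hyp d δ) (x y z w : X) :
    d x y + d w z ≤ max (d x z + d w y) (d y z + d w x) + 2 * δ := by
  have hh := h.hyp x y z w
  unfold gp at hh
  rcases min_le_iff.mp hh with h1 | h1
  · have : d x y + d w z ≤ (d x z + d w y) + 2 * δ := by omega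
    exact this.trans (Nat.add_le_add_right (le_max_left _ _) _)
  · have : d x y + d w z ≤ (d y z + d w x) + 2 * δ := by omega
    exact this.trans (Nat.add_le_add_right (le_max_right _ _) _)

/-- (A4b, S/M) PROOF. Let `L = d a b` and `s = (d w a + L - d w b) / 2` (natural numbers; `d w b ≤ d w a + L`), `s ≤ L`. Let `o = c s`
on the geodesic of `h.geo a b`: `d a o = s`, `d o b = L - s`. `four` with the pairs `(w, o)`, `(a, b)`:
`d w o + L ≤ max (d w a + (L - s)) (d w b + s) + 2 * δ`. Both terms: `2 * (d w a - s) ≤ gp + 1`, `2 * (d w b + s - L) ≤ gp`. -/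
theorem near_geo {X : Type} {d : X → X → ℕ} {δ : ℕ} (h : Hyp d δ) (a b w : X) :
    ∃ o, d a o + d o b = d a b ∧ 2 * (d w o : ℤ) ≤ gp d w a b + 4 * δ + 2 := by
  obtain ⟨c, hc0, hcL, hc⟩ := h.geo a b
  have h1 : d w b ≤ d w a + d a b := h.tri w a b
  have h2 : d w a ≤ d w b + d b a := h.tri w b a
  have h3 : d b a = d a b := h.symm b a
  obtain ⟨s, hs⟩ : ∃ s, s = (d w a + d a b - d w b) / 2 := ⟨_, rfl⟩
  have hsL : s ≤ d a b := by omega
  have e1 : d a (c s) = s := by
    have := hc 0 s (Nat.zero_le _) hsL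
    rw [hc0] at this
    omega
  have e2 : d (c s) b = d a b - s := by
    have := hc s (d a b) hsL le_rfl
    rw [hcL] at this
    exact this
  have e3 : d b (c s) = d (c s) b := h.symm b (c s)
  have h4 := four h a b (c s) w
  refine ⟨c s, by omega, ?_⟩
  unfold gp
  rcases max_cases (d a (c s) + d w b) (d b (c s) + d w a) with ⟨h5, _⟩ | ⟨h5, _⟩
  · rw [h5] at h4
    omega
  · rw [h5] at h4
    omega

/-- (A4c, S/M) PROOF. `g = gp d w c p ≥ 0`, `g ≤ 2 * d w p`. Let `s = g / 2` (floor) and `o = c' s` on the geodesic of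
`h.geo w p`: `d w o = s`, `d o p = d w p - s`. `four` with the pairs `(c, o)`, `(w, p)`:
`d c o + d w p ≤ max (d c w + d o p) (d c p + d o w) + 2 * δ`, so
`gp d o c p = d c o + d o p - d c p ≤ max (g - 2 * s) 0 + 2 * δ ≤ 2 * δ + 1`. -/
theorem center {X : Type} {d : X → X → ℕ} {δ : ℕ} (h : Hyp d δ) (w p c : X) :
    ∃ o, d w o + d o p = d w p ∧ 2 * (d w o : ℤ) ≤ gp d w c p ∧ gp d o c p ≤ 2 * δ + 1 := by
  obtain ⟨c', hc0, hcL, hc⟩ := h.geo w p
  have h1 : d w c ≤ d w p + d p c := h.tri w p c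
  have h2 : d c p ≤ d c w + d w p := h.tri c w p
  have h3 : d c w = d w c := h.symm c w
  have h3' : d p c = d c p := h.symm p c
  obtain ⟨s, hs⟩ : ∃ s, s = (d w c + d w p - d c p) / 2 := ⟨_, rfl⟩
  have hsL : s ≤ d w p := by omega
  have e1 : d w (c' s) = s := by
    have := hc 0 s (Nat.zero_le _) hsL
    rw [hc0] at this
    omega
  have e2 : d (c' s) p = d w p - s := by
    have := hc s (d w p) hsL le_rfl
    rw [hcL] at this
    exact this
  have e3 : d p (c' s) = d (c' s) p := h.symm p (c' s)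
  have e4 : d (c' s) c = d c (c' s) := h.symm (c' s) c
  have h4 := four h w p (c' s) c
  refine ⟨c' s, by omega, ?_, ?_⟩
  · unfold gp
    omega
  · unfold gp
    rcases max_cases (d w (c' s) + d c p) (d p (c' s) + d c w) with ⟨h5, _⟩ | ⟨h5, _⟩
    · rw [h5] at h4
      omega
    · rw [h5] at h4
      omega

end H15M
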