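import Pool.Agent.Lib.H15M.A3
import Pool.Agent.Lib.H15M.A4

/-! # H15M, chunk A5 (S/M): points with small Gromov product are near the set -/

namespace H15M

/-- (A5a, S) PROOF. `qc` gives `D0`; `D = D0 + (C + 4 * δ + 2)`. `near_geo` gives `o` between `a` and `b` with
`2 * d w o ≤ C + 4 * δ + 2`; `qc` for `o`. -/
theorem qc_near (δ K C : ℕ) : ∃ D : ℕ, ∀ {X : Type} (d : X → X → ℕ), Hyp d δ → ∀ P : Set X, PathProp d K P →
    ∀ a ∈ P, ∀ b ∈ P, ∀ w, gp d w a b ≤ C → ∃ y ∈ P, d w y ≤ D := by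
  obtain ⟨D0, hD0⟩ := qc δ K
  refine ⟨D0 + (C + 4 * δ + 2), ?_⟩
  intro X d h P hP a ha b hb w hw
  obtain ⟨o, ho, ho2⟩ := near_geo h a b w
  obtain ⟨y, hy, hy2⟩ := hD0 d h P hP a ha b hb o ho
  refine ⟨y, hy, ?_⟩
  have h1 := h.tri w o y
  omega

/-- (A5b, S/M) PROOF. For `a = p i`, `b = p j` with `i ≤ j`: the path `l ↦ p (i + l)`, `j - i ≤ d (p i) (p j)` steps. For `j < i`:
the path `l ↦ p (i - l)`, `i - j` steps, each at most `K` by symmetry. -/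
theorem seq_prop {X : Type} {d : X → X → ℕ} {δ : ℕ} (h : Hyp d δ) {K n : ℕ} {p : ℕ → X} (hp : QSeq d K n p) :
    PathProp d (K + 1) {x | ∃ i, i ≤ n ∧ x = p i} := by
  rintro a ⟨i, hi, rfl⟩ b ⟨j, hj, rfl⟩
  rcases le_or_gt i j with hij | hij
  · have h1 := hp.low i j hij hj
    refine ⟨j - i, fun l => p (i + l), rfl, ?_, ?_, ?_, ?_⟩
    · show p (i + (j - i)) = p j
      rw [Nat.add_sub_cancel' hij]
    · nlinarith
    · intro l hl
      exact ⟨i + l, by omega, rfl⟩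
    · intro l hl
      have h2 := hp.step (i + l) (by omega)
      show d (p (i + l)) (p (i + (l + 1))) ≤ K + 1
      rw [← add_assoc]
      omega
  · have h1 := hp.low j i hij.le hi
    rw [h.symm] at h1
    refine ⟨i - j, fun l => p (i - l), rfl, ?_, ?_, ?_, ?_⟩
    · show p (i - (i - j)) = p j
      rw [Nat.sub_sub_self hij.le]
    · nlinarith
    · intro l hl
      exact ⟨i - l, by omega, rfl⟩
    · intro l hl
      have h2 := hp.step (i - (l + 1)) (by omega)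
      have h3 : i - (l + 1) + 1 = i - l := by omega
      rw [h3, h.symm] at h2
      show d (p (i - l)) (p (i - (l + 1))) ≤ K + 1
      omega

/-- (A5c, S) PROOF. `qc_near` and `seq_prop`. -/
theorem seq_near (δ K C : ℕ) : ∃ D : ℕ, ∀ {X : Type} (d : X → X → ℕ), Hyp d δ → ∀ (n : ℕ) (p : ℕ → X), QSeq d K n p →
    ∀ w, gp d w (p 0) (p n) ≤ C → ∃ i, i ≤ n ∧ d w (p i) ≤ D := by
  obtain ⟨D, hD⟩ := qc_near δ (K + 1) C
  refine ⟨D, ?_⟩
  intro X d h n p hp w hw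
  obtain ⟨y, ⟨i, hi, rfl⟩, hy2⟩ := hD d h _ (seq_prop h hp) (p 0) ⟨0, Nat.zero_le _, rfl⟩ (p n) ⟨n, le_refl _, rfl⟩ w hw
  exact ⟨i, hi, hy2⟩

end H15M
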