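import Pool.Agent.Lib.H15M.A5

/-! # H15M, chunk A8 (M): quasigeodesic sequences are near geodesics -/

namespace H15M

/-- (A8a, S) PROOF. Induction on `j - i` with the triangle inequality. -/
theorem seq_up {X : Type} {d : X → X → ℕ} {δ : ℕ} (h : Hyp d δ) {K n : ℕ} {p : ℕ → X} (hp : QSeq d K n p) (i j : ℕ)
    (hij : i ≤ j) (hj : j ≤ n) : d (p i) (p j) ≤ K * (j - i) := by
  induction j, hij using Nat.le_induction with
  | base => simp [h.self]
  | succ j hij ih =>
    have h1 := ih (by omega)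
    have h2 := hp.step j (by omega)
    have h3 := h.tri (p i) (p j) (p (j + 1))
    have h4 : K * (j + 1 - i) = K * (j - i) + K := by
      rw [Nat.sub_add_comm hij]
      ring
    omega

/-- (A8b, M) PROOF. `D0` from `qc δ (K + 1)`, `C = 2 * (K * (2 * D0 + 1) + D0)`. Let `L = d (p 0) (p n)`, `c` the geodesic from `p 0` to
`p n` (`h.geo`). By `qc` and `seq_prop` every `c s`, `s ≤ L`, has some `j ≤ n` with `d (c s) (p j) ≤ D0`. Let `s ≤ L` be the largest number such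
that there is `j ≤ i` with `d (c s) (p j) ≤ D0` (`s = 0`, `j = 0` is possible). If `s = L`: `n - j ≤ d (p j) (p n) ≤ D0`. Otherwise for `s + 1`
there is `j' ≤ n` with `d (c (s + 1)) (p j') ≤ D0`, and `i < j'`; `j' - j ≤ d (p j) (p j') ≤ 2 * D0 + 1`. In both cases `i - j ≤ 2 * D0 + 1`, so
`d (p i) (c s) ≤ K * (2 * D0 + 1) + D0` (`seq_up`), and `gp d v a b ≤ 2 * d v o` for `o` between `a` and `b`. -/
theorem geo_near_seq (δ K : ℕ) : ∃ C : ℕ, ∀ {X : Type} (d : X → X → ℕ), Hyp d δ → ∀ (n : ℕ) (p : ℕ → X), QSeq d K n p →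
    ∀ i, i ≤ n → gp d (p i) (p 0) (p n) ≤ C := by
  obtain ⟨D0, hD0⟩ := qc δ (K + 1)
  refine ⟨2 * (K * (2 * D0 + 1) + D0), ?_⟩
  intro X d h n p hp i hi
  obtain ⟨c, hc0, hcL, hc⟩ := h.geo (p 0) (p n)
  set L := d (p 0) (p n) with hL
  have hnear : ∀ s, s ≤ L → ∃ j, j ≤ n ∧ d (c s) (p j) ≤ D0 := by
    intro s hs
    have h1 := hc 0 s (Nat.zero_le _) hs
    have h2 := hc s L hs le_rfl
    rw [hc0] at h1
    rw [hcL] at h2
    obtain ⟨y, ⟨j, hj, rfl⟩, hy⟩ := hD0 d h _ (seq_prop h hp) (p 0) ⟨0, Nat.zero_le _, rfl⟩ (p n) ⟨n, le_refl _, rfl⟩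
      (c s) (by rw [h1, h2]; omega)
    exact ⟨j, hj, hy⟩
  have key : ∃ s j, s ≤ L ∧ j ≤ i ∧ d (c s) (p j) ≤ D0 ∧ i - j ≤ 2 * D0 + 1 := by
    by_cases hall : ∀ s, s < L → (∃ j, j ≤ i ∧ d (c s) (p j) ≤ D0) → ∃ j, j ≤ i ∧ d (c (s + 1)) (p j) ≤ D0
    · have hQ : ∀ s, s ≤ L → ∃ j, j ≤ i ∧ d (c s) (p j) ≤ D0 := by
        intro s
        induction s with
        | zero =>
          intro _
          refine ⟨0, Nat.zero_le _, ?_⟩
          rw [hc0, h.self]
          exact Nat.zero_le _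
        | succ s ih =>
          intro hs
          exact hall s hs (ih (by omega))
      obtain ⟨j, hj, hj2⟩ := hQ L le_rfl
      refine ⟨L, j, le_rfl, hj, hj2, ?_⟩
      have h1 := hp.low j n (hj.trans hi) le_rfl
      rw [hcL, h.symm] at hj2
      omega
    · push Not at hall
      obtain ⟨s, hs, ⟨j, hj, hj2⟩, hno⟩ := hall
      obtain ⟨j', hj', hj'2⟩ := hnear (s + 1) hs
      have hij' : i < j' := by
        by_contra hcon
        have := hno j' (by omega)
        omega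
      refine ⟨s, j, hs.le, hj, hj2, ?_⟩
      have h1 := hp.low j j' (by omega) hj'
      have h2 := h.tri (p j) (c s) (p j')
      have h3 := h.tri (c s) (c (s + 1)) (p j')
      have h4 := hc s (s + 1) (Nat.le_succ s) hs
      have h5 := h.symm (p j) (c s)
      omega
  obtain ⟨s, j, hs, hj, hj2, hij⟩ := key
  have h1 := seq_up h hp j i hj hi
  have h2 : K * (i - j) ≤ K * (2 * D0 + 1) := Nat.mul_le_mul_left _ hij
  have h3 := h.tri (p i) (p j) (c s)
  have h4 := h.symm (p i) (p j)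
  have h5 := h.symm (p j) (c s)
  have h6 := h.tri (p i) (c s) (p 0)
  have h7 := h.tri (p i) (c s) (p n)
  have h8 := hc 0 s (Nat.zero_le _) hs
  have h9 := hc s L hs le_rfl
  rw [hc0] at h8
  rw [hcL] at h9
  have h10 := h.symm (c s) (p 0)
  have h11 : gp d (p i) (p 0) (p n) = (d (p i) (p 0) : ℤ) + d (p i) (p n) - L := rfl
  rw [h11]
  generalize K * (2 * D0 + 1) = E at h2 ⊢
  generalize K * (i - j) = E' at h1 h2
  omega

end H15M
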