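import Pool.Agent.Lib.H15M.A8

/-! # H15M, chunk A9 (M): two quasigeodesic sequences of the same levels are close in the middle -/

namespace H15M

/-- (A9, M) PROOF. `C` from `geo_near_seq δ K`, `D` from `seq_near δ K (C + 4 * δ)`, `R = D + K * D + C + 4 * δ + 1`. Let `y = p k`,
`a = p 0`, `a' = p n`, `b = q 0`, `b' = q n`. `gp d y a a' ≤ C`. `k ≤ d a y` and `n - k ≤ d y a'` (`low`), so
`gp d y a b ≥ 2 * d y a - 2 * d a b ≥ 2 * k - 2 * A ≥ 2 * R > C + 2 * δ` and `gp d y a' b' ≥ 2 * (n - k) - 2 * B > C + 4 * δ`. `h.hyp` for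
`min (gp y a b) (gp y b a') ≤ gp y a a' + 2 * δ` gives `gp y b a' ≤ C + 2 * δ`, then `min (gp y b b') (gp y b' a') ≤ gp y b a' + 2 * δ` gives
`gp y b b' ≤ C + 4 * δ`. `seq_near` for `q`: `d y (q i) ≤ D`, so `|i - k| ≤ D` by the hypothesis on the levels, and `d (q i) (q k) ≤ K * D`
(`seq_up`). -/
theorem fellow (δ K : ℕ) : ∃ R : ℕ, ∀ {X : Type} (d : X → X → ℕ), Hyp d δ → ∀ (A B n : ℕ) (p q : ℕ → X),
    QSeq d K n p → QSeq d K n q → (∀ i j, i ≤ n → j ≤ n → i - j ≤ d (p i) (q j) ∧ j - i ≤ d (p i) (q j)) →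
    d (p 0) (q 0) ≤ A → d (p n) (q n) ≤ B → ∀ k, A + R ≤ k → k + B + R ≤ n → d (p k) (q k) ≤ R := by
  obtain ⟨C, hC⟩ := geo_near_seq δ K
  obtain ⟨D, hD⟩ := seq_near δ K (C + 4 * δ)
  refine ⟨D + K * D + C + 4 * δ + 1, fun {X} d h A B n p q hp hq hpq hA hB k hk hk' => ?_⟩
  have hkn : k ≤ n := by omega
  have h1 : gp d (p k) (p 0) (p n) ≤ C := hC d h n p hp k hkn
  have h2 : k ≤ d (p 0) (p k) := by
    have := hp.low 0 k (Nat.zero_le _) hkn
    omega
  have h3 : n - k ≤ d (p k) (p n) := hp.low k n hkn le_rfl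
  have s1 := h.symm (p 0) (p k)
  have s2 := h.symm (p 0) (q 0)
  have s3 := h.symm (p n) (q n)
  have h4 : 2 * (k : ℤ) - 2 * A ≤ gp d (p k) (p 0) (q 0) := by
    have t1 := h.tri (p k) (q 0) (p 0)
    unfold gp
    omega
  have h5 : 2 * ((n : ℤ) - k) - 2 * B ≤ gp d (p k) (p n) (q n) := by
    have t1 := h.tri (p k) (q n) (p n)
    unfold gp
    omega
  have h6 := h.hyp (p 0) (p n) (q 0) (p k)
  have h7 := h.hyp (q 0) (p n) (q n) (p k)
  have h8 : gp d (p k) (q 0) (p n) = gp d (p k) (p n) (q 0) := by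
    have := h.symm (q 0) (p n)
    unfold gp
    omega
  have h9 : gp d (p k) (q 0) (q n) ≤ ((C + 4 * δ : ℕ) : ℤ) := by
    have hKD : 0 ≤ K * D := Nat.zero_le _
    generalize K * D = u at *
    push_cast
    omega
  obtain ⟨i, hi, hiD⟩ := hD d h n q hq (p k) h9
  obtain ⟨h10, h11⟩ := hpq k i hkn hi
  have h12 : d (q i) (q k) ≤ K * D := by
    rcases le_total i k with hik | hik
    · refine (seq_up h hq i k hik hkn).trans (Nat.mul_le_mul_left K ?_)
      omega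
    · rw [h.symm]
      refine (seq_up h hq k i hik hi).trans (Nat.mul_le_mul_left K ?_)
      omega
  have h13 := h.tri (p k) (q i) (q k)
  omega

end H15M
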