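import Pool.Agent.Lib.H15M.T4

/-! # H15M, chunk B1 (S/M): medians of points which are close to each other from far away -/

namespace H15M

variable {G : Type} [Group G] {F : Subgroup G} {N : G → ℕ}

theorem b1_btw (hT : TreeN F N) {m x x' w : G} (hx : Lv F m x) (hx' : Lv F m x') (hw : Lv F m w)
    (h : t N x x' < t N m x + t N m x') (hb : Btw N x m w) : Btw N x' m w := by
  have h1 := t_four hT hx hx' hw
  have s1 : t N x m = t N m x := t_symm hT (lv_symm hx)
  have s2 : t N x' m = t N m x' := t_symm hT (lv_symm hx')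
  have h2 := t_tri hT (lv_symm hx') hw
  unfold Btw at hb ⊢
  rcases le_max_iff.1 h1 with h3 | h3
  · omega
  · omega

/-- (B1a, S/M) If `x` and `x'` have a large Gromov product with respect to `o` and the median `m` of `x, y, z` is near `o`, then `m` is also the
median of `x', y, z`. PROOF. `t m x + t m x' - t x x' ≥ t o x + t o x' - t x x' - 2 * t o m > 0`. `t_four` for `m, x, x', y` gives
`t x y + t m x' ≤ max (t m x + t x' y) (t m y + t x x')`, and `t x y = t m x + t m y`. The second case is impossible (`t m x + t m x' > t x x'`),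
the first gives `t m y + t m x' ≤ t x' y`, so `Btw x' m y`. The same for `z`. `md_of` (the median of `x', y, z`). -/
theorem md_replace (hT : TreeN F N) {o x x' y z : G} (hx : Lv F o x) (hx' : Lv F o x') (hy : Lv F o y) (hz : Lv F o z)
    (h : 2 * t N o (md F N x y z) + t N x x' < t N o x + t N o x') : md F N x' y z = md F N x y z := by
  have hxy : Lv F x y := lv_trans (lv_symm hx) hy
  have hxz : Lv F x z := lv_trans (lv_symm hx) hz
  obtain ⟨hm, m1, m2, m3⟩ := md_spec hT hxy hxz
  set m := md F N x y z with hmd
  have hom : Lv F o m := lv_trans hx hm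
  have hmx : Lv F m x := lv_symm hm
  have hmx' : Lv F m x' := lv_trans (lv_symm hom) hx'
  have hmy : Lv F m y := lv_trans hmx hxy
  have hmz : Lv F m z := lv_trans hmx hxz
  have t1 := t_tri hT hom hmx
  have t2 := t_tri hT hom hmx'
  have hlt : t N x x' < t N m x + t N m x' := by omega
  exact md_of hT (lv_trans (lv_symm hx') hy) (lv_trans (lv_symm hx') hz)
    ⟨lv_symm hmx', b1_btw hT hmx hmx' hmy hlt m1, b1_btw hT hmx hmx' hmz hlt m2, m3⟩

/-- (B1b, S/M) PROOF. `md_replace` three times, with `md_swap`. -/
theorem md_replace3 (hT : TreeN F N) {o x x' y y' z z' : G} (hx : Lv F o x) (hx' : Lv F o x') (hy : Lv F o y)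
    (hy' : Lv F o y') (hz : Lv F o z) (hz' : Lv F o z')
    (h1 : 2 * t N o (md F N x y z) + t N x x' < t N o x + t N o x')
    (h2 : 2 * t N o (md F N x y z) + t N y y' < t N o y + t N o y')
    (h3 : 2 * t N o (md F N x y z) + t N z z' < t N o z + t N o z') : md F N x' y' z' = md F N x y z := by
  have hl : ∀ {u v : G}, Lv F o u → Lv F o v → Lv F u v := fun hu hv => lv_trans (lv_symm hu) hv
  have e1 := md_replace hT hx hx' hy hz h1
  have e2 : md F N y x' z = md F N x y z := by
    rw [← e1]
    exact ((md_swap hT (hl hx' hy) (hl hx' hz)).1).symm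
  have e3 : md F N y' x' z = md F N x y z := by
    rw [← e2]
    refine md_replace hT hy hy' hx' hz ?_
    rw [e2]
    exact h2
  have e4 : md F N z x' y' = md F N x y z := by
    rw [← e3]
    have a1 := (md_swap hT (hl hy' hx') (hl hy' hz)).1
    have a2 := (md_swap hT (hl hx' hy') (hl hx' hz)).2
    have a3 := (md_swap hT (hl hx' hz) (hl hx' hy')).1
    rw [a1, a2, a3]
  have e5 : md F N z' x' y' = md F N x y z := by
    rw [← e4]
    refine md_replace hT hz hz' hx' hy' ?_
    rw [e4]
    exact h3
  have a4 := (md_swap hT (hl hx' hy') (hl hx' hz')).2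
  have a5 := (md_swap hT (hl hx' hz') (hl hx' hy')).1
  rw [a4, a5, e5]

end H15M
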