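import Pool.Agent.Lib.H15M.Defs

/-! # H15M, chunk B2 (S/M): powers of two basis elements of a free group -/

namespace H15M

/-- the elements `a, b` of `F` behave like two different elements of a basis -/
structure TwoB {G : Type} [Group G] (F : Subgroup G) (N : G → ℕ) (a b : G) : Prop where
  ha : a ∈ F
  hb : b ∈ F
  pa : ∀ n : ℕ, N (a ^ n) = n
  pb : ∀ n : ℕ, N (b ^ n) = n
  ab : ∀ n : ℕ, N ((a ^ n)⁻¹ * b ^ n) = 2 * n
  ba : ∀ n : ℕ, N ((b ^ n)⁻¹ * (a⁻¹) ^ n) = 2 * n

open Classical in
/-- the norm on `G` defined by a basis of `F` (`0` outside `F`) -/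
noncomputable def nrm {G : Type} [Group G] (F : Subgroup G) {ι : Type} (e : FreeGroup ι ≃* F) (g : G) : ℕ :=
  if h : g ∈ F then (e.symm ⟨g, h⟩).norm else 0

open Classical in
theorem b2_nrm {G : Type} [Group G] (F : Subgroup G) {ι : Type} (e : FreeGroup ι ≃* F) (w : FreeGroup ι) : nrm F e (e w : G) = w.norm := by
  unfold nrm
  rw [dif_pos (e w).2, Subtype.coe_eta, e.symm_apply_apply]

theorem b2_red {ι : Type} {i j : ι} (hij : i ≠ j) (x y : Bool) (n : ℕ) :
    FreeGroup.IsReduced (List.replicate n (i, x) ++ List.replicate n (j, y)) := by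
  unfold FreeGroup.IsReduced
  rw [List.isChain_append]
  refine ⟨List.isChain_replicate_of_rel _ fun _ => rfl, List.isChain_replicate_of_rel _ fun _ => rfl, fun a ha c hc h => ?_⟩
  have h1 : a = (i, x) := List.eq_of_mem_replicate (List.mem_of_mem_getLast? ha)
  have h2 : c = (j, y) := List.eq_of_mem_replicate (List.mem_of_mem_head? hc)
  rw [h1, h2] at h
  exact absurd h hij

open Classical in
theorem b2_inv {ι : Type} (i : ι) (n : ℕ) : ((FreeGroup.of i ^ n)⁻¹ : FreeGroup ι).toWord = List.replicate n (i, false) := by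
  rw [FreeGroup.toWord_inv, FreeGroup.toWord_of_pow]
  unfold FreeGroup.invRev
  simp

/-- (B2, M) PROOF. `a = e (of i)`, `b = e (of j)`. For `FreeGroup`: `norm (of i ^ n) = n`, and the words `(of i ^ n)⁻¹ * of j ^ n`,
`(of j ^ n)⁻¹ * (of i)⁻¹ ^ n` are reduced of length `2 * n`: `toWord` of the product of the lists `replicate n (i, false) ++ replicate n (j, true)`
(no cancellation because `i ≠ j`): for example show that `FreeGroup.mk L` of a reduced list `L` (`FreeGroup.IsReduced`, or `List.Chain'`) has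
`toWord = L`. `DecidableEq ι` by `classical` (the instance in `nrm` is the classical one). -/
theorem twoB {G : Type} [Group G] (F : Subgroup G) {ι : Type} (e : FreeGroup ι ≃* F) {i j : ι} (hij : i ≠ j) :
    TwoB F (nrm F e) (e (FreeGroup.of i) : G) (e (FreeGroup.of j) : G) := by
  classical
  have e1 : ∀ (k : ι) (n : ℕ), (e (FreeGroup.of k) : G) ^ n = (e (FreeGroup.of k ^ n) : G) := fun k n => by
    rw [map_pow, Subgroup.coe_pow]
  have e2 : ∀ (w : FreeGroup ι), ((e w : G))⁻¹ = (e w⁻¹ : G) := fun w => by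
    rw [map_inv, Subgroup.coe_inv]
  have e3 : ∀ (w v : FreeGroup ι), (e w : G) * (e v : G) = (e (w * v) : G) := fun w v => by
    rw [map_mul, Subgroup.coe_mul]
  have n1 : ∀ (k : ι) (n : ℕ), nrm F e ((e (FreeGroup.of k) : G) ^ n) = n := fun k n => by
    rw [e1, b2_nrm]
    exact FreeGroup.norm_of_pow k n
  refine ⟨(e _).2, (e _).2, n1 i, n1 j, fun n => ?_, fun n => ?_⟩
  · rw [e1, e1, e2, e3, b2_nrm]
    unfold FreeGroup.norm
    rw [FreeGroup.toWord_mul, b2_inv, FreeGroup.toWord_of_pow, (b2_red hij false true n).reduce_eq, List.length_append,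
      List.length_replicate, List.length_replicate]
    omega
  · rw [e1, e2, e2, ← Subgroup.coe_pow, ← map_pow, e3, b2_nrm, inv_pow]
    unfold FreeGroup.norm
    rw [FreeGroup.toWord_mul, b2_inv, b2_inv, (b2_red hij.symm false false n).reduce_eq, List.length_append,
      List.length_replicate, List.length_replicate]
    omega

end H15M
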