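import Pool.Agent.Lib.H15M.T2

/-! # H15M, chunk T5 (M): geodesics and paths in a level -/

namespace H15M

variable {G : Type} [Group G] {F : Subgroup G} {N : G → ℕ}

/-- (T5a, S/M) PROOF. `c i = x * p i`, `p i` from `hT.path (x⁻¹ * y)` for `i ≤ t x y` (choice). `c 0 = x`, `c (t x y) = y` by
`hT.eq_one`. `Btw x (c i) y`, `t x (c i) = i`; for `i ≤ j` use `btw_lin`. -/
theorem lgeo (hT : TreeN F N) {x y : G} (h : Lv F x y) : ∃ c : ℕ → G, c 0 = x ∧ c (t N x y) = y ∧
    (∀ i, i ≤ t N x y → Lv F x (c i) ∧ Btw N x (c i) y) ∧ ∀ i j, i ≤ j → j ≤ t N x y → t N (c i) (c j) = j - i := by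
  have h0 : ∀ i : ℕ, ∃ p : G, i ≤ t N x y → p ∈ F ∧ N p = i ∧ N (p⁻¹ * (x⁻¹ * y)) = t N x y - i := by
    intro i
    by_cases hi : i ≤ t N x y
    · obtain ⟨p, hp, h1, h2⟩ := hT.path (x⁻¹ * y) h i hi
      exact ⟨p, fun _ => ⟨hp, h1, h2⟩⟩
    · exact ⟨1, fun h' => absurd h' hi⟩
  choose p hp using h0
  have hx : ∀ i, i ≤ t N x y → Lv F x (x * p i) := by
    intro i hi
    unfold Lv
    rw [inv_mul_cancel_left]
    exact (hp i hi).1
  have hd : ∀ i, i ≤ t N x y → t N x (x * p i) = i := by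
    intro i hi
    unfold t
    rw [inv_mul_cancel_left]
    exact (hp i hi).2.1
  have hd' : ∀ i, i ≤ t N x y → t N (x * p i) y = t N x y - i := by
    intro i hi
    have e : (x * p i)⁻¹ * y = (p i)⁻¹ * (x⁻¹ * y) := by group
    have h2 := (hp i hi).2.2
    unfold t at *
    rw [e]
    exact h2
  have hb : ∀ i, i ≤ t N x y → Btw N x (x * p i) y := by
    intro i hi
    have e1 := hd i hi
    have e2 := hd' i hi
    unfold Btw
    omega
  refine ⟨fun i => x * p i, ?_, ?_, fun i hi => ⟨hx i hi, hb i hi⟩, ?_⟩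
  · have h1 := hd 0 (Nat.zero_le _)
    exact (t_zero hT (hx 0 (Nat.zero_le _)) h1).symm
  · have h1 := hd' (t N x y) le_rfl
    rw [Nat.sub_self] at h1
    exact t_zero hT (lv_trans (lv_symm (hx _ le_rfl)) h) h1
  · intro i j hij hj
    have hi : i ≤ t N x y := hij.trans hj
    have h1 := (btw_lin hT (hx i hi) (hx j hj) h (hb i hi) (hb j hj) (by rw [hd i hi, hd j hj]; exact hij)).1
    have e1 := hd i hi
    have e2 := hd j hj
    show t N (x * p i) (x * p j) = j - i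
    unfold Btw at h1
    omega

/-- (T5b, S/M) PROOF. Let `i` be the least index `≤ n` with `Btw (p 0) v (p i)` (it exists: `n`). If `i = 0` then `v = p 0`. Otherwise
not `Btw (p 0) v (p (i - 1))`, so by `btw_split` `Btw (p (i - 1)) v (p i)`, and `t (p i) v ≤ t (p (i - 1)) (p i) ≤ A`. -/
theorem tpath (hT : TreeN F N) (A n : ℕ) (p : ℕ → G) (hl : ∀ i, i ≤ n → Lv F (p 0) (p i))
    (hs : ∀ i, i < n → t N (p i) (p (i + 1)) ≤ A) (v : G) (hv : Lv F (p 0) v) (h : Btw N (p 0) v (p n)) :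
    ∃ i, i ≤ n ∧ t N (p i) v ≤ A := by
  classical
  have hex : ∃ i, i ≤ n ∧ Btw N (p 0) v (p i) := ⟨n, le_rfl, h⟩
  obtain ⟨hi, hb⟩ := Nat.find_spec hex
  have hmin : ∀ j, j < Nat.find hex → ¬ (j ≤ n ∧ Btw N (p 0) v (p j)) := fun j hj => Nat.find_min hex hj
  generalize Nat.find hex = i at *
  rcases Nat.eq_zero_or_pos i with h0 | h0
  · refine ⟨0, Nat.zero_le _, ?_⟩
    rw [h0] at hb
    unfold Btw at hb
    rw [t_self hT] at hb
    have h1 : t N (p 0) v = 0 := by omega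
    rw [h1]
    exact Nat.zero_le _
  · have hi' : i - 1 ≤ n := by omega
    have h2 : ¬ Btw N (p 0) v (p (i - 1)) := fun h3 => hmin (i - 1) (by omega) ⟨hi', h3⟩
    have h3 := (btw_split hT (p (i - 1)) hv (hl i hi) (hl (i - 1) hi') hb).resolve_left h2
    have h4 := hs (i - 1) (by omega)
    have e : i - 1 + 1 = i := by omega
    rw [e] at h4
    refine ⟨i, hi, ?_⟩
    have h5 : t N v (p i) = t N (p i) v := t_symm hT (lv_trans (lv_symm hv) (hl i hi))
    unfold Btw at h3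
    omega

end H15M
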