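import Pool.Agent.Lib.H15M.T3
import Pool.Agent.Lib.H15M.T5

/-! # H15M, chunk T6 (M): medians and right multiplication -/

namespace H15M

variable {G : Type} [Group G] {F : Subgroup G} {N : G → ℕ}

/-- (T6a, S/M) All points in one level, `m` the median of `x, y, z`, `p ∈ [x, y]`, `q ∈ [y, z]`, `r ∈ [x, z]`: then
`t p m ≤ t p q` or `t p m ≤ t p r`. PROOF. By `btw_lin` `p` is between `x` and `m` or between `m` and `y`. First case:
`m` is between `p` and `y` and between `p` and `z` (`btw_trans`), so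
`2 * t p m + t y z = 2 * t p m + t m y + t m z = t p y + t p z ≤ (t p q + t q y) + (t p q + t q z) = 2 * t p q + t y z`. The
second case is the same with `x, r` in place of `y, q`. -/
theorem med_near (hT : TreeN F N) {x y z m p q r : G} (hy : Lv F x y) (hz : Lv F x z) (hm : IsMed F N x y z m)
    (hp : Lv F x p) (hq : Lv F x q) (hr : Lv F x r) (h1 : Btw N x p y) (h2 : Btw N y q z) (h3 : Btw N x r z) :
    t N p m ≤ t N p q ∨ t N p m ≤ t N p r := by
  obtain ⟨m1, m2, m3, m4⟩ := hm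
  have hyz : Lv F y z := lv_trans (lv_symm hy) hz
  have hyx : Lv F y x := lv_symm hy
  have hyp : Lv F y p := lv_trans hyx hp
  have hym : Lv F y m := lv_trans hyx m1
  have hpm : Lv F p m := lv_trans (lv_symm hp) m1
  have hpq : Lv F p q := lv_trans (lv_symm hp) hq
  have hpr : Lv F p r := lv_trans (lv_symm hp) hr
  have hqy : Lv F q y := lv_trans (lv_symm hq) hy
  have hqz : Lv F q z := lv_trans (lv_symm hq) hz
  have hrx : Lv F r x := lv_symm hr
  have hrz : Lv F r z := lv_trans hrx hz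
  have s1 : t N q y = t N y q := t_symm hT hqy
  have s2 : t N y m = t N m y := t_symm hT hym
  have s3 : t N m p = t N p m := t_symm hT (lv_symm hpm)
  have s4 : t N r x = t N x r := t_symm hT hrx
  have s5 : t N x p = t N p x := t_symm hT hp
  have s6 : t N y p = t N p y := t_symm hT hyp
  have i1 : t N p y ≤ t N p q + t N q y := t_tri hT hpq hqy
  have i2 : t N p z ≤ t N p q + t N q z := t_tri hT hpq hqz
  have i3 : t N p x ≤ t N p r + t N r x := t_tri hT hpr hrx
  have i4 : t N p z ≤ t N p r + t N r z := t_tri hT hpr hrz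
  rcases le_total (t N x p) (t N x m) with hle | hle
  · left
    obtain ⟨b1, b2⟩ := btw_lin hT hp m1 hy h1 m2 hle
    obtain ⟨_, b3⟩ := btw_trans hT hp m1 hz m3 b1
    unfold Btw at *
    omega
  · right
    obtain ⟨b1, b2⟩ := btw_lin hT m1 hp hy m2 h1 hle
    have b2' : Btw N y p m := by
      unfold Btw at *
      omega
    obtain ⟨_, b3⟩ := btw_trans hT hyp hym hyz m4 b2'
    unfold Btw at *
    omega

theorem t6_aux1 (u : G) (L : ℕ) (h1 : ∀ f ∈ F, N (u⁻¹ * f * u) ≤ L * N f) {v w : G} (h : Lv F v w) :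
    t N (v * u) (w * u) ≤ L * t N v w := by
  have h2 := h1 _ h
  have e : u⁻¹ * (v⁻¹ * w) * u = (v * u)⁻¹ * (w * u) := by group
  rw [e] at h2
  exact h2

theorem t6_aux2 (hF : F.Normal) (u : G) (L : ℕ) (h2 : ∀ f ∈ F, N (u * f * u⁻¹) ≤ L * N f) {v w : G}
    (h : Lv F v w) : t N v w ≤ L * t N (v * u) (w * u) := by
  have h3 := h2 _ (lv_right hF u h)
  have e : u * ((v * u)⁻¹ * (w * u)) * u⁻¹ = v⁻¹ * w := by group
  rw [e] at h3
  exact h3

theorem t6_aux3 (hT : TreeN F N) (hF : F.Normal) (u : G) (L : ℕ) (h1 : ∀ f ∈ F, N (u⁻¹ * f * u) ≤ L * N f)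
    {x y w : G} (hy : Lv F x y) (hw : Lv F (x * u) w) (hb : Btw N (x * u) w (y * u)) :
    ∃ p, Lv F x p ∧ Btw N x p y ∧ t N (p * u) w ≤ L := by
  obtain ⟨c, c0, cn, hc, hcd⟩ := lgeo hT hy
  obtain ⟨i, hi, h3⟩ := tpath hT L (t N x y) (fun i => c i * u) (fun i hi => by
      show Lv F (c 0 * u) (c i * u)
      rw [c0]
      exact lv_right hF u (hc i hi).1) (fun i hi => by
      show t N (c i * u) (c (i + 1) * u) ≤ L
      have h4 := t6_aux1 u L h1 (lv_trans (lv_symm (hc i hi.le).1) (hc (i + 1) hi).1)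
      rw [hcd i (i + 1) (Nat.le_succ _) hi] at h4
      have e : i + 1 - i = 1 := by omega
      rw [e, mul_one] at h4
      exact h4) w (by
      show Lv F (c 0 * u) w
      rw [c0]
      exact hw) (by
      show Btw N (c 0 * u) w (c (t N x y) * u)
      rw [c0, cn]
      exact hb)
  exact ⟨c i, (hc i hi).1, (hc i hi).2, h3⟩

/-- (T6b, M) PROOF. Let `f v = v * u`; `t (f v) (f w) ≤ L * t v w` and `t v w ≤ L * t (f v) (f w)` for `v, w` in the level of `x` (`h1`, `h2`; `F`
is normal, so `f` maps the level of `x` to the level of `x * u`). Let `m = md x y z`, `m' = md (f x) (f y) (f z)`. `m'` is between `f x` and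
`f y`; the path `f (c i)`, `c` the level geodesic from `x` to `y` (`lgeo`), has steps at most `L`, so by `tpath` there is `p ∈ [x, y]` with
`t (f p) m' ≤ L`. In the same way `q ∈ [y, z]`, `r ∈ [x, z]`. `t p q ≤ L * t (f p) (f q) ≤ 2 * L ^ 2`, the same for `p, r`. By
`med_near` `t p m ≤ 2 * L ^ 2`, so `t (f m) m' ≤ L * (2 * L ^ 2) + L`. -/
theorem md_right (hT : TreeN F N) (hF : F.Normal) (u : G) (L : ℕ) (h1 : ∀ f ∈ F, N (u⁻¹ * f * u) ≤ L * N f)
    (h2 : ∀ f ∈ F, N (u * f * u⁻¹) ≤ L * N f) {x y z : G} (hy : Lv F x y) (hz : Lv F x z) :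
    t N (md F N x y z * u) (md F N (x * u) (y * u) (z * u)) ≤ 2 * L ^ 3 + L := by
  have hm := md_spec hT hy hz
  have hyu := lv_right hF u hy
  have hzu := lv_right hF u hz
  obtain ⟨n1, n2, n3, n4⟩ := md_spec hT hyu hzu
  generalize md F N x y z = m at *
  generalize md F N (x * u) (y * u) (z * u) = m' at *
  have hyz : Lv F y z := lv_trans (lv_symm hy) hz
  obtain ⟨p, p1, p2, p3⟩ := t6_aux3 hT hF u L h1 hy n1 n2
  obtain ⟨q, q1, q2, q3⟩ := t6_aux3 hT hF u L h1 hyz (lv_trans (lv_symm hyu) n1) n4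
  obtain ⟨r, r1, r2, r3⟩ := t6_aux3 hT hF u L h1 hz n1 n3
  have xq : Lv F x q := lv_trans hy q1
  have pu := lv_right hF u p1
  have qu := lv_right hF u xq
  have ru := lv_right hF u r1
  have pm' : Lv F (p * u) m' := lv_trans (lv_symm pu) n1
  have qm' : Lv F (q * u) m' := lv_trans (lv_symm qu) n1
  have rm' : Lv F (r * u) m' := lv_trans (lv_symm ru) n1
  have hpq : t N p q ≤ L * (2 * L) := by
    refine (t6_aux2 hF u L h2 (lv_trans (lv_symm p1) xq)).trans (Nat.mul_le_mul_left _ ?_)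
    have i1 := t_tri hT pm' (lv_symm qm')
    have i2 : t N m' (q * u) = t N (q * u) m' := t_symm hT (lv_symm qm')
    omega
  have hpr : t N p r ≤ L * (2 * L) := by
    refine (t6_aux2 hF u L h2 (lv_trans (lv_symm p1) r1)).trans (Nat.mul_le_mul_left _ ?_)
    have i1 := t_tri hT pm' (lv_symm rm')
    have i2 : t N m' (r * u) = t N (r * u) m' := t_symm hT (lv_symm rm')
    omega
  have hpm : t N p m ≤ L * (2 * L) := by
    rcases med_near hT hy hz hm p1 xq r1 p2 q2 r2 with h | h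
    · exact h.trans hpq
    · exact h.trans hpr
  have mp : Lv F m p := lv_trans (lv_symm hm.1) p1
  have i3 : t N m p = t N p m := t_symm hT mp
  have i4 : t N (m * u) (p * u) ≤ L * t N m p := t6_aux1 u L h1 mp
  have i5 := t_tri hT (lv_right hF u mp) pm'
  rw [i3] at i4
  have i6 : t N (m * u) (p * u) ≤ L * (L * (2 * L)) := i4.trans (Nat.mul_le_mul_left _ hpm)
  calc t N (m * u) m' ≤ t N (m * u) (p * u) + t N (p * u) m' := i5
    _ ≤ L * (L * (2 * L)) + L := Nat.add_le_add i6 p3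
    _ = 2 * L ^ 3 + L := by ring

end H15M
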