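import Pool.Agent.Lib.H15M.B1
import Pool.Agent.Lib.H15M.B2
import Pool.Agent.Lib.H15M.T6

/-! # H15M, chunk B3 (M): the median of three ends -/

namespace H15M

variable {G : Type} [Group G] {F : Subgroup G} {N : G → ℕ}

/-- distances of powers -/
theorem b3_pow (hT : TreeN F N) {u : G} (hu : u ∈ F) (hn : ∀ n : ℕ, N (u ^ n) = n) (i j : ℕ) :
    t N (u ^ i) (u ^ j) = (i - j) + (j - i) := by
  unfold t
  rcases le_total i j with h | h
  · have e : (u ^ i)⁻¹ * u ^ j = u ^ (j - i) := by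
      rw [inv_mul_eq_iff_eq_mul, ← pow_add]
      congr 1
      omega
    rw [e, hn]
    omega
  · have e : (u ^ i)⁻¹ * u ^ j = (u ^ (i - j))⁻¹ := by
      rw [inv_mul_eq_iff_eq_mul, eq_mul_inv_iff_mul_eq, ← pow_add]
      congr 1
      omega
    rw [e, hT.inv _ (F.pow_mem hu _), hn]
    omega

/-- (B3a, M) PROOF. Let `l = min n n'`. `2 * t g m1 = t g (u ^ n * g) + t g (u ^ n' * g) - t (u ^ n * g) (u ^ n' * g)` for `m1 = md g (u ^ n * g) (u ^ n' * g)`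
(`md_spec`). `md 1 (u ^ n) (u ^ n') = u ^ l` (`md_of`: `t (u ^ i) (u ^ j) = |i - j|`), so `md_right` gives `t (u ^ l * g) m1 ≤ 2 * L ^ 3 + L`, and
`l = N (u ^ l) ≤ L * N (g⁻¹ * u ^ l * g) = L * t g (u ^ l * g)` (`h2` for `g⁻¹ * u ^ l * g`). So `t g m1 > (2 * L ^ 3 + L) + N f`. Finally
`t (u ^ n' * g) (u ^ n' * g * f) = N f`. -/
theorem far (hT : TreeN F N) (hF : F.Normal) {u : G} (hu : u ∈ F) (hn : ∀ n : ℕ, N (u ^ n) = n) (g : G) (L : ℕ)
    (h1 : ∀ f ∈ F, N (g⁻¹ * f * g) ≤ L * N f) (h2 : ∀ f ∈ F, N (g * f * g⁻¹) ≤ L * N f) (f : G) (hf : f ∈ F)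
    (n n' : ℕ) (h : L * (4 * L ^ 3 + 2 * L + N f) < n) (h' : L * (4 * L ^ 3 + 2 * L + N f) < n') :
    2 * (2 * L ^ 3 + L) + t N (u ^ n * g) (u ^ n' * g * f) < t N g (u ^ n * g) + t N g (u ^ n' * g * f) := by
  have hLv : ∀ i : ℕ, Lv F g (u ^ i * g) := by
    intro i
    have h0 : Lv F 1 (u ^ i) := by
      unfold Lv
      rw [inv_one, one_mul]
      exact F.pow_mem hu i
    have h3 := lv_right hF g h0
    rwa [one_mul] at h3
  have hmem : ∀ i : ℕ, Lv F 1 (u ^ i) := by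
    intro i
    unfold Lv
    rw [inv_one, one_mul]
    exact F.pow_mem hu i
  have ht1 : ∀ i : ℕ, t N 1 (u ^ i) = i := by
    intro i
    unfold t
    rw [inv_one, one_mul, hn]
  have hmd : md F N 1 (u ^ n) (u ^ n') = u ^ (min n n') := by
    apply md_of hT (hmem n) (hmem n')
    refine ⟨hmem _, ?_, ?_, ?_⟩
    · unfold Btw
      rw [ht1, ht1, b3_pow hT hu hn]
      omega
    · unfold Btw
      rw [ht1, ht1, b3_pow hT hu hn]
      omega
    · unfold Btw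
      rw [b3_pow hT hu hn, b3_pow hT hu hn, b3_pow hT hu hn]
      omega
  have hr := md_right hT hF g L h1 h2 (hmem n) (hmem n')
  rw [hmd, one_mul] at hr
  obtain ⟨s1, s2, s3, s4⟩ := md_spec hT (hLv n) (hLv n')
  unfold Btw at s2 s3 s4
  have hsX : Lv F (u ^ n * g) (md F N g (u ^ n * g) (u ^ n' * g)) := lv_trans (lv_symm (hLv n)) s1
  have e1 := t_symm hT hsX
  have hYf : Lv F (u ^ n' * g) (u ^ n' * g * f) := by
    unfold Lv
    rw [inv_mul_cancel_left]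
    exact hf
  have tYf : t N (u ^ n' * g) (u ^ n' * g * f) = N f := by
    unfold t
    rw [inv_mul_cancel_left]
  have hgY' : Lv F g (u ^ n' * g * f) := lv_trans (hLv n') hYf
  have q1 : t N (u ^ n * g) (u ^ n' * g * f) ≤ t N (u ^ n * g) (u ^ n' * g) + t N (u ^ n' * g) (u ^ n' * g * f) :=
    t_tri hT (lv_trans (lv_symm (hLv n)) (hLv n')) hYf
  have q2 : t N g (u ^ n' * g) ≤ t N g (u ^ n' * g * f) + t N (u ^ n' * g * f) (u ^ n' * g) :=
    t_tri hT hgY' (lv_symm hYf)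
  rw [← t_symm hT hYf] at q2
  have q3 : t N g (u ^ (min n n') * g) ≤ t N g (md F N g (u ^ n * g) (u ^ n' * g)) +
      t N (md F N g (u ^ n * g) (u ^ n' * g)) (u ^ (min n n') * g) :=
    t_tri hT s1 (lv_trans (lv_symm s1) (hLv _))
  rw [← t_symm hT (lv_trans (lv_symm (hLv (min n n'))) s1)] at q3
  have q4 : min n n' ≤ L * t N g (u ^ (min n n') * g) := by
    have h5 := h2 (g⁻¹ * (u ^ (min n n') * g)) (hLv (min n n'))
    have e : g * (g⁻¹ * (u ^ (min n n') * g)) * g⁻¹ = u ^ (min n n') := by group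
    rw [e, hn] at h5
    exact h5
  have q5 : 2 * L ^ 3 + L + N f < t N g (md F N g (u ^ n * g) (u ^ n' * g)) := by
    by_contra hcon
    have hcon := not_lt.mp hcon
    have q6 : t N g (u ^ (min n n') * g) ≤ 4 * L ^ 3 + 2 * L + N f := by linarith
    have q7 : L * t N g (u ^ (min n n') * g) ≤ L * (4 * L ^ 3 + 2 * L + N f) := Nat.mul_le_mul_left _ q6
    have q8 : L * (4 * L ^ 3 + 2 * L + N f) < min n n' := lt_min h h'
    omega
  rw [tYf] at q1 q2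
  linarith

/-- the median of the three ends is `1` -/
theorem b3_one (hT : TreeN F N) {a b : G} (hab : TwoB F N a b) (n : ℕ) : md F N (a ^ n) (b ^ n) (a⁻¹ ^ n) = 1 := by
  have hLa : ∀ i : ℕ, Lv F 1 (a ^ i) := by
    intro i
    unfold Lv
    rw [inv_one, one_mul]
    exact F.pow_mem hab.ha i
  have hLb : ∀ i : ℕ, Lv F 1 (b ^ i) := by
    intro i
    unfold Lv
    rw [inv_one, one_mul]
    exact F.pow_mem hab.hb i
  have hLi : ∀ i : ℕ, Lv F 1 (a⁻¹ ^ i) := by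
    intro i
    unfold Lv
    rw [inv_one, one_mul]
    exact F.pow_mem (F.inv_mem hab.ha) i
  have e1 : N ((a ^ n)⁻¹) = n := by rw [hT.inv _ (F.pow_mem hab.ha n), hab.pa]
  have e2 : N ((b ^ n)⁻¹) = n := by rw [hT.inv _ (F.pow_mem hab.hb n), hab.pb]
  have e3 : N (a⁻¹ ^ n) = n := by rw [inv_pow, e1]
  apply md_of hT (lv_trans (lv_symm (hLa n)) (hLb n)) (lv_trans (lv_symm (hLa n)) (hLi n))
  refine ⟨lv_symm (hLa n), ?_, ?_, ?_⟩
  · unfold Btw t
    rw [mul_one, inv_one, one_mul, e1, hab.pb, hab.ab]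
    omega
  · unfold Btw t
    have e : (a ^ n)⁻¹ * a⁻¹ ^ n = (a ^ (n + n))⁻¹ := by
      rw [pow_add, mul_inv_rev, inv_pow]
    rw [mul_one, inv_one, one_mul, e1, e3, e, hT.inv _ (F.pow_mem hab.ha _), hab.pa]
  · unfold Btw t
    rw [mul_one, inv_one, one_mul, e2, e3, hab.ba]
    omega

/-- (B3b, M) PROOF. `md (a ^ n) (b ^ n) (a⁻¹ ^ n) = 1` (`md_of` and `TwoB`: `Btw (a ^ n) 1 (b ^ n)` and so on; `N (x⁻¹) = N x`; for `a ^ n, a⁻¹ ^ n` note
`(a ^ n)⁻¹ * a⁻¹ ^ n = (a ^ (2 * n))⁻¹`), so by `md_right` the median `m` of `a ^ n * g, b ^ n * g, a⁻¹ ^ n * g` satisfies `t g m ≤ 2 * L ^ 3 + L`. `md_replace3` with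
`o = g`, the three inequalities by `far` for `u = a, b, a⁻¹` (`N (a⁻¹ ^ n) = n`). -/
theorem md_ends (hT : TreeN F N) (hF : F.Normal) {a b : G} (hab : TwoB F N a b) (g : G) (L : ℕ)
    (h1 : ∀ f ∈ F, N (g⁻¹ * f * g) ≤ L * N f) (h2 : ∀ f ∈ F, N (g * f * g⁻¹) ≤ L * N f) (f : G) (hf : f ∈ F)
    (n n' : ℕ) (h : L * (4 * L ^ 3 + 2 * L + N f) < n) (h' : L * (4 * L ^ 3 + 2 * L + N f) < n') :
    md F N (a ^ n * g) (b ^ n * g) (a⁻¹ ^ n * g) = md F N (a ^ n' * g * f) (b ^ n' * g * f) (a⁻¹ ^ n' * g * f) := by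
  have hLa : ∀ i : ℕ, Lv F 1 (a ^ i) := by
    intro i
    unfold Lv
    rw [inv_one, one_mul]
    exact F.pow_mem hab.ha i
  have hLb : ∀ i : ℕ, Lv F 1 (b ^ i) := by
    intro i
    unfold Lv
    rw [inv_one, one_mul]
    exact F.pow_mem hab.hb i
  have hLi : ∀ i : ℕ, Lv F 1 (a⁻¹ ^ i) := by
    intro i
    unfold Lv
    rw [inv_one, one_mul]
    exact F.pow_mem (F.inv_mem hab.ha) i
  have hr : ∀ w : G, Lv F 1 w → Lv F g (w * g) := by
    intro w hw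
    have h3 := lv_right hF g hw
    rwa [one_mul] at h3
  have hfr : ∀ w : G, Lv F 1 w → Lv F g (w * g * f) := by
    intro w hw
    apply lv_trans (hr w hw)
    unfold Lv
    rw [inv_mul_cancel_left]
    exact hf
  have hm := md_right hT hF g L h1 h2 (lv_trans (lv_symm (hLa n)) (hLb n)) (lv_trans (lv_symm (hLa n)) (hLi n))
  rw [b3_one hT hab n, one_mul] at hm
  have hpi : ∀ i : ℕ, N (a⁻¹ ^ i) = i := by
    intro i
    rw [inv_pow, hT.inv _ (F.pow_mem hab.ha i), hab.pa]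
  have f1 := far hT hF hab.ha hab.pa g L h1 h2 f hf n n' h h'
  have f2 := far hT hF hab.hb hab.pb g L h1 h2 f hf n n' h h'
  have f3 := far hT hF (F.inv_mem hab.ha) hpi g L h1 h2 f hf n n' h h'
  symm
  apply md_replace3 hT (hr _ (hLa n)) (hfr _ (hLa n')) (hr _ (hLb n)) (hfr _ (hLb n')) (hr _ (hLi n)) (hfr _ (hLi n'))
  · linarith
  · linarith
  · linarith

/-- (B3c, S) PROOF. As in `md_ends`. -/
theorem md_one (hT : TreeN F N) {a b : G} (hab : TwoB F N a b) (n : ℕ) : md F N (a ^ n) (b ^ n) (a⁻¹ ^ n) = 1 := by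
  exact b3_one hT hab n

end H15M
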