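import Pool.Agent.Lib.H15M.T3

/-! # H15M, chunk T4 (S/M): the median is Lipschitz -/

namespace H15M

variable {G : Type} [Group G] {F : Subgroup G} {N : G → ℕ}

/-- (T4a, S/M) PROOF. `m, m'` are both between `x` and `y`, say `t x m ≤ t x m'` (the other case is symmetric), so
`t m m' = t x m' - t x m` (`btw_lin`). `2 * t x m = t x y + t x z - t y z`, `2 * t x m' = t x y + t x z' - t y z'`, so
`2 * t m m' = (t x z' - t x z) + (t y z - t y z') ≤ 2 * t z z'`. -/
theorem md_lip3 (hT : TreeN F N) {x y z z' : G} (hy : Lv F x y) (hz : Lv F x z) (hz' : Lv F x z') :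
    t N (md F N x y z) (md F N x y z') ≤ t N z z' := by
  obtain ⟨m1, m2, m3, m4⟩ := md_spec hT hy hz
  obtain ⟨n1, n2, n3, n4⟩ := md_spec hT hy hz'
  generalize md F N x y z = m at *
  generalize md F N x y z' = m' at *
  have hyz : Lv F z z' := lv_trans (lv_symm hz) hz'
  have e1 : t N y m = t N m y := t_symm hT (lv_trans (lv_symm hy) m1)
  have e2 : t N y m' = t N m' y := t_symm hT (lv_trans (lv_symm hy) n1)
  have e3 : t N z' z = t N z z' := t_symm hT (lv_symm hyz)
  have e4 : t N m' m = t N m m' := t_symm hT (lv_trans (lv_symm n1) m1)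
  have i1 : t N x z' ≤ t N x z + t N z z' := t_tri hT hz hyz
  have i2 : t N x z ≤ t N x z' + t N z' z := t_tri hT hz' (lv_symm hyz)
  have i3 : t N y z ≤ t N y z' + t N z' z := t_tri hT (lv_trans (lv_symm hy) hz') (lv_symm hyz)
  have i4 : t N y z' ≤ t N y z + t N z z' := t_tri hT (lv_trans (lv_symm hy) hz) hyz
  rcases le_total (t N x m) (t N x m') with h | h
  · have h1 := (btw_lin hT m1 n1 hy m2 n2 h).1
    unfold Btw at *
    omega
  · have h1 := (btw_lin hT n1 m1 hy n2 m2 h).1
    unfold Btw at *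
    omega

/-- (T4b, S) PROOF. `md_lip3` three times, with `md_swap`, and `t_tri`. -/
theorem md_lip (hT : TreeN F N) {x y z x' y' z' : G} (hy : Lv F x y) (hz : Lv F x z) (hx' : Lv F x x') (hy' : Lv F x y')
    (hz' : Lv F x z') : t N (md F N x y z) (md F N x' y' z') ≤ t N x x' + t N y y' + t N z z' := by
  have a1 : t N (md F N x y z) (md F N x y z') ≤ t N z z' := md_lip3 hT hy hz hz'
  have a2 : t N (md F N x y z') (md F N x y' z') ≤ t N y y' := by
    rw [(md_swap hT hy hz').2, (md_swap hT hy' hz').2]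
    exact md_lip3 hT hz' hy hy'
  have a3 : t N (md F N x y' z') (md F N x' y' z') ≤ t N x x' := by
    have hx'y' : Lv F x' y' := lv_trans (lv_symm hx') hy'
    have hx'z' : Lv F x' z' := lv_trans (lv_symm hx') hz'
    have hyx : Lv F y' x := lv_symm hy'
    have hyx' : Lv F y' x' := lv_symm hx'y'
    have hyz' : Lv F y' z' := lv_trans hyx hz'
    rw [(md_swap hT hy' hz').1, (md_swap hT hyx hyz').2, (md_swap hT hx'y' hx'z').1, (md_swap hT hyx' hyz').2]
    exact md_lip3 hT hyz' hyx hyx'
  have l1 : Lv F x (md F N x y z) := (md_spec hT hy hz).1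
  have l2 : Lv F x (md F N x y z') := (md_spec hT hy hz').1
  have l3 : Lv F x (md F N x y' z') := (md_spec hT hy' hz').1
  have l4 : Lv F x (md F N x' y' z') :=
    lv_trans hx' (md_spec hT (lv_trans (lv_symm hx') hy') (lv_trans (lv_symm hx') hz')).1
  have b1 := t_tri hT (lv_trans (lv_symm l1) l2) (lv_trans (lv_symm l2) l3)
  have b2 := t_tri hT (lv_trans (lv_symm l1) l3) (lv_trans (lv_symm l3) l4)
  omega

end H15M
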