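import Pool.Agent.Lib.H15M.S1
import Pool.Agent.Lib.H15M.T4
import Pool.Agent.Lib.H15M.T6

/-! # H15M, chunk S3 (S/M): sections made with medians -/

namespace H15M

variable {G : Type} [Group G] {F : Subgroup G} {d : G → G → ℕ} {N : G → ℕ} {δ K : ℕ} {η : ℕ → ℕ}

/-- the constant for sections made of sections -/
def c5 (K K1 : ℕ) : ℕ := 2 * K ^ 3 + K + 3 * K1

/-- (S3a) PROOF. `md_right` with `L = K` (`hc.conj` for `s` and for `s⁻¹`). -/
theorem md_step (hc : Ctx F d N δ K η) {s : G} (hs : d 1 s ≤ 1) {x y z : G} (hy : Lv F x y) (hz : Lv F x z) :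
    t N (md F N x y z * s) (md F N (x * s) (y * s) (z * s)) ≤ 2 * K ^ 3 + K := by
  refine md_right hc.tree hc.normal s K (fun f hf => hc.conj s f hs hf) (fun f hf => ?_) hy hz
  have h := hc.conj s⁻¹ f (inv_step hc hs) hf
  rwa [inv_inv] at h

/-- (S3b) PROOF. The level and `coset`: `md_spec`. `lip`: `md_step` for `α x, β x, ζ x`, then `md_lip` (`α x * s` against `α (x * s)`
and so on). -/
theorem sec_md (hc : Ctx F d N δ K η) {K1 : ℕ} {α β ζ : G → G} (hα : Sec F d N K1 α) (hβ : Sec F d N K1 β)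
    (hζ : Sec F d N K1 ζ) : Sec F d N (c5 K K1) (fun x => md F N (α x) (β x) (ζ x)) := by
  have hT := hc.tree
  have hab : ∀ x, Lv F (α x) (β x) := fun x => lv_trans (lv_symm (hα.mem x)) (hβ.mem x)
  have haz : ∀ x, Lv F (α x) (ζ x) := fun x => lv_trans (lv_symm (hα.mem x)) (hζ.mem x)
  refine ⟨fun x => lv_trans (hα.mem x) (md_spec hT (hab x) (haz x)).1, fun x y h => ?_, fun x s hs => ?_⟩
  · show md F N (α x) (β x) (ζ x) = md F N (α y) (β y) (ζ y)
    rw [hα.coset x y h, hβ.coset x y h, hζ.coset x y h]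
  · show t N (md F N (α x) (β x) (ζ x) * s) (md F N (α (x * s)) (β (x * s)) (ζ (x * s))) ≤ c5 K K1
    have hbs : Lv F (α x * s) (β x * s) := lv_right hc.normal s (hab x)
    have hzs : Lv F (α x * s) (ζ x * s) := lv_right hc.normal s (haz x)
    have haa : Lv F (α x * s) (α (x * s)) :=
      lv_trans (lv_symm (lv_right hc.normal s (hα.mem x))) (hα.mem (x * s))
    have h1 := md_step hc hs (hab x) (haz x)
    have h2 := md_lip hT hbs hzs haa (lv_trans haa (hab (x * s))) (lv_trans haa (haz (x * s)))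
    have h3 := hα.lip x s hs
    have h4 := hβ.lip x s hs
    have h5 := hζ.lip x s hs
    have m1 : Lv F (α x * s) (md F N (α x) (β x) (ζ x) * s) :=
      lv_right hc.normal s (md_spec hT (hab x) (haz x)).1
    have m2 := (md_spec hT hbs hzs).1
    have m3 := (md_spec hT (hab (x * s)) (haz (x * s))).1
    have h6 := t_tri hT (lv_trans (lv_symm m1) m2) (lv_trans (lv_symm m2) (lv_trans haa m3))
    unfold c5
    omega

/-- (S3c) A section left of `ζ` is between. PROOF. `md_spec`. -/
theorem sec_btw (hc : Ctx F d N δ K η) {K1 : ℕ} {α β ζ : G → G} (hα : Sec F d N K1 α) (hβ : Sec F d N K1 β)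
    (hζ : Sec F d N K1 ζ) (x : G) : Btw N (α x) (md F N (α x) (β x) (ζ x)) (β x) := by
  exact (md_spec hc.tree (lv_trans (lv_symm (hα.mem x)) (hβ.mem x)) (lv_trans (lv_symm (hα.mem x)) (hζ.mem x))).2.1

/-- (S3d) The retraction to a ladder is Lipschitz. PROOF. `y = x * s` (`step_of`). `md (α x) (β x) x * s` and
`md (α x * s) (β x * s) (x * s)` have level distance at most `2 * K ^ 3 + K` (`md_step`), the latter and
`md (α y) (β y) y` at most `2 * K1` (`md_lip`, `lip`); `d_le`; and `d v (v * s) ≤ 1`. -/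
theorem ret_lip (hc : Ctx F d N δ K η) {K1 : ℕ} {α β : G → G} (hα : Sec F d N K1 α) (hβ : Sec F d N K1 β) {x y : G}
    (h : d x y ≤ 1) :
    d (md F N (α x) (β x) x) (md F N (α y) (β y) y) ≤ 1 + K * (2 * K ^ 3 + K + 2 * K1) := by
  have hT := hc.tree
  obtain ⟨s, hs, rfl⟩ := step_of hc h
  have hab : ∀ x, Lv F (α x) (β x) := fun x => lv_trans (lv_symm (hα.mem x)) (hβ.mem x)
  have hax : ∀ x, Lv F (α x) x := fun x => lv_symm (hα.mem x)
  have hbs : Lv F (α x * s) (β x * s) := lv_right hc.normal s (hab x)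
  have hxs : Lv F (α x * s) (x * s) := lv_right hc.normal s (hax x)
  have haa : Lv F (α x * s) (α (x * s)) := lv_trans hxs (hα.mem (x * s))
  have h1 := md_step hc hs (hab x) (hax x)
  have h2 := md_lip hT hbs hxs haa (lv_trans haa (hab (x * s))) (lv_trans haa (hax (x * s)))
  have h3 := hα.lip x s hs
  have h4 := hβ.lip x s hs
  have h5 := t_self hT (x * s)
  have m1 : Lv F (α x * s) (md F N (α x) (β x) x * s) := lv_right hc.normal s (md_spec hT (hab x) (hax x)).1
  have m2 := (md_spec hT hbs hxs).1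
  have m3 := (md_spec hT (hab (x * s)) (hax (x * s))).1
  have h6 := t_tri hT (lv_trans (lv_symm m1) m2) (lv_trans (lv_symm m2) (lv_trans haa m3))
  have h7 : t N (md F N (α x) (β x) x * s) (md F N (α (x * s)) (β (x * s)) (x * s)) ≤ 2 * K ^ 3 + K + 2 * K1 := by
    omega
  have h8 := d_le hc (lv_trans (lv_symm m1) (lv_trans haa m3))
  have h9 : d (md F N (α x) (β x) x) (md F N (α x) (β x) x * s) ≤ 1 := by
    have h10 := hc.left (md F N (α x) (β x) x) 1 s
    rw [mul_one] at h10
    rw [h10]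
    exact hs
  have h11 := hc.hyp.tri (md F N (α x) (β x) x) (md F N (α x) (β x) x * s)
    (md F N (α (x * s)) (β (x * s)) (x * s))
  have h12 := h8.trans (Nat.mul_le_mul_left K h7)
  omega

end H15M
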