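import Pool.Agent.Lib.H15M.B3
import Pool.Agent.Lib.H15M.S3

/-! # H15M, chunk B4 (M): sections exist -/

namespace H15M

variable {G : Type} [Group G] {F : Subgroup G} {d : G → G → ℕ} {N : G → ℕ} {δ K : ℕ} {η : ℕ → ℕ}

/-- (B4a, S) PROOF. Induction on `n = d 1 g`: a geodesic from `1` to `g` (`hc.hyp.geo`) gives `g = g' * s` with `d 1 g' = n - 1`,
`d 1 s ≤ 1`; `hc.conj`, `F` normal. -/
theorem conj_all (hc : Ctx F d N δ K η) (g f : G) (hf : f ∈ F) : N (g⁻¹ * f * g) ≤ K ^ d 1 g * N f := by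
  have key : ∀ n : ℕ, ∀ g : G, d 1 g = n → N (g⁻¹ * f * g) ≤ K ^ n * N f := by
    intro n
    induction n with
    | zero =>
      intro g hg
      obtain ⟨c, h0, h1, _⟩ := hc.hyp.geo 1 g
      rw [hg, h0] at h1
      subst h1
      simp
    | succ n ih =>
      intro g hg
      obtain ⟨c, h0, h1, h2⟩ := hc.hyp.geo 1 g
      rw [hg] at h1 h2
      have e1 : d 1 (c n) = n := by
        have := h2 0 n (Nat.zero_le _) (Nat.le_succ _)
        rwa [h0, Nat.sub_zero] at this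
      have e2 : d (c n) g = 1 := by
        have := h2 n (n + 1) (Nat.le_succ _) le_rfl
        rw [h1] at this
        omega
      have e3 : d 1 ((c n)⁻¹ * g) ≤ 1 := by
        have := hc.left (c n) 1 ((c n)⁻¹ * g)
        rw [mul_one, mul_inv_cancel_left, e2] at this
        omega
      have hm : (c n)⁻¹ * f * c n ∈ F := by
        have := hc.normal.conj_mem f hf (c n)⁻¹
        rwa [inv_inv] at this
      have e4 := hc.conj ((c n)⁻¹ * g) ((c n)⁻¹ * f * c n) e3 hm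
      have e5 : ((c n)⁻¹ * g)⁻¹ * ((c n)⁻¹ * f * c n) * ((c n)⁻¹ * g) = g⁻¹ * f * g := by group
      rw [e5] at e4
      refine e4.trans ?_
      have e6 := Nat.mul_le_mul_left K (ih (c n) e1)
      rw [← mul_assoc K (K ^ n) (N f), ← pow_succ'] at e6
      exact e6
  exact key _ g rfl

/-- (B4b, M) PROOF. For `g` put `L g = K ^ d 1 g` (`conj_all` for `g` and for `g⁻¹`; `d 1 g⁻¹ = d 1 g`), `n0 g = L g * (4 * L g ^ 3 + 2 * L g) + 1` and
`σ g = md (a ^ n0 g * g) (b ^ n0 g * g) (a⁻¹ ^ n0 g * g)`. By `md_ends` with `f = 1` (`N 1 = 0`) `σ g = md (a ^ n * g) …` for all `n ≥ n0 g`; with `f ∈ F`: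
`σ g = σ (g * f)` (take one large `n'`). `lip`: for `n` large `σ g = md (a ^ n * g) …`, `σ (g * s) = md (a ^ n * g * s) …`; `md_step`. So `σ` is a section with
the constant `2 * K ^ 3 + K`, and `σ 1 = 1` (`md_one`). Base: for `g` take `ζ x = g * σ (g⁻¹ * x)` (`t_left`, `lv_left`). -/
theorem base_exists (hc : Ctx F d N δ K η) {a b : G} (hab : TwoB F N a b) : ∃ K1 : ℕ, Base F d N K1 := by
  have hT := hc.tree
  have hF := hc.normal
  let L : G → ℕ := fun g => K ^ d 1 g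
  have h1 : ∀ g : G, ∀ f ∈ F, N (g⁻¹ * f * g) ≤ L g * N f := fun g f hf => conj_all hc g f hf
  have h2 : ∀ g : G, ∀ f ∈ F, N (g * f * g⁻¹) ≤ L g * N f := by
    intro g f hf
    have e1 := conj_all hc g⁻¹ f hf
    have e2 : d 1 g⁻¹ = d 1 g := by
      have := hc.left g 1 g⁻¹
      rw [mul_one, mul_inv_cancel] at this
      rw [← this, hc.hyp.symm]
    rw [inv_inv, e2] at e1
    exact e1
  let M : G → ℕ → G := fun g n => md F N (a ^ n * g) (b ^ n * g) (a⁻¹ ^ n * g)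
  have hM : ∀ g f : G, f ∈ F → ∀ n n' : ℕ, L g * (4 * L g ^ 3 + 2 * L g + N f) < n →
      L g * (4 * L g ^ 3 + 2 * L g + N f) < n' → M g n = M (g * f) n' := by
    intro g f hf n n' hn hn'
    have e := md_ends hT hF hab g (L g) (h1 g) (h2 g) f hf n n' hn hn'
    simp only [mul_assoc] at e
    exact e
  let n0 : G → ℕ := fun g => L g * (4 * L g ^ 3 + 2 * L g) + 1
  let σ : G → G := fun g => M g (n0 g)
  have hσ : ∀ g : G, ∀ n : ℕ, n0 g ≤ n → σ g = M g n := by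
    intro g n hn
    have e := hM g 1 F.one_mem (n0 g) n
    rw [hT.one, add_zero, mul_one] at e
    exact e (Nat.lt_succ_self _) (lt_of_lt_of_le (Nat.lt_succ_self _) hn)
  have hlv : ∀ g : G, ∀ u ∈ F, Lv F g (u * g) := by
    intro g u hu
    show g⁻¹ * (u * g) ∈ F
    have := hF.conj_mem u hu g⁻¹
    rwa [inv_inv, mul_assoc] at this
  have hna : ∀ n : ℕ, a ^ n ∈ F := fun n => F.pow_mem hab.ha n
  have hnb : ∀ n : ℕ, b ^ n ∈ F := fun n => F.pow_mem hab.hb n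
  have hni : ∀ n : ℕ, a⁻¹ ^ n ∈ F := fun n => F.pow_mem (F.inv_mem hab.ha) n
  have hmem : ∀ g : G, Lv F g (σ g) := by
    intro g
    have e1 := hlv g _ (hna (n0 g))
    have e2 := hlv g _ (hnb (n0 g))
    have e3 := hlv g _ (hni (n0 g))
    have e4 := (md_spec hT (lv_trans (lv_symm e1) e2) (lv_trans (lv_symm e1) e3)).1
    exact lv_trans e1 e4
  have hcoset : ∀ x y : G, Lv F x y → σ x = σ y := by
    intro x y hxy
    have hf : x⁻¹ * y ∈ F := hxy
    have hy : x * (x⁻¹ * y) = y := by group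
    obtain ⟨n, g1, g2, g3⟩ : ∃ n : ℕ, n0 x ≤ n ∧ n0 y ≤ n ∧
        L x * (4 * L x ^ 3 + 2 * L x + N (x⁻¹ * y)) < n :=
      ⟨n0 x + n0 y + L x * (4 * L x ^ 3 + 2 * L x + N (x⁻¹ * y)) + 1, by omega, by omega, by omega⟩
    rw [hσ x n g1, hσ y n g2, hM x (x⁻¹ * y) hf n n g3 g3, hy]
  have hlip : ∀ x s : G, d 1 s ≤ 1 → t N (σ x * s) (σ (x * s)) ≤ 2 * K ^ 3 + K := by
    intro x s hs
    obtain ⟨n, g1, g2⟩ : ∃ n : ℕ, n0 x ≤ n ∧ n0 (x * s) ≤ n := ⟨n0 x + n0 (x * s), by omega, by omega⟩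
    rw [hσ x n g1, hσ (x * s) n g2]
    have e1 := hlv x _ (hna n)
    have e2 := hlv x _ (hnb n)
    have e3 := hlv x _ (hni n)
    have e4 := md_step hc hs (lv_trans (lv_symm e1) e2) (lv_trans (lv_symm e1) e3)
    simp only [mul_assoc] at e4
    exact e4
  have hone : σ 1 = 1 := by
    show md F N (a ^ n0 1 * 1) (b ^ n0 1 * 1) (a⁻¹ ^ n0 1 * 1) = 1
    rw [mul_one, mul_one, mul_one]
    exact md_one hT hab _
  refine ⟨2 * K ^ 3 + K, fun g => ⟨fun x => g * σ (g⁻¹ * x), ⟨?_, ?_, ?_⟩, ?_⟩⟩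
  · intro x
    have e := lv_left g (hmem (g⁻¹ * x))
    rwa [mul_inv_cancel_left] at e
  · intro x y hxy
    show g * σ (g⁻¹ * x) = g * σ (g⁻¹ * y)
    rw [hcoset _ _ (lv_left g⁻¹ hxy)]
  · intro x s hs
    show t N (g * σ (g⁻¹ * x) * s) (g * σ (g⁻¹ * (x * s))) ≤ _
    rw [mul_assoc g, t_left, ← mul_assoc g⁻¹ x s]
    exact hlip _ s hs
  · show g * σ (g⁻¹ * g) = g
    rw [inv_mul_cancel, hone, mul_one]

end H15M
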