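import Pool.Agent.Lib.H15M.B2

/-! # H15M, chunk C1 (M): cocycles of a free group -/

namespace H15M

/-- every symmetric function of the oriented edges is the restriction of a cocycle -/
def CP {G : Type} [Group G] (F : Subgroup G) (N : G → ℕ) : Prop :=
  ∀ φ : G → G → ZMod 2, (∀ p a, a ∈ F → N a = 1 → φ (p * a) a⁻¹ = φ p a) → ∃ χ : G → G → ZMod 2,
    (∀ p, ∀ u ∈ F, ∀ v ∈ F, χ p (u * v) = χ p u + χ (p * u) v) ∧ (∀ p, ∀ a ∈ F, N a = 1 → χ p a = φ p a) ∧
    ∀ h, (∀ p a, φ (h * p) a = φ p a) → ∀ p, ∀ u ∈ F, χ (h * p) u = χ p u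

/-- the step of the cocycle at a letter -/
def c1_sigma {G : Type} [Group G] (φ : G → G → ZMod 2) (b : G) : Equiv.Perm (G × ZMod 2) where
  toFun x := (x.1 * b, x.2 + φ x.1 b)
  invFun x := (x.1 * b⁻¹, x.2 - φ (x.1 * b⁻¹) b)
  left_inv x := by
    ext
    · simp
    · simp
  right_inv x := by
    ext
    · simp
    · simp

/-- the permutation of a word -/
noncomputable def c1_P {G : Type} [Group G] (φ : G → G → ZMod 2) {ι : Type} (b : ι → G) (w : FreeGroup ι) :
    Equiv.Perm (G × ZMod 2) :=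
  (FreeGroup.lift (fun i => MulOpposite.op (c1_sigma φ (b i))) w).unop

theorem c1_P_one {G : Type} [Group G] (φ : G → G → ZMod 2) {ι : Type} (b : ι → G) (x : G × ZMod 2) :
    c1_P φ b 1 x = x := by
  simp [c1_P]

theorem c1_P_of {G : Type} [Group G] (φ : G → G → ZMod 2) {ι : Type} (b : ι → G) (i : ι) (x : G × ZMod 2) :
    c1_P φ b (FreeGroup.of i) x = (x.1 * b i, x.2 + φ x.1 (b i)) := by
  simp [c1_P, c1_sigma]

theorem c1_P_inv {G : Type} [Group G] (φ : G → G → ZMod 2) {ι : Type} (b : ι → G) (i : ι) (x : G × ZMod 2) :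
    c1_P φ b (FreeGroup.of i)⁻¹ x = (x.1 * (b i)⁻¹, x.2 - φ (x.1 * (b i)⁻¹) (b i)) := by
  simp only [c1_P, map_inv, FreeGroup.lift_apply_of, MulOpposite.unop_inv, MulOpposite.unop_op]
  rfl

theorem c1_P_mul {G : Type} [Group G] (φ : G → G → ZMod 2) {ι : Type} (b : ι → G) (v w : FreeGroup ι) (x : G × ZMod 2) :
    c1_P φ b (v * w) x = c1_P φ b w (c1_P φ b v x) := by
  simp [c1_P]

/-- the cocycle on words -/
noncomputable def c1_chi {G : Type} [Group G] (φ : G → G → ZMod 2) {ι : Type} (b : ι → G) (p : G) (w : FreeGroup ι) :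
    ZMod 2 := (c1_P φ b w (p, 0)).2

theorem c1_form {G : Type} [Group G] (F : Subgroup G) {ι : Type} (e : FreeGroup ι ≃* F) (φ : G → G → ZMod 2)
    (w : FreeGroup ι) : ∀ (p : G) (s : ZMod 2), c1_P φ (fun i => (e (FreeGroup.of i) : G)) w (p, s) =
      (p * (e w : G), s + c1_chi φ (fun i => (e (FreeGroup.of i) : G)) p w) := by
  induction w using FreeGroup.induction_on with
  | C1 =>
    intro p s
    simp [c1_chi, c1_P_one]
  | of i =>
    intro p s
    simp only [c1_chi]
    erw [c1_P_of, c1_P_of]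
    simp
  | inv_of i _ =>
    intro p s
    simp only [c1_chi]
    erw [c1_P_inv, c1_P_inv]
    simp [sub_eq_add_neg]
  | mul v w hv hw =>
    intro p s
    have hx : c1_chi φ (fun i => (e (FreeGroup.of i) : G)) p (v * w) =
        c1_chi φ (fun i => (e (FreeGroup.of i) : G)) p v +
        c1_chi φ (fun i => (e (FreeGroup.of i) : G)) (p * (e v : G)) w := by
      conv_lhs => rw [c1_chi, c1_P_mul, hv, hw]
      simp
    rw [c1_P_mul, hv, hw, hx, map_mul, Subgroup.coe_mul, mul_assoc, add_assoc]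

theorem c1_chi_mul {G : Type} [Group G] (F : Subgroup G) {ι : Type} (e : FreeGroup ι ≃* F) (φ : G → G → ZMod 2)
    (v w : FreeGroup ι) (p : G) : c1_chi φ (fun i => (e (FreeGroup.of i) : G)) p (v * w) =
      c1_chi φ (fun i => (e (FreeGroup.of i) : G)) p v +
        c1_chi φ (fun i => (e (FreeGroup.of i) : G)) (p * (e v : G)) w := by
  conv_lhs => rw [c1_chi, c1_P_mul, c1_form F e, c1_form F e]
  simp

theorem c1_inv {G : Type} [Group G] (F : Subgroup G) {ι : Type} (e : FreeGroup ι ≃* F) (φ : G → G → ZMod 2)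
    (h : G) (hh : ∀ p a, φ (h * p) a = φ p a) (w : FreeGroup ι) : ∀ p : G,
      c1_chi φ (fun i => (e (FreeGroup.of i) : G)) (h * p) w = c1_chi φ (fun i => (e (FreeGroup.of i) : G)) p w := by
  induction w using FreeGroup.induction_on with
  | C1 =>
    intro p
    simp [c1_chi, c1_P_one]
  | of i =>
    intro p
    simp only [c1_chi]
    erw [c1_P_of, c1_P_of]
    simp [hh]
  | inv_of i _ =>
    intro p
    simp only [c1_chi]
    erw [c1_P_inv, c1_P_inv]
    simp [mul_assoc, hh]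
  | mul v w hv hw =>
    intro p
    rw [c1_chi_mul, c1_chi_mul, hv, mul_assoc, hw]

theorem c1_norm_one {ι : Type} [DecidableEq ι] (w : FreeGroup ι) (hw : w.norm = 1) :
    ∃ i, w = FreeGroup.of i ∨ w = (FreeGroup.of i)⁻¹ := by
  have h1 : w.toWord.length = 1 := hw
  obtain ⟨⟨i, c⟩, hx⟩ := List.length_eq_one_iff.mp h1
  refine ⟨i, ?_⟩
  have h2 : w = FreeGroup.mk [(i, c)] := by rw [← hx, FreeGroup.mk_toWord]
  cases c
  · right
    rw [h2, FreeGroup.of, FreeGroup.inv_mk]
    rfl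
  · left
    rw [h2]
    rfl

/-- (C1, M) PROOF. For `i : ι` let `b i = e (of i)` and `σ i` the permutation `(p, s) ↦ (p * b i, s + φ p (b i))` of `G × ZMod 2` (inverse
`(p, s) ↦ (p * (b i)⁻¹, s - φ (p * (b i)⁻¹) (b i))`). `Ψ = FreeGroup.lift (fun i => MulOpposite.op (σ i)) : FreeGroup ι →* (Equiv.Perm (G × ZMod 2))ᵐᵒᵖ`. By induction
(`FreeGroup.induction_on`) `(Ψ w).unop (p, s) = (p * e w, s + χ p w)` with `χ p w = ((Ψ w).unop (p, 0)).2`; `χ` is additive because `Ψ (w * w')` acts first by `w` and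
then by `w'`. An element of norm `1` is `b i` or `(b i)⁻¹` (`norm = 1`: `toWord` is a list with one element), `χ p (b i) = φ p (b i)` and
`χ p (b i)⁻¹ = - φ (p * (b i)⁻¹) (b i) = φ p (b i)⁻¹` (`-x = x` in `ZMod 2`; the hypothesis on `φ` for `p * (b i)⁻¹` and `a = b i`). Invariance: the map `(p, s) ↦ (h * p, s)` commutes with
all `σ i`, so with all `Ψ w`; or induction on `w`. For `u ∈ F` use `w = e.symm ⟨u, _⟩`, and `χ p u = 0` for `u ∉ F`. -/
theorem cocycle {G : Type} [Group G] (F : Subgroup G) {ι : Type} (e : FreeGroup ι ≃* F) : CP F (nrm F e) := by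
  classical
  intro φ hφ
  refine ⟨fun p u => if h : u ∈ F then c1_chi φ (fun i => (e (FreeGroup.of i) : G)) p (e.symm ⟨u, h⟩) else 0,
    ?_, ?_, ?_⟩
  · intro p u hu v hv
    have huv : u * v ∈ F := F.mul_mem hu hv
    simp only [dif_pos hu, dif_pos hv, dif_pos huv]
    have h1 : (⟨u * v, huv⟩ : F) = ⟨u, hu⟩ * ⟨v, hv⟩ := rfl
    rw [h1, map_mul, c1_chi_mul, MulEquiv.apply_symm_apply]
  · intro p a ha hN
    simp only [dif_pos ha]
    have hN1 : (e.symm ⟨a, ha⟩).norm = 1 := by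
      rw [nrm, dif_pos ha] at hN
      exact hN
    have hone : ∀ i : ι, nrm F e (e (FreeGroup.of i) : G) = 1 := by
      intro i
      have hm : (e (FreeGroup.of i) : G) ∈ F := (e (FreeGroup.of i)).2
      rw [nrm, dif_pos hm]
      have h3 : (⟨(e (FreeGroup.of i) : G), hm⟩ : F) = e (FreeGroup.of i) := rfl
      rw [h3, MulEquiv.symm_apply_apply]
      exact FreeGroup.norm_of i
    obtain ⟨i, hi | hi⟩ := c1_norm_one _ hN1
    · have ha2 : a = (e (FreeGroup.of i) : G) := by
        rw [← hi, MulEquiv.apply_symm_apply]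
      rw [hi, c1_chi, c1_P_of, ha2]
      simp
    · have ha2 : a = (e (FreeGroup.of i) : G)⁻¹ := by
        have h4 : (⟨a, ha⟩ : F) = e (FreeGroup.of i)⁻¹ := by
          rw [← hi, MulEquiv.apply_symm_apply]
        have h5 : a = ((e (FreeGroup.of i)⁻¹ : F) : G) := congrArg Subtype.val h4
        rw [h5, map_inv, Subgroup.coe_inv]
      have h6 := hφ (p * (e (FreeGroup.of i) : G)⁻¹) (e (FreeGroup.of i) : G) (e (FreeGroup.of i)).2 (hone i)
      rw [inv_mul_cancel_right] at h6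
      rw [hi, c1_chi, c1_P_inv, ha2, h6]
      simp only [zero_sub]
      exact ZMod.neg_eq_self_mod_two _
  · intro h hh p u hu
    simp only [dif_pos hu]
    exact c1_inv F e φ h hh _ p

end H15M
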