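import Pool.Agent.Lib.H15M.CDefs

/-! # H15M, chunk C2 (S/M, 3 short): cosets and edges -/

namespace H15M

open Finset Classical

variable {G : Type} [Group G] {F : Subgroup G} {N : G → ℕ}

/-- (C2a, S, 5 short) PROOF. `col H x = col H y ↔ y * x⁻¹ ∈ H` (`QuotientGroup.rightRel_apply`), so `col H (h * x) = col H x`, and `col H x = col H y` implies
`col H (x * a) = col H (y * a)`. -/
theorem col_eq (H : Subgroup G) (x y : G) : (col H x = col H y ↔ y * x⁻¹ ∈ H) ∧ (∀ h ∈ H, col H (h * x) = col H x) ∧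
    (col H x = col H y → ∀ a, col H (x * a) = col H (y * a)) := by
  have key : ∀ x y : G, col H x = col H y ↔ y * x⁻¹ ∈ H := by
    intro x y
    unfold col
    rw [Quotient.eq'', QuotientGroup.rightRel_apply]
  refine ⟨key x y, fun h hh => ?_, fun h a => ?_⟩
  · rw [key]
    have h1 : x * (h * x)⁻¹ = h⁻¹ := by group
    rw [h1]
    exact H.inv_mem hh
  · rw [key] at h ⊢
    have h1 : y * a * (x * a)⁻¹ = y * x⁻¹ := by group
    rwa [h1]

theorem c2_lab (c : ℕ → G) (i : ℕ) : c i * lab c i = c (i + 1) := by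
  unfold lab
  group

theorem c2_lab' (c : ℕ → G) (i : ℕ) : c (i + 1) * (lab c i)⁻¹ = c i := by
  unfold lab
  group

/-- (C2b, S) PROOF. `Geo` for `i, i + 1` and for `i, i + 2`. -/
theorem lab_facts (hT : TreeN F N) {c : ℕ → G} {n : ℕ} (hc : Geo F N c n) (i : ℕ) (hi : i < n) :
    lab c i ∈ F ∧ N (lab c i) = 1 ∧ c (i + 1) = c i * lab c i ∧ (i + 1 < n → lab c (i + 1) ≠ (lab c i)⁻¹) := by
  obtain ⟨h1, h2⟩ := hc i (i + 1) (by omega) (by omega)
  refine ⟨h1, ?_, (c2_lab c i).symm, fun hi2 h => ?_⟩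
  · have h3 : N (lab c i) = i + 1 - i := h2
    omega
  · obtain ⟨_, h4⟩ := hc i (i + 2) (by omega) (by omega)
    have h5 : (c i)⁻¹ * c (i + 2) = 1 := by
      have h6 := c2_lab c (i + 1)
      rw [h, c2_lab'] at h6
      rw [← h6]
      group
    unfold t at h4
    rw [h5, hT.one] at h4
    omega

/-- (C2c, S) PROOF. `Oe` is closed under reversal; monotone. -/
theorem Oe_facts (H : Subgroup G) (c : ℕ → G) : (∀ n m, n ≤ m → Oe H c n ⊆ Oe H c m) ∧
    (∀ n (x a : G), (col H x, a) ∈ Oe H c n → (col H (x * a), a⁻¹) ∈ Oe H c n) ∧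
    (∀ n i, i < n → (col H (c i), lab c i) ∈ Oe H c n ∧ (col H (c (i + 1)), (lab c i)⁻¹) ∈ Oe H c n) := by
  refine ⟨fun n m h => ?_, fun n x a h => ?_, fun n i hi => ?_⟩
  · unfold Oe
    exact union_subset_union (image_subset_image (range_subset_range.2 h)) (image_subset_image (range_subset_range.2 h))
  · unfold Oe at h ⊢
    rw [mem_union, mem_image, mem_image] at h ⊢
    rcases h with ⟨k, hk, he⟩ | ⟨k, hk, he⟩
    · obtain ⟨h1, h2⟩ := Prod.mk.inj he
      refine Or.inr ⟨k, hk, Prod.ext ?_ ?_⟩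
      · show col H (c (k + 1)) = col H (x * a)
        rw [← (col_eq H (c k) x).2.2 h1 a, ← h2, c2_lab]
      · show (lab c k)⁻¹ = a⁻¹
        rw [h2]
    · obtain ⟨h1, h2⟩ := Prod.mk.inj he
      refine Or.inl ⟨k, hk, Prod.ext ?_ ?_⟩
      · show col H (c k) = col H (x * a)
        rw [← (col_eq H (c (k + 1)) x).2.2 h1 a, ← h2, c2_lab']
      · show lab c k = a⁻¹
        rw [← h2, inv_inv]
  · unfold Oe
    rw [mem_union, mem_union, mem_image, mem_image, mem_image, mem_image]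
    exact ⟨Or.inl ⟨i, mem_range.2 hi, rfl⟩, Or.inr ⟨i, mem_range.2 hi, rfl⟩⟩

end H15M
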