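import Pool.Agent.Lib.H15M.C2

/-! # H15M, chunk C2D (M/L): the cycle rank -/

namespace H15M

open Finset Classical

variable {G : Type} [Group G] {F : Subgroup G} {N : G → ℕ}

/-- the indicator of an edge -/
noncomputable def c2d_f (H : Subgroup G) (ε : Quotient (QuotientGroup.rightRel H) × G) (p a : G) : ZMod 2 :=
  if (col H p, a) = ε ∨ (col H (p * a), a⁻¹) = ε then 1 else 0

theorem c2d_symm (H : Subgroup G) (ε : Quotient (QuotientGroup.rightRel H) × G) (p a : G) :
    c2d_f H ε (p * a) a⁻¹ = c2d_f H ε p a := by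
  unfold c2d_f
  rw [mul_inv_cancel_right, inv_inv]
  simp only [or_comm]

theorem c2d_inv (H : Subgroup G) (ε : Quotient (QuotientGroup.rightRel H) × G) {h : G} (hh : h ∈ H) (p a : G) :
    c2d_f H ε (h * p) a = c2d_f H ε p a := by
  unfold c2d_f
  rw [mul_assoc, (col_eq H p p).2.1 h hh, (col_eq H (p * a) (p * a)).2.1 h hh]

theorem c2d_one {χ : G → G → ZMod 2} (h : ∀ p, ∀ u ∈ F, ∀ v ∈ F, χ p (u * v) = χ p u + χ (p * u) v) (p : G) :
    χ p 1 = 0 := by
  have h1 := h p 1 F.one_mem 1 F.one_mem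
  rw [mul_one, mul_one] at h1
  linear_combination -h1

theorem c2d_sum (hT : TreeN F N) {χ : G → G → ZMod 2}
    (h : ∀ p, ∀ u ∈ F, ∀ v ∈ F, χ p (u * v) = χ p u + χ (p * u) v) {c : ℕ → G} {n : ℕ} (hc : Geo F N c n) {k l : ℕ}
    (hkl : k ≤ l) (hl : l ≤ n) : χ (c k) ((c k)⁻¹ * c l) = ∑ j ∈ Ico k l, χ (c j) (lab c j) := by
  induction l, hkl using Nat.le_induction with
  | base =>
    rw [inv_mul_cancel, c2d_one h, Ico_self, sum_empty]
  | succ l hkl ih =>
    have h1 : (c k)⁻¹ * c l ∈ F := (hc k l hkl (by omega)).1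
    obtain ⟨h2, -, h3, -⟩ := lab_facts hT hc l (by omega)
    have e : (c k)⁻¹ * c (l + 1) = ((c k)⁻¹ * c l) * lab c l := by rw [mul_assoc, ← h3]
    rw [e, h _ _ h1 _ h2, mul_inv_cancel_left, ih (by omega), Finset.sum_Ico_succ_top hkl]

/-- (C2d, M/L) PROOF. For `i ∈ Cl` let `ε i = (col (c i), lab c i)` and `φ i p a = 1` if `(col p, a) = ε i` or `(col (p * a), a⁻¹) = ε i`, otherwise `0`. It is symmetric and invariant under left
multiplication of `p` by elements of `H`. `χ i` from `hCP`. `ψ i h = χ i (c 0) ((c 0)⁻¹ * h * c 0)` is additive on `H` (`F` is normal), and `ψ i h = χ i v (v⁻¹ * h * v)` for all `v` in the level of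
`c 0` (cocycle and invariance, `ZMod 2`). For `i ∈ Cl` choose `k ≤ i` with `col (c k) = col (c (i + 1))` and `h i = c (i + 1) * (c k)⁻¹ ∈ H`: `ψ i' (h i) = χ i' (c k) ((c k)⁻¹ * c (i + 1))
= ∑_{l = k}^{i} χ i' (c l) (lab c l) = ∑_{l = k}^{i} φ i' (c l) (lab c l)`. For `i' = i` the term `l = i` is `1` and the terms `l < i` are `0` because `ε i ∉ Oe i` (and `Oe` is closed under
reversal): `ψ i (h i) = 1`. For `i' > i`, `i' ∈ Cl`: all terms are `0` because `ε i' ∉ Oe i'` contains no edge of the steps `≤ i`: `ψ i' (h i) = 0`. So the functions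
`T → ZMod 2`, `g ↦ ψ i g` for `i ∈ Cl` are linearly independent: if `∑_{i ∈ I} ψ i = 0` on `T` with `I` not empty, then on `H` (closure of `T`, additive), and the value at `h (min I)` is
`1`. So `Cl.card ≤ finrank (T → ZMod 2) = T.card` (`LinearIndependent.fintype_card_le_finrank` or similar; or: the `2 ^ Cl.card` sums over subsets are different functions on `T`). -/
theorem closing_le (hT : TreeN F N) (hF : F.Normal) (hCP : CP F N) {H : Subgroup G} (hH : H ≤ F) (T : Finset G)
    (hTH : Subgroup.closure (T : Set G) = H) {c : ℕ → G} {n : ℕ} (hc : Geo F N c n) : (Cl H c n).card ≤ T.card := by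
  have hχ : ∀ i : ℕ, ∃ χ : G → G → ZMod 2, (∀ p, ∀ u ∈ F, ∀ v ∈ F, χ p (u * v) = χ p u + χ (p * u) v) ∧
      (∀ p, ∀ a ∈ F, N a = 1 → χ p a = c2d_f H (col H (c i), lab c i) p a) ∧
      ∀ h ∈ H, ∀ p, ∀ u ∈ F, χ (h * p) u = χ p u := fun i => by
    obtain ⟨χ, h1, h2, h3⟩ := hCP (c2d_f H (col H (c i), lab c i)) (fun p a _ _ => c2d_symm H _ p a)
    exact ⟨χ, h1, h2, fun h hh p u hu => h3 h (fun p a => c2d_inv H _ hh p a) p u hu⟩
  choose χ h1 h2 h3 using hχ
  obtain ⟨ψ, hψ⟩ : ∃ ψ : ℕ → G → ZMod 2, ∀ i h, ψ i h = χ i (c 0) ((c 0)⁻¹ * h * c 0) := ⟨_, fun _ _ => rfl⟩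
  have conjF : ∀ v : G, ∀ h ∈ H, v⁻¹ * h * v ∈ F := fun v h hh => by
    have h4 := hF.conj_mem h (hH hh) v⁻¹
    rwa [inv_inv] at h4
  have ψadd : ∀ i, ∀ h ∈ H, ∀ h' ∈ H, ψ i (h * h') = ψ i h + ψ i h' := by
    intro i h hh h' hh'
    have e : (c 0)⁻¹ * (h * h') * c 0 = ((c 0)⁻¹ * h * c 0) * ((c 0)⁻¹ * h' * c 0) := by group
    have e2 : c 0 * ((c 0)⁻¹ * h * c 0) = h * c 0 := by group
    rw [hψ, hψ, hψ, e, h1 i _ _ (conjF _ h hh) _ (conjF _ h' hh'), e2, h3 i h hh _ _ (conjF _ h' hh')]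
  have ψone : ∀ i, ψ i 1 = 0 := by
    intro i
    rw [hψ, mul_one, inv_mul_cancel]
    exact c2d_one (h1 i) _
  have ψlev : ∀ i, ∀ h ∈ H, ∀ v, Lv F (c 0) v → ψ i h = χ i v (v⁻¹ * h * v) := by
    intro i h hh v hv
    have hv' : (c 0)⁻¹ * v ∈ F := hv
    have k1 := h1 i (c 0) _ hv' _ (conjF v h hh)
    have k2 := h1 i (c 0) _ (conjF (c 0) h hh) _ hv'
    have e1 : ((c 0)⁻¹ * v) * (v⁻¹ * h * v) = ((c 0)⁻¹ * h * c 0) * ((c 0)⁻¹ * v) := by group
    have e2 : c 0 * ((c 0)⁻¹ * v) = v := by group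
    have e3 : c 0 * ((c 0)⁻¹ * h * c 0) = h * c 0 := by group
    rw [e1, e2] at k1
    rw [e3, h3 i h hh _ _ hv', ← hψ] at k2
    rw [k2] at k1
    linear_combination k1
  have hval : ∀ i ∈ Cl H c n, ∃ h ∈ H, ψ i h = 1 ∧ ∀ i' ∈ Cl H c n, i < i' → ψ i' h = 0 := by
    intro i hi
    unfold Cl at hi
    rw [mem_filter, mem_range] at hi
    obtain ⟨hin, hnew, hold⟩ := hi
    unfold Vs at hold
    rw [mem_image] at hold
    obtain ⟨k, hk, hke⟩ := hold
    rw [mem_range] at hk
    have hh : c (i + 1) * (c k)⁻¹ ∈ H := ((col_eq H (c k) (c (i + 1))).1).1 hke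
    have hlev : Lv F (c 0) (c k) := (hc 0 k (Nat.zero_le _) (by omega)).1
    have hform : ∀ i', ψ i' (c (i + 1) * (c k)⁻¹) = ∑ l ∈ Ico k (i + 1), c2d_f H (col H (c i'), lab c i') (c l) (lab c l) := by
      intro i'
      rw [ψlev i' _ hh (c k) hlev]
      have e : (c k)⁻¹ * (c (i + 1) * (c k)⁻¹) * c k = (c k)⁻¹ * c (i + 1) := by group
      rw [e, c2d_sum hT (h1 i') hc (by omega) (by omega)]
      refine sum_congr rfl fun l hl => ?_
      rw [mem_Ico] at hl
      obtain ⟨f1, f2, -, -⟩ := lab_facts hT hc l (by omega)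
      exact h2 i' _ _ f1 f2
    have hzero : ∀ i' l, l < i' → l < n → (col H (c i'), lab c i') ∉ Oe H c i' → c2d_f H (col H (c i'), lab c i') (c l) (lab c l) = 0 := by
      intro i' l hl hln hno
      obtain ⟨g1, g2⟩ := (Oe_facts H c).2.2 i' l hl
      obtain ⟨-, -, f3, -⟩ := lab_facts hT hc l hln
      unfold c2d_f
      rw [if_neg]
      rintro (h4 | h4)
      · rw [h4] at g1
        exact hno g1
      · rw [← f3] at h4
        rw [h4] at g2
        exact hno g2
    refine ⟨c (i + 1) * (c k)⁻¹, hh, ?_, ?_⟩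
    · rw [hform, Finset.sum_Ico_succ_top (by omega), sum_eq_zero, zero_add]
      · unfold c2d_f
        rw [if_pos (Or.inl rfl)]
      · intro l hl
        rw [mem_Ico] at hl
        exact hzero i l hl.2 (by omega) hnew
    · intro i' hi' hii'
      unfold Cl at hi'
      rw [mem_filter, mem_range] at hi'
      rw [hform]
      refine sum_eq_zero fun l hl => ?_
      rw [mem_Ico] at hl
      exact hzero i' l (by omega) (by omega) hi'.2.1
  -- linear independence
  have hlin : LinearIndependent (ZMod 2) (fun i : ↥(Cl H c n) => fun g : ↥T => ψ i g) := by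
    rw [Fintype.linearIndependent_iff]
    intro g hg
    have hS : ∀ h ∈ H, ∑ i : ↥(Cl H c n), g i * ψ i h = 0 := by
      intro h hh
      rw [← hTH] at hh
      induction hh using Subgroup.closure_induction with
      | mem x hx =>
        have k := congrFun hg ⟨x, hx⟩
        rw [Finset.sum_apply] at k
        exact k
      | one => exact sum_eq_zero fun i _ => by rw [ψone, mul_zero]
      | mul x y hx hy ihx ihy =>
        rw [hTH] at hx hy
        have e : ∑ i : ↥(Cl H c n), g i * ψ i (x * y) = ∑ i : ↥(Cl H c n), g i * ψ i x + ∑ i : ↥(Cl H c n), g i * ψ i y := by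
          rw [← sum_add_distrib]
          exact sum_congr rfl fun i _ => by rw [ψadd i x hx y hy, mul_add]
        rw [e, ihx, ihy, add_zero]
      | inv x hx ihx =>
        rw [hTH] at hx
        have e : ∑ i : ↥(Cl H c n), g i * ψ i x⁻¹ = -∑ i : ↥(Cl H c n), g i * ψ i x := by
          rw [← sum_neg_distrib]
          refine sum_congr rfl fun i _ => ?_
          have k := ψadd i x hx x⁻¹ (inv_mem hx)
          rw [mul_inv_cancel, ψone] at k
          linear_combination -(g i) * k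
        rw [e, ihx, neg_zero]
    have key : ∀ m : ℕ, ∀ i : ↥(Cl H c n), (i : ℕ) = m → g i = 0 := by
      intro m
      induction m using Nat.strong_induction_on with
      | _ m ih =>
        intro i him
        obtain ⟨h, hh, k1, k2⟩ := hval i i.2
        have k3 := hS h hh
        rw [Finset.sum_eq_single i] at k3
        · rw [k1, mul_one] at k3
          exact k3
        · intro i' _ hne
          have hne' : (i' : ℕ) ≠ i := fun h4 => hne (Subtype.ext h4)
          rcases lt_or_gt_of_ne hne' with hlt | hgt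
          · rw [ih (i' : ℕ) (by omega) i' rfl, zero_mul]
          · rw [k2 i' i'.2 hgt, mul_zero]
        · intro h4
          exact absurd (mem_univ i) h4
    intro i
    exact key i i rfl
  have hcard := hlin.fintype_card_le_finrank
  rw [Module.finrank_pi, Fintype.card_coe, Fintype.card_coe] at hcard
  exact hcard

end H15M
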