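import Pool.Agent.Lib.H15M.C2

/-! # H15M, chunk C3 (M): number of edges -/

namespace H15M

open Finset Classical

variable {G : Type} [Group G] {F : Subgroup G} {N : G → ℕ}

theorem c3_lab (c : ℕ → G) (i : ℕ) : c i * lab c i = c (i + 1) := by
  unfold lab
  rw [mul_inv_cancel_left]

theorem c3_Oe (H : Subgroup G) (c : ℕ → G) (n : ℕ) : Oe H c (n + 1) =
    insert (col H (c n), lab c n) (insert (col H (c (n + 1)), (lab c n)⁻¹) (Oe H c n)) := by
  unfold Oe
  rw [Finset.range_add_one, Finset.image_insert, Finset.image_insert]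
  ext ε
  simp only [Finset.mem_union, Finset.mem_insert]
  tauto

theorem c3_Vs (H : Subgroup G) (c : ℕ → G) (n : ℕ) : Vs H c (n + 1) = insert (col H (c (n + 1))) (Vs H c n) := by
  unfold Vs
  rw [Finset.range_add_one (n := n + 1), Finset.image_insert]

theorem c3_Cl (H : Subgroup G) (c : ℕ → G) (n : ℕ) : Cl H c n ⊆ Cl H c (n + 1) := by
  unfold Cl
  exact Finset.filter_subset_filter _ (Finset.range_subset_range.2 (Nat.le_succ n))

theorem c3_ClN (H : Subgroup G) (c : ℕ → G) (n : ℕ) (h1 : (col H (c n), lab c n) ∉ Oe H c n) (h2 : col H (c (n + 1)) ∈ Vs H c n) :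
    (Cl H c n).card + 1 ≤ (Cl H c (n + 1)).card := by
  have h3 : n ∉ Cl H c n := by
    unfold Cl
    rw [Finset.mem_filter, Finset.mem_range]
    intro h
    omega
  rw [← Finset.card_insert_of_notMem h3]
  refine Finset.card_le_card (Finset.insert_subset ?_ (c3_Cl H c n))
  unfold Cl
  rw [Finset.mem_filter, Finset.mem_range]
  exact ⟨by omega, h1, h2⟩

/-- (C3a, S/M) PROOF. Induction on `n` (for all prefixes). `n = 0`: `Oe` is empty, `Vs` has one element, `Cl` is empty. Step: if `(col (c n), lab c n) ∈ Oe n` then also the reversed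
edge, `Oe (n + 1) = Oe n`, `Vs (n + 1) = Vs n` or the left side is unchanged anyway. Otherwise `Oe` grows by at most two elements, and either `col (c (n + 1))` is new (`Vs` grows) or
`n ∈ Cl (n + 1)`. -/
theorem card_Oe (H : Subgroup G) (c : ℕ → G) (n : ℕ) : (Oe H c n).card + 2 ≤ 2 * ((Vs H c n).card + (Cl H c n).card) := by
  induction n with
  | zero =>
    have h1 : Oe H c 0 = ∅ := by
      unfold Oe
      simp
    have h2 : Vs H c 0 = {col H (c 0)} := by
      unfold Vs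
      simp
    rw [h1, h2, Finset.card_empty, Finset.card_singleton]
    omega
  | succ n ih =>
    have hV : Vs H c n ⊆ Vs H c (n + 1) := by
      rw [c3_Vs]
      exact Finset.subset_insert _ _
    have hVc := Finset.card_le_card hV
    have hCc := Finset.card_le_card (c3_Cl H c n)
    by_cases he : (col H (c n), lab c n) ∈ Oe H c n
    · have he' : (col H (c (n + 1)), (lab c n)⁻¹) ∈ Oe H c n := by
        have h1 := (Oe_facts H c).2.1 n (c n) (lab c n) he
        rwa [c3_lab] at h1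
      have h1 : Oe H c (n + 1) = Oe H c n := by
        rw [c3_Oe, Finset.insert_eq_of_mem he', Finset.insert_eq_of_mem he]
      rw [h1]
      omega
    · have h1 : (Oe H c (n + 1)).card ≤ (Oe H c n).card + 2 := by
        rw [c3_Oe]
        have h2 := Finset.card_insert_le (col H (c n), lab c n) (insert (col H (c (n + 1)), (lab c n)⁻¹) (Oe H c n))
        have h3 := Finset.card_insert_le (col H (c (n + 1)), (lab c n)⁻¹) (Oe H c n)
        omega
      by_cases hv : col H (c (n + 1)) ∈ Vs H c n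
      · have h2 := c3_ClN H c n he hv
        omega
      · have h2 : (Vs H c (n + 1)).card = (Vs H c n).card + 1 := by
          rw [c3_Vs, Finset.card_insert_of_notMem hv]
        omega

theorem c3_mem (H : Subgroup G) (c : ℕ → G) (n : ℕ) {ε : Quotient (QuotientGroup.rightRel H) × G} (h : ε ∈ Oe H c n) : ε.1 ∈ Vs H c n := by
  unfold Oe at h
  unfold Vs
  rw [Finset.mem_union, Finset.mem_image, Finset.mem_image] at h
  rw [Finset.mem_image]
  rcases h with ⟨k, hk, h1⟩ | ⟨k, hk, h1⟩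
  · rw [Finset.mem_range] at hk
    exact ⟨k, Finset.mem_range.2 (by omega), by rw [← h1]⟩
  · rw [Finset.mem_range] at hk
    exact ⟨k + 1, Finset.mem_range.2 (by omega), by rw [← h1]⟩

theorem c3_two (hT : TreeN F N) {H : Subgroup G} {c : ℕ → G} {n : ℕ} (hc : Geo F N c n) {κ : Quotient (QuotientGroup.rightRel H)} (hκ : κ ∈ Vs H c n)
    (h0 : κ ≠ col H (c 0)) (hn : κ ≠ col H (c n)) : 2 ≤ dg H c n κ := by
  unfold Vs at hκ
  rw [Finset.mem_image] at hκ
  obtain ⟨k, hk, hκ⟩ := hκ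
  rw [Finset.mem_range] at hk
  have hk0 : k ≠ 0 := by
    intro h
    rw [h] at hκ
    exact h0 hκ.symm
  have hkn : k ≠ n := by
    intro h
    rw [h] at hκ
    exact hn hκ.symm
  obtain ⟨j, rfl⟩ : ∃ j, k = j + 1 := ⟨k - 1, by omega⟩
  have h1 := ((Oe_facts H c).2.2 n (j + 1) (by omega)).1
  have h2 := ((Oe_facts H c).2.2 n j (by omega)).2
  have h3 := (lab_facts hT hc j (by omega)).2.2.2 (by omega)
  unfold dg
  refine Finset.one_lt_card.2 ⟨(col H (c (j + 1)), lab c (j + 1)), Finset.mem_filter.2 ⟨h1, hκ⟩, (col H (c (j + 1)), (lab c j)⁻¹), Finset.mem_filter.2 ⟨h2, hκ⟩, ?_⟩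
  intro h
  exact h3 (Prod.ext_iff.1 h).2

theorem c3_one {H : Subgroup G} {c : ℕ → G} {n : ℕ} (hn : 1 ≤ n) {κ : Quotient (QuotientGroup.rightRel H)} (h : κ = col H (c 0) ∨ κ = col H (c n)) :
    1 ≤ dg H c n κ := by
  unfold dg
  rw [Nat.one_le_iff_ne_zero, Ne, Finset.card_eq_zero, ← Ne, ← Finset.nonempty_iff_ne_empty]
  rcases h with h | h
  · exact ⟨(col H (c 0), lab c 0), Finset.mem_filter.2 ⟨((Oe_facts H c).2.2 n 0 (by omega)).1, h.symm⟩⟩
  · obtain ⟨j, rfl⟩ : ∃ j, n = j + 1 := ⟨n - 1, by omega⟩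
    exact ⟨(col H (c (j + 1)), (lab c j)⁻¹), Finset.mem_filter.2 ⟨((Oe_facts H c).2.2 (j + 1) j (by omega)).2, h.symm⟩⟩

/-- (C3b, M) PROOF. `b = (Cl).card`, `V = (Vs).card`. `∑_{κ ∈ Vs} dg κ = |Oe| ≤ 2 * V + 2 * b - 2` (`card_eq_sum_card_fiberwise`, the first coordinates are in `Vs`). For
`κ ∈ Vs` different from `col (c 0)`, `col (c n)`: `κ = col (c k)` with `0 < k < n`, the edges `(κ, lab c k)` and `(κ, (lab c (k - 1))⁻¹)` are different (`lab_facts`), so `2 ≤ dg κ`. For the two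
ends `1 ≤ dg` (`1 ≤ n`). Let `B = {κ ∈ Vs | Bx κ}`, `B3 = B` without the two ends (so `3 ≤ dg` there), `E` = the set of the ends, `|E| ≤ 2`. `∑_{κ ∈ B} dg κ ≤ 2 V + 2 b - 2 - 2 (V - |B|)`, and it is at least
`3 |B3| + |E|`, `|B| = |B3| + |E|`: `|B3| + 2 ≤ 2 b + |E|`, so `|B3| ≤ 2 b`, `|B| ≤ 2 b + 2` and `∑_{κ ∈ B} dg κ ≤ 2 b - 2 + 2 |B| ≤ 6 b + 2`. This sum is the number on the left side. -/
theorem card_OB (hT : TreeN F N) {H : Subgroup G} {c : ℕ → G} {n : ℕ} (hn : 1 ≤ n) (hc : Geo F N c n) :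
    ((Oe H c n).filter (fun ε => Bx H c n ε.1)).card ≤ 6 * (Cl H c n).card + 2 := by
  have hO := card_Oe H c n
  obtain ⟨E, hE⟩ : ∃ E : Finset (Quotient (QuotientGroup.rightRel H)), E = (Vs H c n).filter (fun κ => κ = col H (c 0) ∨ κ = col H (c n)) := ⟨_, rfl⟩
  obtain ⟨B, hB⟩ : ∃ B : Finset (Quotient (QuotientGroup.rightRel H)), B = (Vs H c n).filter (fun κ => Bx H c n κ) := ⟨_, rfl⟩
  have hEB : E ⊆ B := by
    intro κ hκ
    rw [hE, Finset.mem_filter] at hκ
    rw [hB, Finset.mem_filter]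
    exact ⟨hκ.1, Or.inr hκ.2⟩
  have hBV : B ⊆ Vs H c n := by
    rw [hB]
    exact Finset.filter_subset _ _
  have hE2 : E.card ≤ 2 := by
    have h1 : E ⊆ {col H (c 0), col H (c n)} := by
      intro κ hκ
      rw [hE, Finset.mem_filter] at hκ
      rw [Finset.mem_insert, Finset.mem_singleton]
      exact hκ.2
    exact (Finset.card_le_card h1).trans (Finset.card_le_two)
  have hsum : (Oe H c n).card = ∑ κ ∈ Vs H c n, dg H c n κ :=
    Finset.card_eq_sum_card_fiberwise fun ε hε => c3_mem H c n hε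
  have hL : ((Oe H c n).filter (fun ε => Bx H c n ε.1)).card = ∑ κ ∈ B, dg H c n κ := by
    rw [Finset.card_eq_sum_card_fiberwise (f := fun ε => ε.1) (t := B) fun ε hε => ?_]
    · refine Finset.sum_congr rfl fun κ hκ => ?_
      unfold dg
      congr 1
      ext ε
      simp only [Finset.mem_filter]
      constructor
      · rintro ⟨⟨h1, h2⟩, h3⟩
        exact ⟨h1, h3⟩
      · rintro ⟨h1, h2⟩
        rw [hB, Finset.mem_filter] at hκ
        exact ⟨⟨h1, by rw [h2]; exact hκ.2⟩, h2⟩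
    · have h1 := Finset.mem_filter.1 hε
      rw [hB]
      exact Finset.mem_filter.2 ⟨c3_mem H c n h1.1, h1.2⟩
  rw [hL]
  have h1 : ∑ κ ∈ Vs H c n \ B, dg H c n κ + ∑ κ ∈ B, dg H c n κ = ∑ κ ∈ Vs H c n, dg H c n κ :=
    Finset.sum_sdiff hBV
  have h2 : ∑ κ ∈ B \ E, dg H c n κ + ∑ κ ∈ E, dg H c n κ = ∑ κ ∈ B, dg H c n κ :=
    Finset.sum_sdiff hEB
  have h3 : 2 * (Vs H c n \ B).card ≤ ∑ κ ∈ Vs H c n \ B, dg H c n κ := by
    rw [mul_comm, ← smul_eq_mul, ← Finset.sum_const]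
    refine Finset.sum_le_sum fun κ hκ => ?_
    rw [Finset.mem_sdiff, hB, Finset.mem_filter] at hκ
    refine c3_two hT hc hκ.1 (fun h => hκ.2 ⟨hκ.1, Or.inr (Or.inl h)⟩) (fun h => hκ.2 ⟨hκ.1, Or.inr (Or.inr h)⟩)
  have h4 : 3 * (B \ E).card ≤ ∑ κ ∈ B \ E, dg H c n κ := by
    rw [mul_comm, ← smul_eq_mul, ← Finset.sum_const]
    refine Finset.sum_le_sum fun κ hκ => ?_
    rw [Finset.mem_sdiff, hB, hE, Finset.mem_filter, Finset.mem_filter] at hκ
    obtain ⟨⟨h5, h6⟩, h7⟩ := hκ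
    rcases h6 with h6 | h6
    · exact h6
    · exact absurd ⟨h5, h6⟩ h7
  have h5 : 1 * E.card ≤ ∑ κ ∈ E, dg H c n κ := by
    rw [mul_comm, ← smul_eq_mul, ← Finset.sum_const]
    refine Finset.sum_le_sum fun κ hκ => ?_
    rw [hE, Finset.mem_filter] at hκ
    exact c3_one hn hκ.2
  have h6 : (Vs H c n \ B).card + B.card = (Vs H c n).card := Finset.card_sdiff_add_card_eq_card hBV
  have h7 : (B \ E).card + E.card = B.card := Finset.card_sdiff_add_card_eq_card hEB
  omega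

end H15M
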