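import Pool.Agent.Lib.H15M.C2

/-! # H15M, chunk C4 (M): between cut vertices the path is determined by its first edge -/

namespace H15M

open Finset Classical

variable {G : Type} [Group G] {F : Subgroup G} {N : G → ℕ}

/-- (C4a, S) PROOF. The set of `nx` contains `n`; `Nat.sInf_mem`, `Nat.notMem_of_lt_sInf`. -/
theorem nx_spec (H : Subgroup G) (c : ℕ → G) (n i : ℕ) (hi : i < n) : i < nx H c n i ∧ nx H c n i ≤ n ∧
    Bx H c n (col H (c (nx H c n i))) ∧ ∀ j, i < j → j < nx H c n i → ¬ Bx H c n (col H (c j)) := by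
  have hne : {j | i < j ∧ j ≤ n ∧ Bx H c n (col H (c j))}.Nonempty :=
    ⟨n, hi, le_rfl, Or.inr (Or.inr rfl)⟩
  have h1 := Nat.sInf_mem hne
  refine ⟨h1.1, h1.2.1, h1.2.2, ?_⟩
  intro j hj hj' hB
  have h2 : j ∉ {j | i < j ∧ j ≤ n ∧ Bx H c n (col H (c j))} := Nat.notMem_of_lt_sInf hj'
  exact h2 ⟨hj, (le_of_lt hj').trans h1.2.1, hB⟩

theorem c4_step (c : ℕ → G) (i : ℕ) : c (i + 1) = c i * lab c i := by
  unfold lab; rw [mul_inv_cancel_left]

/-- (C4b, S/M) PROOF. `κ = col (c j)` is not a cut vertex, so `dg κ ≤ 2`. The three edges `(κ, (lab c (j - 1))⁻¹)`, `(κ, lab c j)`, `(κ, x)` are in `Oe n`, the first two are different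
(`lab_facts`), so `x` is one of the first two labels. -/
theorem two_out (hT : TreeN F N) {H : Subgroup G} {c : ℕ → G} {n : ℕ} (hc : Geo F N c n) (j : ℕ) (hj0 : 0 < j) (hj : j < n)
    (hB : ¬ Bx H c n (col H (c j))) (x : G) (hx : (col H (c j), x) ∈ Oe H c n) : x = (lab c (j - 1))⁻¹ ∨ x = lab c j := by
  by_contra hcon
  rw [not_or] at hcon
  obtain ⟨hx1, hx2⟩ := hcon
  obtain ⟨k, rfl⟩ : ∃ k, j = k + 1 := ⟨j - 1, by omega⟩
  rw [Nat.add_sub_cancel] at hx1
  have h1 : (col H (c (k + 1)), (lab c k)⁻¹) ∈ Oe H c n := ((Oe_facts H c).2.2 n k (by omega)).2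
  have h2 : (col H (c (k + 1)), lab c (k + 1)) ∈ Oe H c n := ((Oe_facts H c).2.2 n (k + 1) hj).1
  have h3 : lab c (k + 1) ≠ (lab c k)⁻¹ := (lab_facts hT hc k (by omega)).2.2.2 hj
  apply hB
  left
  unfold dg
  have h4 : 2 < ((Oe H c n).filter (fun ε => ε.1 = col H (c (k + 1)))).card := by
    rw [Finset.two_lt_card]
    refine ⟨(col H (c (k + 1)), (lab c k)⁻¹), Finset.mem_filter.mpr ⟨h1, rfl⟩,
      (col H (c (k + 1)), lab c (k + 1)), Finset.mem_filter.mpr ⟨h2, rfl⟩,
      (col H (c (k + 1)), x), Finset.mem_filter.mpr ⟨hx, rfl⟩, ?_, ?_, ?_⟩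
    · intro h; exact h3 (Prod.ext_iff.mp h).2.symm
    · intro h; exact hx1 (Prod.ext_iff.mp h).2.symm
    · intro h; exact hx2 (Prod.ext_iff.mp h).2.symm
  exact h4

/-- (C4c, M) PROOF. Induction on `l`. Step: `i + l < nx i`, so by induction `i' + l < nx i'`, equal colours and labels at `i + l`, `i' + l`; so equal colours at `i + l + 1`, `i' + l + 1`
(`col_eq`). If `i + l + 1 < nx i` the colour is not a cut vertex, so `i' + l + 1 ≠ nx i'`, and `two_out` for `j = i + l + 1` and `x = lab c (i' + l + 1)`: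
it is not `(lab c (i + l))⁻¹ = (lab c (i' + l))⁻¹` (`lab_facts`). -/
theorem forward (hT : TreeN F N) {H : Subgroup G} {c : ℕ → G} {n : ℕ} (hc : Geo F N c n) (i i' : ℕ) (hi : i < n)
    (hi' : i' < n) (h1 : col H (c i) = col H (c i')) (h2 : lab c i = lab c i') (l : ℕ) : i + l ≤ nx H c n i →
    i' + l ≤ nx H c n i' ∧ col H (c (i + l)) = col H (c (i' + l)) ∧
      (i + l < nx H c n i → i' + l < nx H c n i' ∧ lab c (i + l) = lab c (i' + l)) := by
  obtain ⟨a1, a2, a3, a4⟩ := nx_spec H c n i hi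
  obtain ⟨b1, b2, b3, b4⟩ := nx_spec H c n i' hi'
  induction l with
  | zero =>
    intro _
    exact ⟨le_of_lt b1, h1, fun _ => ⟨b1, h2⟩⟩
  | succ l ih =>
    intro hl
    obtain ⟨e1, e2, e3⟩ := ih (by omega)
    obtain ⟨e4, e5⟩ := e3 (by omega)
    have e6 : col H (c (i + (l + 1))) = col H (c (i' + (l + 1))) := by
      have := (col_eq H (c (i + l)) (c (i' + l))).2.2 e2 (lab c (i + l))
      rw [← c4_step, e5, ← c4_step] at this
      exact this
    refine ⟨by omega, e6, ?_⟩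
    intro hl'
    have e7 : ¬ Bx H c n (col H (c (i + (l + 1)))) := a4 _ (by omega) hl'
    have e8 : i' + (l + 1) ≠ nx H c n i' := by
      intro h
      apply e7
      rw [e6, h]
      exact b3
    have e9 : i' + (l + 1) < nx H c n i' := lt_of_le_of_ne (by omega) e8
    refine ⟨e9, ?_⟩
    have e10 : (col H (c (i + (l + 1))), lab c (i' + (l + 1))) ∈ Oe H c n := by
      rw [e6]
      exact ((Oe_facts H c).2.2 n (i' + (l + 1)) (by omega)).1
    rcases two_out hT hc (i + (l + 1)) (by omega) (by omega) e7 _ e10 with h | h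
    · exfalso
      have e11 : i + (l + 1) - 1 = i + l := by omega
      rw [e11, e5] at h
      exact (lab_facts hT hc (i' + l) (by omega)).2.2.2 (by omega) h
    · exact h.symm

/-- (C4d, S/M) PROOF. `forward` in both directions: `nx i - i = nx i' - i'`. `h = c i' * (c i)⁻¹ ∈ H` (`col_eq`); induction on `l`:
`c (i + l + 1) = c (i + l) * lab c (i + l)`. -/
theorem same_piece (hT : TreeN F N) {H : Subgroup G} {c : ℕ → G} {n : ℕ} (hc : Geo F N c n) (i i' : ℕ) (hi : i < n)
    (hi' : i' < n) (h1 : col H (c i) = col H (c i')) (h2 : lab c i = lab c i') :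
    nx H c n i - i = nx H c n i' - i' ∧ ∃ h ∈ H, c i' = h * c i ∧ c (nx H c n i') = h * c (nx H c n i) := by
  obtain ⟨a1, a2, a3, a4⟩ := nx_spec H c n i hi
  obtain ⟨b1, b2, b3, b4⟩ := nx_spec H c n i' hi'
  have e1 := (forward hT hc i i' hi hi' h1 h2 (nx H c n i - i) (by omega)).1
  have e2 := (forward hT hc i' i hi' hi h1.symm h2.symm (nx H c n i' - i') (by omega)).1
  have e3 : nx H c n i - i = nx H c n i' - i' := by omega
  have e4 : c i' * (c i)⁻¹ ∈ H := (col_eq H (c i) (c i')).1.mp h1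
  have e5 : ∀ l, i + l ≤ nx H c n i → c (i' + l) = (c i' * (c i)⁻¹) * c (i + l) := by
    intro l
    induction l with
    | zero =>
      intro _
      rw [Nat.add_zero, Nat.add_zero, inv_mul_cancel_right]
    | succ l ih =>
      intro hl
      have e6 := ((forward hT hc i i' hi hi' h1 h2 l (by omega)).2.2 (by omega)).2
      have e7 : c (i' + (l + 1)) = c (i' + l) * lab c (i' + l) := c4_step c (i' + l)
      have e8 : c (i + (l + 1)) = c (i + l) * lab c (i + l) := c4_step c (i + l)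
      rw [e7, e8, ih (by omega), e6, mul_assoc]
  refine ⟨e3, c i' * (c i)⁻¹, e4, by rw [inv_mul_cancel_right], ?_⟩
  have e9 := e5 (nx H c n i - i) (by omega)
  have e10 : i' + (nx H c n i - i) = nx H c n i' := by omega
  have e11 : i + (nx H c n i - i) = nx H c n i := by omega
  rw [e10, e11] at e9
  exact e9

end H15M
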