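import Pool.Agent.Lib.H15M.C4

/-! # H15M, chunk C5 (M): the total length of the different pieces -/

namespace H15M

open Finset Classical

variable {G : Type} [Group G] {F : Subgroup G} {N : G → ℕ}

theorem c5_back (hT : TreeN F N) {H : Subgroup G} {c : ℕ → G} {n : ℕ} (hc : Geo F N c n) (i i' l l' : ℕ) (hi : i < n) (hi' : i' < n)
    (hl : i + l < nx H c n i) (hl' : i' + l' < nx H c n i') (hll : l ≤ l')
    (h1 : col H (c (i + l)) = col H (c (i' + l'))) (h2 : lab c (i + l) = lab c (i' + l')) (s : ℕ) (hs : s ≤ l) :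
    col H (c (i + l - s)) = col H (c (i' + l' - s)) ∧ lab c (i + l - s) = lab c (i' + l' - s) := by
  obtain ⟨a1, a2, a3, a4⟩ := nx_spec H c n i hi
  obtain ⟨b1, b2, b3, b4⟩ := nx_spec H c n i' hi'
  induction s with
  | zero => exact ⟨h1, h2⟩
  | succ s ih =>
    obtain ⟨e1, e2⟩ := ih (by omega)
    obtain ⟨j, hj⟩ : ∃ j, i + l - s = j + 1 := ⟨i + l - s - 1, by omega⟩
    obtain ⟨j', hj'⟩ : ∃ j', i' + l' - s = j' + 1 := ⟨i' + l' - s - 1, by omega⟩
    rw [hj, hj'] at e1 e2
    have hjj : i + l - (s + 1) = j := by omega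
    have hjj' : i' + l' - (s + 1) = j' := by omega
    rw [hjj, hjj']
    have hcut := a4 (j + 1) (by omega) (by omega)
    have hx : (col H (c (j + 1)), (lab c j')⁻¹) ∈ Oe H c n := by
      rw [e1]
      exact ((Oe_facts H c).2.2 n j' (by omega)).2
    obtain ⟨f1, f2, f3, f4⟩ := lab_facts hT hc j' (by omega)
    obtain ⟨g1, g2, g3, g4⟩ := lab_facts hT hc j (by omega)
    have hlab : (lab c j')⁻¹ = (lab c j)⁻¹ := by
      rcases two_out hT hc (j + 1) (by omega) (by omega) hcut _ hx with h | h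
      · exact h
      · exfalso
        rw [e2] at h
        exact f4 (by omega) h.symm
    refine ⟨?_, (inv_injective hlab).symm⟩
    have h3 := (col_eq H (c (j + 1)) (c (j' + 1))).2.2 e1 ((lab c j)⁻¹)
    have h4 : c (j + 1) * (lab c j)⁻¹ = c j := by
      rw [g3]
      group
    have h5 : c (j' + 1) * (lab c j)⁻¹ = c j' := by
      rw [← hlab, f3]
      group
    rwa [h4, h5] at h3

theorem c5_inj (hT : TreeN F N) {H : Subgroup G} {c : ℕ → G} {n : ℕ} (hc : Geo F N c n) (i i' l l' : ℕ) (hi : i < n) (hi' : i' < n)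
    (hB : Bx H c n (col H (c i)))
    (hl : i + l < nx H c n i) (hl' : i' + l' < nx H c n i') (hll : l ≤ l')
    (h1 : col H (c (i + l)) = col H (c (i' + l'))) (h2 : lab c (i + l) = lab c (i' + l')) :
    l = l' ∧ col H (c i) = col H (c i') ∧ lab c i = lab c i' := by
  obtain ⟨e1, e2⟩ := c5_back hT hc i i' l l' hi hi' hl hl' hll h1 h2 l le_rfl
  obtain ⟨b1, b2, b3, b4⟩ := nx_spec H c n i' hi'
  have hil : i + l - l = i := by omega
  rw [hil] at e1 e2
  by_cases h : l = l'
  · subst h
    have hil' : i' + l - l = i' := by omega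
    rw [hil'] at e1 e2
    exact ⟨rfl, e1, e2⟩
  · exfalso
    refine b4 (i' + l' - l) (by omega) (by omega) ?_
    rw [← e1]
    exact hB

/-- (C5, M) PROOF. The map `(i, l) ↦ (col (c (i + l)), lab c (i + l))` from the pairs `i ∈ R`, `l < nx i - i` to `Oe n` is injective (`Finset.sigma`, `card_le_card_of_injOn`). Let `(i, l), (i', l')` have the same image, `l ≤ l'`.
Claim: for `s ≤ l` the images of `(i, l - s)` and `(i', l' - s)` agree. Step: `j = i + l - s > i`, `j' = i' + l' - s > i'`, the colour `κ` at `j` and `j'` is not a cut vertex (`nx_spec`), and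
`x = (lab c (j' - 1))⁻¹` is a label at `κ`, different from `lab c j' = lab c j` (`lab_facts`), so by `two_out` it is `(lab c (j - 1))⁻¹`; the colours at `j - 1`, `j' - 1` are equal (`col_eq`). With `s = l`: the colour
at `i' + l' - l` is the one at `i`, a cut vertex, so `l' = l`, and `i = i'` by the injectivity on `R`. -/
theorem sum_pieces (hT : TreeN F N) {H : Subgroup G} {c : ℕ → G} {n : ℕ} (hc : Geo F N c n) (R : Finset ℕ)
    (hR : ∀ i ∈ R, i < n ∧ Bx H c n (col H (c i)))
    (hinj : ∀ i ∈ R, ∀ i' ∈ R, col H (c i) = col H (c i') → lab c i = lab c i' → i = i') :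
    ∑ i ∈ R, (nx H c n i - i) ≤ (Oe H c n).card := by
  have hcard : ∑ i ∈ R, (nx H c n i - i) = (R.sigma fun i => range (nx H c n i - i)).card := by
    rw [card_sigma]
    exact sum_congr rfl fun i _ => (card_range _).symm
  rw [hcard]
  refine card_le_card_of_injOn (fun p => (col H (c (p.1 + p.2)), lab c (p.1 + p.2))) ?_ ?_
  · rintro ⟨i, l⟩ hp
    rw [mem_coe, mem_sigma, mem_range] at hp
    obtain ⟨hi, hl⟩ := hp
    obtain ⟨a1, a2, a3, a4⟩ := nx_spec H c n i (hR i hi).1
    have hl' : l < nx H c n i - i := hl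
    exact ((Oe_facts H c).2.2 n (i + l) (by omega)).1
  · rintro ⟨i, l⟩ hp ⟨i', l'⟩ hp' he
    rw [mem_coe, mem_sigma, mem_range] at hp hp'
    obtain ⟨hi, hl⟩ := hp
    obtain ⟨hi', hl'⟩ := hp'
    obtain ⟨he1, he2⟩ := Prod.mk.inj he
    have hl1 : l < nx H c n i - i := hl
    have hl2 : l' < nx H c n i' - i' := hl'
    have k1 : col H (c (i + l)) = col H (c (i' + l')) := he1
    have k2 : lab c (i + l) = lab c (i' + l') := he2
    rcases le_total l l' with hll | hll
    · obtain ⟨r1, r2, r3⟩ := c5_inj hT hc i i' l l' (hR i hi).1 (hR i' hi').1 (hR i hi).2 (by omega) (by omega) hll k1 k2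
      have := hinj i hi i' hi' r2 r3
      subst this
      subst r1
      rfl
    · obtain ⟨r1, r2, r3⟩ := c5_inj hT hc i' i l' l (hR i' hi').1 (hR i hi).1 (hR i' hi').2 (by omega) (by omega) hll k1.symm k2.symm
      have := hinj i' hi' i hi r2 r3
      subst this
      subst r1
      rfl

end H15M
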