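import Pool.Agent.Lib.H15M.CDefs
import Pool.Agent.Lib.H15M.C2

/-! # H15M, chunk C6 (S/M, 4 short): the colours of a level segment -/

namespace H15M

open Finset Classical

variable {G : Type} [Group G] {F : Subgroup G} {N : G → ℕ}

theorem c6_left {x y v : G} (g : G) (h1 : Lv F x v) (h2 : Btw N x v y) :
    Lv F (g * x) (g * v) ∧ Btw N (g * x) (g * v) (g * y) := by
  refine ⟨lv_left g h1, ?_⟩
  unfold Btw at h2 ⊢
  rw [t_left, t_left, t_left]
  exact h2

/-- (C6a, S/M) PROOF. `lgeo` gives `c`; a point `v` between `x` and `y` is `c (t x v)` (`btw_eq`). -/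
theorem seg_eq (hT : TreeN F N) {x y : G} (h : Lv F x y) : ∃ c : ℕ → G, Geo F N c (t N x y) ∧ c 0 = x ∧
    c (t N x y) = y ∧ ∀ v, (Lv F x v ∧ Btw N x v y) ↔ ∃ i, i ≤ t N x y ∧ v = c i := by
  obtain ⟨c, hc0, hcL, h1, h2⟩ := lgeo hT h
  refine ⟨c, ?_, hc0, hcL, ?_⟩
  · intro i j hij hj
    exact ⟨lv_trans (lv_symm (h1 i (hij.trans hj)).1) (h1 j hj).1, h2 i j hij hj⟩
  · intro v
    constructor
    · rintro ⟨hv, hb⟩
      have hle : t N x v ≤ t N x y := by
        unfold Btw at hb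
        omega
      refine ⟨t N x v, hle, ?_⟩
      have h3 := h1 (t N x v) hle
      refine btw_eq hT hv h3.1 h hb h3.2 ?_
      have h4 := h2 0 (t N x v) (Nat.zero_le _) hle
      rw [hc0] at h4
      omega
    · rintro ⟨i, hi, rfl⟩
      exact h1 i hi

/-- (C6b, S) PROOF. `seg_eq`: the image of the finite set `range (t x y + 1)`. -/
theorem cols_card (hT : TreeN F N) (H : Subgroup G) {x y : G} (h : Lv F x y) :
    (cols F H N x y).Finite ∧ (cols F H N x y).ncard ≤ t N x y + 1 := by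
  obtain ⟨c, _, _, _, hv⟩ := seg_eq hT h
  have hs : {v | Lv F x v ∧ Btw N x v y} = ↑((range (t N x y + 1)).image c) := by
    ext v
    rw [Set.mem_ofPred_eq, hv v, Finset.mem_coe, Finset.mem_image]
    constructor
    · rintro ⟨i, hi, rfl⟩
      exact ⟨i, Finset.mem_range.mpr (by omega), rfl⟩
    · rintro ⟨i, hi, rfl⟩
      exact ⟨i, by have := Finset.mem_range.mp hi; omega, rfl⟩
  unfold cols
  rw [hs]
  refine ⟨(Finset.finite_toSet _).image _, ?_⟩
  refine (Set.ncard_image_le (Finset.finite_toSet _)).trans ?_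
  rw [Set.ncard_coe_finset]
  exact Finset.card_image_le.trans (le_of_eq (Finset.card_range _))

/-- (C6c, S) PROOF. `btw_split`. -/
theorem cols_tri (hT : TreeN F N) (H : Subgroup G) {x y z : G} (h : Lv F x y) (h' : Lv F x z) :
    cols F H N x z ⊆ cols F H N x y ∪ cols F H N y z := by
  rintro κ ⟨v, ⟨hv, hb⟩, rfl⟩
  rcases btw_split hT y hv h' h hb with h1 | h1
  · exact Or.inl ⟨v, ⟨hv, h1⟩, rfl⟩
  · exact Or.inr ⟨v, ⟨lv_trans (lv_symm h) hv, h1⟩, rfl⟩

/-- (C6d, S) PROOF. `t_left`, `lv_left`, `col_eq`. -/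
theorem cols_left (hT : TreeN F N) (H : Subgroup G) {h : G} (hh : h ∈ H) (x y : G) :
    cols F H N (h * x) (h * y) = cols F H N x y := by
  ext κ
  constructor
  · rintro ⟨v, ⟨hv, hb⟩, rfl⟩
    refine ⟨h⁻¹ * v, ?_, (col_eq H v v).2.1 h⁻¹ (H.inv_mem hh)⟩
    have := c6_left (y := h * y) h⁻¹ hv hb
    rw [inv_mul_cancel_left, inv_mul_cancel_left] at this
    exact this
  · rintro ⟨v, ⟨hv, hb⟩, rfl⟩
    exact ⟨h * v, c6_left h hv hb, (col_eq H v v).2.1 h hh⟩

/-- (C6e, S) PROOF. `btw_conv`. -/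
theorem cols_mono (hT : TreeN F N) (H : Subgroup G) {x y u v : G} (hy : Lv F x y) (hu : Lv F x u) (hv : Lv F x v)
    (h : Btw N x u y) (h' : Btw N x v y) : cols F H N u v ⊆ cols F H N x y := by
  rintro κ ⟨w, ⟨hw, hb⟩, rfl⟩
  exact ⟨w, ⟨lv_trans hu hw, btw_conv hT hu hv (lv_trans hu hw) hy h h' hb⟩, rfl⟩

end H15M
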