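import Pool.Agent.Lib.H15M.C7A
import Pool.Agent.Lib.H15M.C2D

/-! # H15M, chunk C7 (S/M): the colours of the image of a segment, final form -/

namespace H15M

open Finset Classical

variable {G : Type} [Group G] {F : Subgroup G} {N : G → ℕ}

/-- (C7b, S/M) PROOF. `seg_eq` gives `c`, `n = t x y`. `n = 0`: `x = y`, one colour. `1 ≤ n`: `cols_image`, `card_Oe`, `closing_le`, and `(Vs n).card = (cols x y).ncard` (`cols x y` is the image of `range (n + 1)` by
`seg_eq`). With `b = Cl.card ≤ r`, `V = Vs.card`: `8 * nc' ≤ 2 * V + 2 * b - 2 + (cc + 8) * (6 * b + 2)`. -/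
theorem colour (hT : TreeN F N) (hF : F.Normal) (hCP : CP F N) {H : Subgroup G} (hH : H ≤ F) (T : Finset G)
    (hTH : Subgroup.closure (T : Set G) = H) {x y : G} (hxy : Lv F x y) (u : G) (cc : ℕ)
    (hu : ∀ v v', Lv F x v → Lv F x v' → Btw N x v y → Btw N x v' y → 8 * t N (v * u) (v' * u) ≤ t N v v' + cc) :
    4 * (cols F H N (x * u) (y * u)).ncard ≤ (cols F H N x y).ncard + (cc + 9) * (6 * T.card + 4) := by
  obtain ⟨c, hc, h0, hn, hv⟩ := seg_eq hT hxy
  rcases Nat.eq_zero_or_pos (t N x y) with hz | hpos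
  · have hxy' : x = y := t_zero hT hxy hz
    subst hxy'
    have h1 := (cols_card hT H (lv_refl F (x * u))).2
    rw [t_self hT] at h1
    have h2 : 9 * 4 ≤ (cc + 9) * (6 * T.card + 4) := Nat.mul_le_mul (by omega) (by omega)
    omega
  · have hu' : ∀ i j, i ≤ j → j ≤ t N x y → 8 * t N (c i * u) (c j * u) ≤ (j - i) + cc := by
      intro i j hij hj
      obtain ⟨a1, a2⟩ := (hv (c i)).2 ⟨i, hij.trans hj, rfl⟩
      obtain ⟨b1, b2⟩ := (hv (c j)).2 ⟨j, hj, rfl⟩
      have := hu (c i) (c j) a1 b1 a2 b2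
      rwa [(hc i j hij hj).2] at this
    have h1 := cols_image hT hF (H := H) hpos hc u cc hu'
    rw [h0, hn] at h1
    have h2 := card_Oe H c (t N x y)
    have h3 := closing_le hT hF hCP hH T hTH hc
    have h4 : (cols F H N x y) = ((Vs H c (t N x y) : Finset _) : Set _) := by
      ext κ
      unfold cols Vs
      rw [Finset.coe_image]
      constructor
      · rintro ⟨v, hv1, rfl⟩
        obtain ⟨i, hi, rfl⟩ := (hv v).1 hv1
        exact ⟨i, by simpa using Nat.lt_succ_of_le hi, rfl⟩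
      · rintro ⟨i, hi, rfl⟩
        have hi' : i ≤ t N x y := by
          have := Finset.mem_range.1 (Finset.mem_coe.1 hi)
          omega
        exact ⟨c i, (hv (c i)).2 ⟨i, hi', rfl⟩, rfl⟩
    have h5 : (cols F H N x y).ncard = (Vs H c (t N x y)).card := by
      rw [h4, Set.ncard_coe_finset]
    rw [h5]
    have h6 : (cc + 8) * (6 * (Cl H c (t N x y)).card + 2) ≤ (cc + 9) * (6 * T.card + 4) :=
      Nat.mul_le_mul (by omega) (by omega)
    have h7 : 2 * (Cl H c (t N x y)).card ≤ (cc + 9) * (6 * T.card + 4) := by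
      have : 1 * (6 * T.card + 4) ≤ (cc + 9) * (6 * T.card + 4) := Nat.mul_le_mul (by omega) le_rfl
      omega
    omega

end H15M
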