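import Pool.Agent.Lib.H15M.C3
import Pool.Agent.Lib.H15M.C5
import Pool.Agent.Lib.H15M.C6

/-! # H15M, chunk C7A (M): the colours of the image of a segment -/

namespace H15M

open Finset Classical

variable {G : Type} [Group G] {F : Subgroup G} {N : G → ℕ}

theorem c7a_cover (hT : TreeN F N) (hF : F.Normal) {H : Subgroup G} {c : ℕ → G} {n : ℕ} (hc : Geo F N c n)
    (u : G) : ∀ m i, n - i ≤ m → i < n → Bx H c n (col H (c i)) →
    cols F H N (c i * u) (c n * u) ⊆ ⋃ i' ∈ (range n).filter (fun i => Bx H c n (col H (c i))),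
      cols F H N (c i' * u) (c (nx H c n i') * u) := by
  intro m
  induction m with
  | zero => intro i h1 h2; omega
  | succ m ih =>
    intro i h1 h2 h3
    obtain ⟨k1, k2, k3, k4⟩ := nx_spec H c n i h2
    have hmem : cols F H N (c i * u) (c (nx H c n i) * u) ⊆
        ⋃ i' ∈ (range n).filter (fun i => Bx H c n (col H (c i))), cols F H N (c i' * u) (c (nx H c n i') * u) := by
      intro x hx
      rw [Set.mem_iUnion₂]
      exact ⟨i, mem_filter.2 ⟨mem_range.2 h2, h3⟩, hx⟩
    rcases Nat.lt_or_ge (nx H c n i) n with h4 | h4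
    · have h5 := ih (nx H c n i) (by omega) h4 k3
      exact (cols_tri hT H (lv_right hF u (hc i (nx H c n i) k1.le k2).1) (lv_right hF u (hc i n h2.le le_rfl).1)).trans
        (Set.union_subset hmem h5)
    · have h5 : nx H c n i = n := le_antisymm k2 h4
      rw [h5] at hmem
      exact hmem

/-- (C7a, M) PROOF. `1 ≤ n`. Let `St` be the set of the `i < n` with `Bx (col (c i))` (it contains `0`), `R ⊆ St` a set of representatives for the map `i ↦ (col (c i), lab c i)` (for example the
smallest ones). (i) `cols (c 0 * u) (c n * u) ⊆ ⋃_{i ∈ St} cols (c i * u) (c (nx i) * u)`: prove by strong induction (downwards) that for `i ∈ St` the set `cols (c i * u) (c n * u)` is contained in the union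
(`nx i = n` or `nx i ∈ St`; `cols_tri`). (ii) for `i ∈ St` with representative `i'`: `c i = h * c i'`, `c (nx i) = h * c (nx i')` (`same_piece`), so `cols (c i * u) … = cols (c i' * u) …` (`cols_left`,
`mul_assoc`). (iii) `8 * ncard (cols (c i * u) (c (nx i) * u)) ≤ 8 * (t + 1) ≤ (nx i - i) + cc + 8`. (iv) sum over `R`: `sum_pieces` and `|R| ≤ ` the number of the edges in `card_OB` (injection
`i ↦ (col (c i), lab c i)`). -/
theorem cols_image (hT : TreeN F N) (hF : F.Normal) {H : Subgroup G} {c : ℕ → G} {n : ℕ} (hn : 1 ≤ n) (hc : Geo F N c n)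
    (u : G) (cc : ℕ) (hu : ∀ i j, i ≤ j → j ≤ n → 8 * t N (c i * u) (c j * u) ≤ (j - i) + cc) :
    8 * (cols F H N (c 0 * u) (c n * u)).ncard ≤ (Oe H c n).card + (cc + 8) * (6 * (Cl H c n).card + 2) := by
  set St : Finset ℕ := (range n).filter (fun i => Bx H c n (col H (c i))) with hSt
  set R : Finset ℕ := St.filter (fun i => ∀ i' ∈ St, (col H (c i'), lab c i') = (col H (c i), lab c i) → i ≤ i') with hR
  have hRSt : R ⊆ St := filter_subset _ _
  have hStm : ∀ i ∈ St, i < n ∧ Bx H c n (col H (c i)) := fun i hi => by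
    rw [hSt, mem_filter, mem_range] at hi
    exact hi
  have hrep : ∀ i ∈ St, ∃ i' ∈ R, (col H (c i'), lab c i') = (col H (c i), lab c i) := by
    intro i hi
    have hne : (St.filter (fun i' => (col H (c i'), lab c i') = (col H (c i), lab c i))).Nonempty :=
      ⟨i, mem_filter.2 ⟨hi, rfl⟩⟩
    have hm := mem_filter.1 (min'_mem _ hne)
    refine ⟨_, mem_filter.2 ⟨hm.1, fun i' hi' he => ?_⟩, hm.2⟩
    exact min'_le _ _ (mem_filter.2 ⟨hi', he.trans hm.2⟩)
  have hinj : ∀ i ∈ R, ∀ i' ∈ R, (col H (c i), lab c i) = (col H (c i'), lab c i') → i = i' := by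
    intro i hi i' hi' he
    have h1 := (mem_filter.1 hi).2 i' (hRSt hi') he.symm
    have h2 := (mem_filter.1 hi').2 i (hRSt hi) he
    omega
  have h0 : 0 < n := hn
  have hcov : cols F H N (c 0 * u) (c n * u) ⊆ ⋃ i ∈ R, cols F H N (c i * u) (c (nx H c n i) * u) := by
    refine (c7a_cover hT hF hc u n 0 (by omega) h0 (Or.inr (Or.inl rfl))).trans ?_
    intro x hx
    rw [Set.mem_iUnion₂] at hx
    obtain ⟨i, hi, hx⟩ := hx
    obtain ⟨i', hi', he⟩ := hrep i hi
    rw [Set.mem_iUnion₂]
    refine ⟨i', hi', ?_⟩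
    obtain ⟨-, h, hh, e1, e2⟩ := same_piece hT hc i' i (hStm i' (hRSt hi')).1 (hStm i hi).1 (Prod.ext_iff.1 he).1
      (Prod.ext_iff.1 he).2
    rw [e1, e2, mul_assoc, mul_assoc, cols_left hT H hh] at hx
    exact hx
  have hpc : ∀ i ∈ R, Lv F (c i * u) (c (nx H c n i) * u) ∧
      8 * (cols F H N (c i * u) (c (nx H c n i) * u)).ncard ≤ (nx H c n i - i) + (cc + 8) := by
    intro i hi
    obtain ⟨k1, k2, -, -⟩ := nx_spec H c n i (hStm i (hRSt hi)).1
    have hl : Lv F (c i * u) (c (nx H c n i) * u) := lv_right hF u (hc i (nx H c n i) k1.le k2).1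
    have h1 := (cols_card hT H hl).2
    have h2 := hu i (nx H c n i) k1.le k2
    exact ⟨hl, by omega⟩
  have hfin : (⋃ i ∈ R, cols F H N (c i * u) (c (nx H c n i) * u)).Finite :=
    Set.Finite.biUnion (R.finite_toSet) fun i hi => (cols_card hT H (hpc i (by exact_mod_cast hi)).1).1
  have h1 : (cols F H N (c 0 * u) (c n * u)).ncard ≤ ∑ i ∈ R, (cols F H N (c i * u) (c (nx H c n i) * u)).ncard :=
    (Set.ncard_le_ncard hcov hfin).trans (Finset.set_ncard_biUnion_le _ _)
  have h2 : 8 * (∑ i ∈ R, (cols F H N (c i * u) (c (nx H c n i) * u)).ncard) ≤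
      ∑ i ∈ R, (nx H c n i - i) + R.card * (cc + 8) := by
    rw [mul_sum, card_eq_sum_ones, sum_mul, ← sum_add_distrib]
    refine sum_le_sum fun i hi => ?_
    rw [one_mul]
    exact (hpc i hi).2
  have h3 := sum_pieces hT hc R (fun i hi => hStm i (hRSt hi)) (fun i hi i' hi' e1 e2 =>
    hinj i hi i' hi' (Prod.ext e1 e2))
  have h4 : R.card ≤ ((Oe H c n).filter (fun ε => Bx H c n ε.1)).card := by
    refine card_le_card_of_injOn (fun i => (col H (c i), lab c i)) (fun i hi => ?_) (fun i hi i' hi' he => ?_)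
    · have hi' : i ∈ R := by exact_mod_cast hi
      have h5 := hStm i (hRSt hi')
      exact mem_coe.2 (mem_filter.2 ⟨((Oe_facts H c).2.2 n i h5.1).1, h5.2⟩)
    · exact hinj i (by exact_mod_cast hi) i' (by exact_mod_cast hi') he
  have h5 := h4.trans (card_OB hT hn hc)
  have h6 : R.card * (cc + 8) ≤ (cc + 8) * (6 * (Cl H c n).card + 2) := by
    rw [mul_comm]
    exact Nat.mul_le_mul_left _ h5
  omega

end H15M
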