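import Pool.Agent.Lib.H15M.T5
import Pool.Agent.Lib.H15M.C1

/-! # H15M: colours along a level geodesic, definitions -/

namespace H15M

open Finset Classical

variable {G : Type} [Group G]

/-- `c 0, …, c n` is a geodesic in a level -/
def Geo (F : Subgroup G) (N : G → ℕ) (c : ℕ → G) (n : ℕ) : Prop :=
  ∀ i j, i ≤ j → j ≤ n → Lv F (c i) (c j) ∧ t N (c i) (c j) = j - i

/-- the label of the step from `c i` to `c (i + 1)` -/
def lab (c : ℕ → G) (i : ℕ) : G := (c i)⁻¹ * c (i + 1)

/-- the oriented edges of the graph of the cosets, met by the first `n` steps (both orientations) -/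
noncomputable def Oe (H : Subgroup G) (c : ℕ → G) (n : ℕ) : Finset (Quotient (QuotientGroup.rightRel H) × G) :=
  (range n).image (fun k => (col H (c k), lab c k)) ∪ (range n).image (fun k => (col H (c (k + 1)), (lab c k)⁻¹))

/-- the cosets met by `c 0, …, c n` -/
noncomputable def Vs (H : Subgroup G) (c : ℕ → G) (n : ℕ) : Finset (Quotient (QuotientGroup.rightRel H)) :=
  (range (n + 1)).image (fun k => col H (c k))

/-- the steps which close a loop: a new edge to an old vertex -/
noncomputable def Cl (H : Subgroup G) (c : ℕ → G) (n : ℕ) : Finset ℕ :=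
  (range n).filter (fun i => (col H (c i), lab c i) ∉ Oe H c i ∧ col H (c (i + 1)) ∈ Vs H c i)

/-- the degree -/
noncomputable def dg (H : Subgroup G) (c : ℕ → G) (n : ℕ) (κ : Quotient (QuotientGroup.rightRel H)) : ℕ :=
  ((Oe H c n).filter (fun ε => ε.1 = κ)).card

/-- the cut vertices: branch points and the two ends -/
def Bx (H : Subgroup G) (c : ℕ → G) (n : ℕ) (κ : Quotient (QuotientGroup.rightRel H)) : Prop :=
  3 ≤ dg H c n κ ∨ κ = col H (c 0) ∨ κ = col H (c n)

/-- the next index with a cut vertex -/
noncomputable def nx (H : Subgroup G) (c : ℕ → G) (n i : ℕ) : ℕ :=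
  sInf {j | i < j ∧ j ≤ n ∧ Bx H c n (col H (c j))}

end H15M
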