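import Mathlib

/-! # Project H15M (MP_38cb43_al): finitely generated subgroups of a normal free subgroup of a
hyperbolic group. Definitions. Overview: `PROOF.md`. -/

namespace H15M

/-! ## Discrete hyperbolic spaces -/

section space

variable {X : Type}

/-- twice the Gromov product `(x | y)_w` -/
def gp (d : X → X → ℕ) (w x y : X) : ℤ := (d w x : ℤ) + d w y - d x y

/-- a discrete geodesic metric which is hyperbolic (four point condition) -/
structure Hyp (d : X → X → ℕ) (δ : ℕ) : Prop where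
  self : ∀ x, d x x = 0
  symm : ∀ x y, d x y = d y x
  tri : ∀ x y z, d x z ≤ d x y + d y z
  geo : ∀ x y, ∃ c : ℕ → X, c 0 = x ∧ c (d x y) = y ∧ ∀ i j, i ≤ j → j ≤ d x y → d (c i) (c j) = j - i
  hyp : ∀ x y z w, min (gp d w x z) (gp d w y z) ≤ gp d w x y + 2 * δ

/-- `p 0, …, p n` with steps at most `K`, of mutual distances at least the differences of the indices -/
structure QSeq (d : X → X → ℕ) (K n : ℕ) (p : ℕ → X) : Prop where
  step : ∀ i, i < n → d (p i) (p (i + 1)) ≤ K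
  low : ∀ i j, i ≤ j → j ≤ n → j - i ≤ d (p i) (p j)

/-- any two points `a, b` of `P` are joined in `P` by a path with steps at most `K`, with at most `K * d a b + K`
steps -/
def PathProp (d : X → X → ℕ) (K : ℕ) (P : Set X) : Prop :=
  ∀ a ∈ P, ∀ b ∈ P, ∃ (n : ℕ) (p : ℕ → X), p 0 = a ∧ p n = b ∧ n ≤ K * d a b + K ∧ (∀ i, i ≤ n → p i ∈ P) ∧
    ∀ i, i < n → d (p i) (p (i + 1)) ≤ K

end space

/-! ## Levels -/

section levels

variable {G : Type} [Group G]

/-- the distance in a level (coset of `F`), for points of the same level -/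
def t (N : G → ℕ) (x y : G) : ℕ := N (x⁻¹ * y)

/-- `x` and `y` are in the same level -/
def Lv (F : Subgroup G) (x y : G) : Prop := x⁻¹ * y ∈ F

/-- `v` is between `x` and `y` -/
def Btw (N : G → ℕ) (x v y : G) : Prop := t N x v + t N v y = t N x y

/-- `N` makes all levels into trees -/
structure TreeN (F : Subgroup G) (N : G → ℕ) : Prop where
  one : N 1 = 0
  eq_one : ∀ f ∈ F, N f = 0 → f = 1
  inv : ∀ f ∈ F, N f⁻¹ = N f
  mul : ∀ f ∈ F, ∀ g ∈ F, N (f * g) ≤ N f + N g
  four : ∀ u ∈ F, ∀ v ∈ F, ∀ w ∈ F, N v + N (u⁻¹ * w) ≤ max (N u + N (v⁻¹ * w)) (N w + N (u⁻¹ * v))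
  med : ∀ u ∈ F, ∀ v ∈ F, ∃ m ∈ F, N m + N (m⁻¹ * u) = N u ∧ N m + N (m⁻¹ * v) = N v ∧
    N (u⁻¹ * m) + N (m⁻¹ * v) = N (u⁻¹ * v)
  path : ∀ u ∈ F, ∀ k, k ≤ N u → ∃ p ∈ F, N p = k ∧ N (p⁻¹ * u) = N u - k

/-- a normal subgroup `F` of `G` whose levels are trees, in a hyperbolic group `G` with the metric `d` -/
structure Ctx (F : Subgroup G) (d : G → G → ℕ) (N : G → ℕ) (δ K : ℕ) (η : ℕ → ℕ) : Prop where
  hyp : Hyp d δ
  left : ∀ g x y, d (g * x) (g * y) = d x y
  normal : F.Normal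
  tree : TreeN F N
  K2 : 2 ≤ K
  mono : Monotone η
  conj : ∀ s f, d 1 s ≤ 1 → f ∈ F → N (s⁻¹ * f * s) ≤ K * N f
  dN : ∀ f ∈ F, d 1 f ≤ K * N f
  Nd : ∀ f ∈ F, N f ≤ η (d 1 f)

/-- `m` is a median of `x, y, z` -/
def IsMed (F : Subgroup G) (N : G → ℕ) (x y z m : G) : Prop :=
  Lv F x m ∧ Btw N x m y ∧ Btw N x m z ∧ Btw N y m z

open Classical in
/-- the median of three points of a level -/
noncomputable def md (F : Subgroup G) (N : G → ℕ) (x y z : G) : G :=
  if h : ∃ m, IsMed F N x y z m then h.choose else x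

/-- coarse sections: `ρ x` is in the level of `x` and depends only on the level; moving by a generator changes it
by at most `K1` in the level -/
structure Sec (F : Subgroup G) (d : G → G → ℕ) (N : G → ℕ) (K1 : ℕ) (ρ : G → G) : Prop where
  mem : ∀ x, Lv F x (ρ x)
  coset : ∀ x y, Lv F x y → ρ x = ρ y
  lip : ∀ x s, d 1 s ≤ 1 → t N (ρ x * s) (ρ (x * s)) ≤ K1

/-- through every point there is a section with the constant `K1` -/
def Base (F : Subgroup G) (d : G → G → ℕ) (N : G → ℕ) (K1 : ℕ) : Prop :=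
  ∀ g : G, ∃ ζ : G → G, Sec F d N K1 ζ ∧ ζ g = g

/-- a geodesic path of levels -/
structure LPath (F : Subgroup G) (d : G → G → ℕ) (m : ℕ) (x : ℕ → G) : Prop where
  step : ∀ i, i < m → d (x i) (x (i + 1)) ≤ 1
  low : ∀ i j, i ≤ j → j ≤ m → ∀ u v, Lv F (x i) u → Lv F (x j) v → j - i ≤ d u v

/-- right cosets of `H` -/
def col (H : Subgroup G) (x : G) : Quotient (QuotientGroup.rightRel H) := Quotient.mk _ x

/-- the set of the right cosets of `H` met by the level segment `[x, y]` -/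
def cols (F H : Subgroup G) (N : G → ℕ) (x y : G) : Set (Quotient (QuotientGroup.rightRel H)) :=
  col H '' {v | Lv F x v ∧ Btw N x v y}

end levels

end H15M
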