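import Pool.Agent.Lib.H15M.Defs

/-! # H15M, chunk E1 (M): the word metric -/

namespace H15M

variable {G : Type} [Group G]

/-- `d` is the word metric of the finite set `S` (as in the frozen statement S01207) -/
def WordMetric (S : Finset G) (d : G → G → ℕ) : Prop :=
  ∀ g h : G, d g h = sInf {n : ℕ | ∃ l : List G, l.length = n ∧ (∀ x ∈ l, x ∈ S ∨ x⁻¹ ∈ S) ∧ l.prod = g⁻¹ * h}

/-- the four point condition as in S01207 -/
def Gromov (d : G → G → ℕ) (δ : ℕ) : Prop :=
  ∀ x y z w : G, min ((d w x : ℤ) + d w z - d x z) ((d w y : ℤ) + d w z - d y z) ≤ (d w x : ℤ) + d w y - d x y + 2 * δ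

/-- (E1a, S/M) There is a word of minimal length. PROOF. The set is not empty because `S` generates `G` (`Subgroup.exists_list_of_mem_closure`);
`Nat.sInf_mem`. -/
theorem wm_list {S : Finset G} (hS : Subgroup.closure (S : Set G) = ⊤) {d : G → G → ℕ} (hd : WordMetric S d) (g h : G) :
    ∃ l : List G, l.length = d g h ∧ (∀ x ∈ l, x ∈ S ∨ x⁻¹ ∈ S) ∧ l.prod = g⁻¹ * h := by
  have hne : {n : ℕ | ∃ l : List G, l.length = n ∧ (∀ x ∈ l, x ∈ S ∨ x⁻¹ ∈ S) ∧ l.prod = g⁻¹ * h}.Nonempty := by
    have hm : g⁻¹ * h ∈ Submonoid.closure ((S : Set G) ∪ (S : Set G)⁻¹) := by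
      rw [← Subgroup.closure_toSubmonoid, Subgroup.mem_toSubmonoid, hS]
      exact Subgroup.mem_top _
    obtain ⟨l, hl, hp⟩ := Submonoid.exists_list_of_mem_closure hm
    exact ⟨l.length, l, rfl, fun x hx => by simpa using hl x hx, hp⟩
  have h1 := Nat.sInf_mem hne
  rw [← hd g h] at h1
  exact h1

/-- (E1b, S) PROOF. `Nat.sInf_le`. -/
theorem wm_le {S : Finset G} {d : G → G → ℕ} (hd : WordMetric S d) (g h : G) (l : List G)
    (hl : ∀ x ∈ l, x ∈ S ∨ x⁻¹ ∈ S) (hp : l.prod = g⁻¹ * h) : d g h ≤ l.length := by
  rw [hd g h]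
  exact Nat.sInf_le ⟨l, rfl, hl, hp⟩

/-- (E1c, S) PROOF. `(g * x)⁻¹ * (g * y) = x⁻¹ * y`. -/
theorem wm_left {S : Finset G} {d : G → G → ℕ} (hd : WordMetric S d) (g x y : G) : d (g * x) (g * y) = d x y := by
  rw [hd, hd]
  have h1 : (g * x)⁻¹ * (g * y) = x⁻¹ * y := by group
  rw [h1]

/-- (E1d, M) PROOF. `self`: the empty list. `symm`: the reversed list of inverses. `tri`: append. `geo`: for a minimal word `l` of `x⁻¹ * y` let
`c i = x * (l.take i).prod`; `d (c i) (c j) ≤ j - i` for `i ≤ j` (the word `(l.drop i).take (j - i)`), and equality by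
`d x y ≤ d x (c i) + d (c i) (c j) + d (c j) y ≤ i + d (c i) (c j) + (L - j)`. `hyp`: `Gromov` is the same inequality (`gp` unfolded). -/
theorem wm_hyp {S : Finset G} (hS : Subgroup.closure (S : Set G) = ⊤) {d : G → G → ℕ} (hd : WordMetric S d) {δ : ℕ}
    (hδ : Gromov d δ) : Hyp d δ := by
  have hself : ∀ x, d x x = 0 := by
    intro x
    have := wm_le hd x x [] (by simp) (by simp)
    simpa using this
  have hle : ∀ x y, d y x ≤ d x y := by
    intro x y
    obtain ⟨l, hl1, hl2, hl3⟩ := wm_list hS hd x y
    have h1 := wm_le hd y x ((l.map (fun z => z⁻¹)).reverse) (by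
      intro z hz
      rw [List.mem_reverse, List.mem_map] at hz
      obtain ⟨u, hu, rfl⟩ := hz
      rw [inv_inv]
      exact (hl2 u hu).symm) (by
      rw [← List.prod_inv_reverse, hl3]
      group)
    rw [List.length_reverse, List.length_map, hl1] at h1
    exact h1
  have hsymm : ∀ x y, d x y = d y x := fun x y => le_antisymm (hle y x) (hle x y)
  have htri : ∀ x y z, d x z ≤ d x y + d y z := by
    intro x y z
    obtain ⟨l, hl1, hl2, hl3⟩ := wm_list hS hd x y
    obtain ⟨m, hm1, hm2, hm3⟩ := wm_list hS hd y z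
    have h1 := wm_le hd x z (l ++ m) (by
      intro u hu
      rcases List.mem_append.mp hu with h | h
      · exact hl2 u h
      · exact hm2 u h) (by
      rw [List.prod_append, hl3, hm3]
      group)
    rw [List.length_append, hl1, hm1] at h1
    exact h1
  refine ⟨hself, hsymm, htri, ?_, ?_⟩
  · intro x y
    obtain ⟨l, hl1, hl2, hl3⟩ := wm_list hS hd x y
    have hup : ∀ i j, i ≤ j → j ≤ d x y → d (x * (l.take i).prod) (x * (l.take j).prod) ≤ j - i := by
      intro i j hij hj
      have h1 := wm_le hd (x * (l.take i).prod) (x * (l.take j).prod) ((l.drop i).take (j - i)) (by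
        intro u hu
        exact hl2 u (List.mem_of_mem_drop (List.mem_of_mem_take hu))) (by
        have h2 : l.take j = l.take i ++ (l.drop i).take (j - i) := by
          have h3 := List.take_add (l := l) (i := i) (j := j - i)
          rw [Nat.add_sub_cancel' hij] at h3
          exact h3
        rw [h2, List.prod_append]
        group)
      refine h1.trans ?_
      rw [List.length_take]
      exact min_le_left _ _
    refine ⟨fun i => x * (l.take i).prod, by simp, ?_, ?_⟩
    · show x * (l.take (d x y)).prod = y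
      rw [← hl1, List.take_length, hl3]
      group
    · intro i j hij hj
      have h1 := hup i j hij hj
      have h2 := hup 0 i (Nat.zero_le _) (hij.trans hj)
      have h3 := hup j (d x y) hj le_rfl
      have h4 : x * (l.take 0).prod = x := by simp
      have h5 : x * (l.take (d x y)).prod = y := by
        rw [← hl1, List.take_length, hl3]
        group
      rw [h4] at h2
      rw [h5] at h3
      have h6 := htri x (x * (l.take i).prod) y
      have h7 := htri (x * (l.take i).prod) (x * (l.take j).prod) y
      show d (x * (l.take i).prod) (x * (l.take j).prod) = j - i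
      omega
  · intro x y z w
    exact hδ x y z w

/-- (E1e, S/M) Balls are finite. PROOF. The products of the lists of length at most `n` with entries in the finite set `S ∪ S⁻¹`; or induction on `n`: the ball of radius `n + 1` is in the image
of the ball of radius `n` times `S ∪ S⁻¹ ∪ {1}`. -/
theorem wm_ball {S : Finset G} (hS : Subgroup.closure (S : Set G) = ⊤) {d : G → G → ℕ} (hd : WordMetric S d) (n : ℕ) :
    {g : G | d 1 g ≤ n}.Finite := by
  classical
  induction n with
  | zero =>
    refine Set.Finite.subset (Set.finite_singleton (1 : G)) ?_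
    intro g hg
    have hg0 : d 1 g = 0 := Nat.le_zero.mp hg
    obtain ⟨l, hl1, -, hl3⟩ := wm_list hS hd 1 g
    rw [hg0] at hl1
    rw [List.length_eq_zero_iff.mp hl1] at hl3
    simp only [List.prod_nil, inv_one, one_mul] at hl3
    exact hl3.symm
  | succ n ih =>
    have hfin : ((fun q : G × G => q.1 * q.2) '' ({g : G | d 1 g ≤ n} ×ˢ ((S ∪ S.image (fun x => x⁻¹) ∪ {1} : Finset G) : Set G))).Finite :=
      (ih.prod (Finset.finite_toSet _)).image _
    refine hfin.subset ?_
    intro g hg
    obtain ⟨l, hl1, hl2, hl3⟩ := wm_list hS hd 1 g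
    simp only [inv_one, one_mul] at hl3
    rcases List.eq_nil_or_concat l with hl | ⟨L, b, hl⟩
    · subst hl
      refine ⟨(1, 1), ⟨?_, ?_⟩, ?_⟩
      · show d 1 1 ≤ n
        have := wm_le hd 1 1 [] (by simp) (by simp)
        simp only [List.length_nil, Nat.le_zero] at this
        omega
      · simp
      · simpa using hl3
    · rw [List.concat_eq_append] at hl
      subst hl
      refine ⟨(L.prod, b), ⟨?_, ?_⟩, ?_⟩
      · show d 1 L.prod ≤ n
        have h1 := wm_le hd 1 L.prod L (fun x hx => hl2 x (List.mem_append_left _ hx)) (by simp)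
        have h2 : d 1 g ≤ n + 1 := hg
        rw [List.length_append, List.length_singleton] at hl1
        omega
      · have h3 := hl2 b (by simp)
        simp only [Finset.coe_union, Finset.coe_image, Finset.coe_singleton, Set.mem_union, Finset.mem_coe, Set.mem_image,
          Set.mem_singleton_iff]
        left
        rcases h3 with h3 | h3
        · exact Or.inl h3
        · exact Or.inr ⟨b⁻¹, h3, inv_inv b⟩
      · simpa using hl3

end H15M
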