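import Pool.Agent.Lib.H15M.FG2

/-! # H15M, chunk E2 (M): constants -/

namespace H15M

variable {G : Type} [Group G]

theorem e2_list (F : Subgroup G) {ι : Type} (e : FreeGroup ι ≃* F) (w : G → ℕ) (A : ℕ) (h1 : w 1 = 0)
    (hm : ∀ x ∈ F, ∀ y ∈ F, w (x * y) ≤ w x + w y)
    (hb : ∀ i : ι, w (e (FreeGroup.of i) : G) ≤ A ∧ w ((e (FreeGroup.of i) : G)⁻¹) ≤ A) (L : List (ι × Bool)) :
    w (e (FreeGroup.mk L) : G) ≤ A * L.length := by
  induction L with
  | nil =>
    have h2 : (FreeGroup.mk ([] : List (ι × Bool))) = 1 := rfl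
    rw [h2, map_one, Subgroup.coe_one, h1]
    exact Nat.zero_le _
  | cons a L ih =>
    have h2 : FreeGroup.mk (a :: L) = FreeGroup.mk [a] * FreeGroup.mk L := by
      rw [FreeGroup.mul_mk]
      rfl
    have h3 : w (e (FreeGroup.mk [a]) : G) ≤ A := by
      obtain ⟨i, b⟩ := a
      cases b with
      | true => exact (hb i).1
      | false =>
        have h4 : FreeGroup.mk [(i, false)] = (FreeGroup.of i)⁻¹ := rfl
        rw [h4, map_inv, Subgroup.coe_inv]
        exact (hb i).2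
    rw [h2, map_mul, Subgroup.coe_mul, List.length_cons]
    calc w ((e (FreeGroup.mk [a]) : G) * (e (FreeGroup.mk L) : G))
        ≤ w (e (FreeGroup.mk [a]) : G) + w (e (FreeGroup.mk L) : G) := hm _ (e _).2 _ (e _).2
      _ ≤ A + A * L.length := Nat.add_le_add h3 ih
      _ = A * (L.length + 1) := by ring

/-- (E2a, S/M) PROOF. `f` corresponds to a word of `n = N f` letters `b i ^ ±1`, `b i = e (of i)` (`toWord`); `P` holds for the product: induction on the word. State: if `P 1` and `P` is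
additive (`w (x * y) ≤ w x + w y`), and `w (b i) ≤ A`, `w (b i)⁻¹ ≤ A`, then `w f ≤ A * N f`. -/
theorem word_bound (F : Subgroup G) {ι : Type} (e : FreeGroup ι ≃* F) (w : G → ℕ) (A : ℕ) (h1 : w 1 = 0)
    (hm : ∀ x ∈ F, ∀ y ∈ F, w (x * y) ≤ w x + w y)
    (hb : ∀ i : ι, w (e (FreeGroup.of i) : G) ≤ A ∧ w ((e (FreeGroup.of i) : G)⁻¹) ≤ A) (f : G) (hf : f ∈ F) :
    w f ≤ A * nrm F e f := by
  classical
  obtain ⟨u, hu⟩ := e.surjective ⟨f, hf⟩
  have h2 : (e u : G) = f := by rw [hu]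
  rw [← h2, b2_nrm]
  have h3 := e2_list F e w A h1 hm hb u.toWord
  rw [FreeGroup.mk_toWord] at h3
  exact h3

/-- (E2b, M) PROOF. For the finitely many `s` with `d 1 s ≤ 1` and the finitely many letters `b i ^ ±1` let `A` be larger than all `nrm (s⁻¹ * b i ^ ±1 * s)`; `word_bound` for `w f = nrm (s⁻¹ * f * s)` (subadditive on `F`: `tree_nrm`, `F` is normal) gives the
first inequality. The second: `word_bound` for `w f = d 1 f` (subadditive by `left` and the triangle inequality). `K` = maximum of the two constants and `2`. -/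
theorem const_K (F : Subgroup G) (hF : F.Normal) {ι : Type} [Finite ι] (e : FreeGroup ι ≃* F) {d : G → G → ℕ} {δ : ℕ} (hd : Hyp d δ)
    (hl : ∀ g x y, d (g * x) (g * y) = d x y) (hfin : ∀ n, {g : G | d 1 g ≤ n}.Finite) : ∃ K : ℕ, 2 ≤ K ∧
    (∀ s f, d 1 s ≤ 1 → f ∈ F → nrm F e (s⁻¹ * f * s) ≤ K * nrm F e f) ∧ ∀ f ∈ F, d 1 f ≤ K * nrm F e f := by
  have hS : {g : G | d 1 g ≤ 1}.Finite := hfin 1
  have hT : ({g : G | d 1 g ≤ 1} ×ˢ (Set.univ : Set ι)).Finite := hS.prod Set.finite_univ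
  obtain ⟨A1, hA1⟩ := (hT.image fun x : G × ι => nrm F e (x.1⁻¹ * (e (FreeGroup.of x.2) : G) * x.1)).bddAbove
  obtain ⟨A2, hA2⟩ := (hT.image fun x : G × ι => nrm F e (x.1⁻¹ * ((e (FreeGroup.of x.2) : G))⁻¹ * x.1)).bddAbove
  obtain ⟨A3, hA3⟩ := ((Set.finite_univ (α := ι)).image fun i => d 1 (e (FreeGroup.of i) : G)).bddAbove
  obtain ⟨A4, hA4⟩ := ((Set.finite_univ (α := ι)).image fun i => d 1 ((e (FreeGroup.of i) : G))⁻¹).bddAbove
  have k1 : A1 ≤ max (max A1 A2) (max (max A3 A4) 2) := (le_max_left _ _).trans (le_max_left _ _)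
  have k2 : A2 ≤ max (max A1 A2) (max (max A3 A4) 2) := (le_max_right _ _).trans (le_max_left _ _)
  have k3 : A3 ≤ max (max A1 A2) (max (max A3 A4) 2) := ((le_max_left _ _).trans (le_max_left _ _)).trans (le_max_right _ _)
  have k4 : A4 ≤ max (max A1 A2) (max (max A3 A4) 2) := ((le_max_right _ _).trans (le_max_left _ _)).trans (le_max_right _ _)
  have k5 : 2 ≤ max (max A1 A2) (max (max A3 A4) 2) := (le_max_right _ _).trans (le_max_right _ _)
  have hT2 := tree_nrm F e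
  refine ⟨max (max A1 A2) (max (max A3 A4) 2), k5, ?_, ?_⟩
  · intro s f hs hf
    have hconj : ∀ x ∈ F, s⁻¹ * x * s ∈ F := fun x hx => by
      have h := hF.conj_mem x hx s⁻¹
      rw [inv_inv] at h
      exact h
    refine word_bound F e (fun x => nrm F e (s⁻¹ * x * s)) _ ?_ ?_ ?_ f hf
    · have h2 : s⁻¹ * 1 * s = 1 := by group
      beta_reduce
      rw [h2]
      exact hT2.one
    · intro x hx y hy
      have h2 : s⁻¹ * (x * y) * s = (s⁻¹ * x * s) * (s⁻¹ * y * s) := by group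
      beta_reduce
      rw [h2]
      exact hT2.mul _ (hconj x hx) _ (hconj y hy)
    · intro i
      have hm : (s, i) ∈ {g : G | d 1 g ≤ 1} ×ˢ (Set.univ : Set ι) := ⟨hs, Set.mem_univ _⟩
      exact ⟨(hA1 (Set.mem_image_of_mem _ hm)).trans k1, (hA2 (Set.mem_image_of_mem _ hm)).trans k2⟩
  · intro f hf
    refine word_bound F e (fun x => d 1 x) _ (hd.self 1) ?_ ?_ f hf
    · intro x _ y _
      have h2 := hd.tri 1 x (x * y)
      have h3 := hl x 1 y
      rw [mul_one] at h3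
      rw [h3] at h2
      exact h2
    · intro i
      exact ⟨(hA3 (Set.mem_image_of_mem _ (Set.mem_univ i))).trans k3, (hA4 (Set.mem_image_of_mem _ (Set.mem_univ i))).trans k4⟩

/-- (E2c, S/M) PROOF. `η n` = the sum of `nrm f` over the finite set `{f | d 1 f ≤ n}`; monotone because the sets increase. -/
theorem const_η (F : Subgroup G) {ι : Type} (e : FreeGroup ι ≃* F) {d : G → G → ℕ}
    (hfin : ∀ n, {g : G | d 1 g ≤ n}.Finite) : ∃ η : ℕ → ℕ, Monotone η ∧ ∀ f ∈ F, nrm F e f ≤ η (d 1 f) := by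
  refine ⟨fun n => ∑ g ∈ (hfin n).toFinset, nrm F e g, ?_, ?_⟩
  · intro m n hmn
    refine Finset.sum_le_sum_of_subset fun g hg => ?_
    rw [Set.Finite.mem_toFinset] at hg ⊢
    exact (show d 1 g ≤ m from hg).trans hmn
  · intro f _
    have h2 : f ∈ (hfin (d 1 f)).toFinset := by
      rw [Set.Finite.mem_toFinset]
      exact le_refl (d 1 f)
    exact Finset.single_le_sum (f := fun g => nrm F e g) (fun _ _ => Nat.zero_le _) h2

end H15M
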