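import Pool.Agent.Lib.H15M.E1
import Pool.Agent.Lib.H15M.E2

/-! # H15M, chunk E3 (S): the context -/

namespace H15M

variable {G : Type} [Group G]

/-- (E3, S) PROOF. `wm_hyp`, `wm_left`, `tree_nrm`, `const_K` (`wm_ball`), `const_η`. Finiteness: `d 1 f ≤ K * n`. -/
theorem ctx_exists {S : Finset G} (hS : Subgroup.closure (S : Set G) = ⊤) {d : G → G → ℕ} (hd : WordMetric S d) {δ : ℕ}
    (hδ : Gromov d δ) (F : Subgroup G) (hF : F.Normal) {ι : Type} [Finite ι] (e : FreeGroup ι ≃* F) :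
    (∃ (K : ℕ) (η : ℕ → ℕ), Ctx F d (nrm F e) δ K η) ∧ ∀ n, {f | f ∈ F ∧ nrm F e f ≤ n}.Finite := by
  have hfin := wm_ball hS hd
  have hH := wm_hyp hS hd hδ
  have hl : ∀ g x y, d (g * x) (g * y) = d x y := wm_left hd
  obtain ⟨K, hK2, hK1, hK3⟩ := const_K F hF e hH hl hfin
  obtain ⟨η, hη1, hη2⟩ := const_η F e hfin
  refine ⟨⟨K, η, ?_⟩, fun n => ?_⟩
  · exact ⟨hH, hl, hF, tree_nrm F e, hK2, hη1, hK1, hK3, hη2⟩
  · refine (hfin (K * n)).subset ?_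
    rintro f ⟨hf, hn⟩
    exact le_trans (hK3 f hf) (Nat.mul_le_mul_left K hn)

end H15M
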