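import Pool.Agent.Lib.H15M.B2
import Pool.Agent.Lib.H98T.WA2

/-! # H15M, chunk FG1 (M): free groups as trees, words -/

namespace H15M

theorem fg1_le_iff {α : Type} [DecidableEq α] (l m : List α) (k : ℕ) :
    k ≤ H98T.lcp l m ↔ k ≤ l.length ∧ k ≤ m.length ∧ l.take k = m.take k := by
  induction l generalizing m k with
  | nil => cases m <;> simp +contextual [H98T.lcp]
  | cons a l ih =>
    cases m with
    | nil => simp +contextual [H98T.lcp]
    | cons b m =>
      cases k with
      | zero => simp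
      | succ k =>
        by_cases hab : a = b
        · subst hab
          have e1 : H98T.lcp (a :: l) (a :: m) = H98T.lcp l m + 1 := by simp [H98T.lcp]
          rw [e1, Nat.add_le_add_iff_right, ih]
          simp
        · have e1 : H98T.lcp (a :: l) (b :: m) = 0 := by simp [H98T.lcp, hab]
          rw [e1]
          simp [hab]

theorem fg1_red {ι : Type} [DecidableEq ι] {L : List (ι × Bool)} (h : FreeGroup.IsReduced L) :
    (FreeGroup.mk L).norm = L.length := by
  unfold FreeGroup.norm
  rw [FreeGroup.toWord_mk, h.reduce_eq]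

theorem fg1_take {ι : Type} [DecidableEq ι] (v : FreeGroup ι) (k : ℕ) (hk : k ≤ v.norm) :
    (FreeGroup.mk (v.toWord.take k)).norm = k ∧
      ((FreeGroup.mk (v.toWord.take k))⁻¹ * v).norm = v.norm - k := by
  have hr : FreeGroup.IsReduced (v.toWord.take k ++ v.toWord.drop k) := by
    rw [List.take_append_drop]
    exact FreeGroup.isReduced_toWord
  have h1 : FreeGroup.IsReduced (v.toWord.take k) := List.IsChain.left_of_append hr
  have h2 : FreeGroup.IsReduced (v.toWord.drop k) := List.IsChain.right_of_append hr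
  have h3 : (FreeGroup.mk (v.toWord.take k))⁻¹ * v = FreeGroup.mk (v.toWord.drop k) := by
    rw [inv_mul_eq_iff_eq_mul, FreeGroup.mul_mk, List.take_append_drop, FreeGroup.mk_toWord]
  have h4 : v.toWord.length = v.norm := rfl
  constructor
  · rw [fg1_red h1, List.length_take]
    omega
  · rw [h3, fg1_red h2, List.length_drop]
    omega

/-- (FG1a, S/M) Longest common prefix: `cp u v = H98T.lcp u.toWord v.toWord` (`H98T.lcp_props`, `lcp_eq`, `toWord_mul_lcp` with `x = u⁻¹`). PROOF. Let `p` be the longest common prefix of the reduced words of `u` and `v`, `toWord u = p ++ u'`, `toWord v = p ++ v'`. `u' ` and `v'` are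
reduced and start with different letters, so `invRev u' ++ v'` is reduced, it is the word of `u⁻¹ * v`. (`FreeGroup.IsReduced` is `List.IsChain`.) Here `cp u v` is the length of `p`: state it with
the function `lcp` on lists. -/
theorem fg_lcp {ι : Type} [DecidableEq ι] : ∃ cp : FreeGroup ι → FreeGroup ι → ℕ,
    (∀ u v, (u⁻¹ * v).norm + 2 * cp u v = u.norm + v.norm) ∧ (∀ u v w, min (cp u v) (cp v w) ≤ cp u w) ∧
    (∀ u v, cp u v ≤ u.norm ∧ cp u v = cp v u) ∧
    ∀ u : FreeGroup ι, ∀ k, k ≤ u.norm → ∃ p : FreeGroup ι, p.norm = k ∧ (p⁻¹ * u).norm = u.norm - k ∧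
      ∀ v, k ≤ cp u v → (p⁻¹ * v).norm = v.norm - k := by
  refine ⟨fun u v => H98T.lcp u.toWord v.toWord, fun u v => ?_, fun u v w => ?_, fun u v => ?_, fun u k hk => ?_⟩
  · have h1 := H98T.toWord_mul_lcp u⁻¹ v
    rw [inv_inv] at h1
    obtain ⟨h2, h3, -, -, -⟩ := H98T.lcp_props u.toWord v.toWord
    have h4 : (u⁻¹).toWord.length = u.toWord.length := by
      rw [FreeGroup.toWord_inv, FreeGroup.invRev_length]
    have h5 := congrArg List.length h1
    rw [List.length_append, List.length_take, List.length_drop] at h5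
    unfold FreeGroup.norm
    show _ + 2 * H98T.lcp u.toWord v.toWord = _
    omega
  · show min (H98T.lcp u.toWord v.toWord) (H98T.lcp v.toWord w.toWord) ≤ H98T.lcp u.toWord w.toWord
    obtain ⟨h1, h2, h3⟩ := (fg1_le_iff u.toWord v.toWord
      (min (H98T.lcp u.toWord v.toWord) (H98T.lcp v.toWord w.toWord))).1 (min_le_left _ _)
    obtain ⟨h4, h5, h6⟩ := (fg1_le_iff v.toWord w.toWord
      (min (H98T.lcp u.toWord v.toWord) (H98T.lcp v.toWord w.toWord))).1 (min_le_right _ _)
    exact (fg1_le_iff _ _ _).2 ⟨h1, h5, h3.trans h6⟩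
  · obtain ⟨h2, -, -, h4, -⟩ := H98T.lcp_props u.toWord v.toWord
    exact ⟨h2, h4⟩
  · obtain ⟨h1, h2⟩ := fg1_take u k hk
    refine ⟨FreeGroup.mk (u.toWord.take k), h1, h2, fun v hv => ?_⟩
    obtain ⟨-, h3, h4⟩ := (fg1_le_iff u.toWord v.toWord k).1 hv
    rw [h4]
    exact (fg1_take v k h3).2

end H15M
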