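import Pool.Agent.Lib.H15M.FG1

/-! # H15M, chunk FG2 (S/M): free groups as trees -/

namespace H15M

/-- (FG2a, S/M) PROOF. `one, eq_one, inv, mul`: `FreeGroup.norm_one`, `norm_eq_zero`, `norm_inv_eq`, `norm_mul_le` (`e.symm` is multiplicative; elements of `F` as
subtypes). `four`: write all norms with `cp`: `|v| + |u⁻¹ w| = |u| + |v| + |w| - 2 cp u w`. `med`: the prefix `p` of `u` with `k = cp u v` (last part of `fg_lcp`):
`|p| + |p⁻¹ u| = |u|`, `|p| + |p⁻¹ v| = |v|`, and `|u⁻¹ p| + |p⁻¹ v| = (|u| - k) + (|v| - k) = |u⁻¹ v|`. `path`: the prefix. -/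
theorem tree_nrm {G : Type} [Group G] (F : Subgroup G) {ι : Type} (e : FreeGroup ι ≃* F) : TreeN F (nrm F e) := by
  classical
  obtain ⟨cp, h1, h2, h3, h4⟩ := fg_lcp (ι := ι)
  have e2 : ∀ (w : FreeGroup ι), ((e w : G))⁻¹ = (e w⁻¹ : G) := fun w => by
    rw [map_inv, Subgroup.coe_inv]
  have e3 : ∀ (w v : FreeGroup ι), (e w : G) * (e v : G) = (e (w * v) : G) := fun w v => by
    rw [map_mul, Subgroup.coe_mul]
  have e4 : ∀ f ∈ F, ∃ w : FreeGroup ι, (e w : G) = f := fun f hf =>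
    ⟨e.symm ⟨f, hf⟩, by rw [e.apply_symm_apply]⟩
  have n1 : ∀ w : FreeGroup ι, nrm F e (e w : G) = w.norm := b2_nrm F e
  have n2 : ∀ u v : FreeGroup ι, nrm F e ((e u : G)⁻¹ * (e v : G)) = (u⁻¹ * v).norm := fun u v => by
    rw [e2, e3, n1]
  have n3 : ∀ u v : FreeGroup ι, (u⁻¹ * v).norm = (v⁻¹ * u).norm := fun u v => by
    rw [← FreeGroup.norm_inv_eq (x := v⁻¹ * u), mul_inv_rev, inv_inv]
  refine ⟨?_, ?_, ?_, ?_, ?_, ?_, ?_⟩
  · have h5 : (1 : G) = (e 1 : G) := by rw [map_one, Subgroup.coe_one]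
    rw [h5, n1, FreeGroup.norm_one]
  · intro f hf h5
    obtain ⟨w, rfl⟩ := e4 f hf
    rw [n1, FreeGroup.norm_eq_zero] at h5
    rw [h5, map_one, Subgroup.coe_one]
  · intro f hf
    obtain ⟨w, rfl⟩ := e4 f hf
    rw [e2, n1, n1, FreeGroup.norm_inv_eq]
  · intro f hf g hg
    obtain ⟨w, rfl⟩ := e4 f hf
    obtain ⟨v, rfl⟩ := e4 g hg
    rw [e3, n1, n1, n1]
    exact FreeGroup.norm_mul_le w v
  · intro u hu v hv w hw
    obtain ⟨u, rfl⟩ := e4 u hu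
    obtain ⟨v, rfl⟩ := e4 v hv
    obtain ⟨w, rfl⟩ := e4 w hw
    rw [n1, n1, n1, n2, n2, n2]
    have h5 := h1 u w
    have h6 := h1 v w
    have h7 := h1 u v
    have h8 := h2 u v w
    omega
  · intro u hu v hv
    obtain ⟨u, rfl⟩ := e4 u hu
    obtain ⟨v, rfl⟩ := e4 v hv
    have h5 := h1 u v
    have h6 := h3 u v
    have h7 := h3 v u
    obtain ⟨p, hp1, hp2, hp3⟩ := h4 u (cp u v) h6.1
    have hp4 := hp3 v le_rfl
    refine ⟨(e p : G), (e p).2, ?_, ?_, ?_⟩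
    · rw [n1, n1, n2]
      omega
    · rw [n1, n1, n2]
      omega
    · rw [n2, n2, n2, n3 u p]
      omega
  · intro u hu k hk
    obtain ⟨u, rfl⟩ := e4 u hu
    rw [n1] at hk
    obtain ⟨p, hp1, hp2, hp3⟩ := h4 u k hk
    refine ⟨(e p : G), (e p).2, ?_, ?_⟩
    · rw [n1, hp1]
    · rw [n1, n2, hp2]

end H15M
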