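import Pool.Agent.Lib.H15M.S9
import Pool.Agent.Lib.H15M.C7

/-! # H15M, chunk R1 (M): the number of colours decreases -/

namespace H15M

variable {G : Type} [Group G] {F : Subgroup G} {d : G → G → ℕ} {N : G → ℕ} {δ K : ℕ} {η : ℕ → ℕ}

/-- (R1a, M) The number of colours decreases. -/
theorem rec_step (hc : Ctx F d N δ K η) (hCP : CP F N) (K5 : ℕ) (hB : Base F d N K5) {H : Subgroup G} (hH : H ≤ F)
    (T : Finset G) (hTH : Subgroup.closure (T : Set G) = H) (E : ℕ) : ∃ k c4 : ℕ, 1 ≤ k ∧ ∀ ρm ρp : G → G,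
    Sec F d N K5 ρm → Sec F d N K5 ρp → ∀ (m : ℕ) (z : ℕ → G), LPath F d m z → t N (ρm (z m)) (ρp (z m)) ≤ E →
    ∀ j, j + k ≤ m → 4 * (cols F H N (ρm (z (j + k))) (ρp (z (j + k)))).ncard ≤
      (cols F H N (ρm (z j)) (ρp (z j))).ncard + c4 := by
  obtain ⟨k, c1, hk, H1⟩ := contr hc K5 hB E
  refine ⟨k, (c1 + 9) * (6 * T.card + 4) + 8 * (K ^ k * K5 + 1), hk, ?_⟩
  intro ρm ρp hm hp m z hz hE j hj
  have hlm := hm.mem (z j)
  have hlp := hp.mem (z j)
  have hxy : Lv F (ρm (z j)) (ρp (z j)) := lv_trans (lv_symm hlm) hlp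
  have h1 := colour hc.tree hc.normal hCP hH T hTH hxy ((z j)⁻¹ * z (j + k)) c1
    (fun v v' hv hv' hb hb' => H1 ρm ρp hm hp m z hz hE j hj v v' (lv_trans hlm hv) (lv_trans hlm hv') hb hb')
  have h2 := sec_lift hc hm k (fun i => z (j + i)) (fun i hi => hz.step (j + i) (by omega))
  have h3 := sec_lift hc hp k (fun i => z (j + i)) (fun i hi => hz.step (j + i) (by omega))
  simp only [Nat.add_zero] at h2 h3
  have l1 : Lv F (z (j + k)) (ρm (z j) * ((z j)⁻¹ * z (j + k))) := by
    have h := lv_right hc.normal ((z j)⁻¹ * z (j + k)) hlm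
    rwa [mul_inv_cancel_left] at h
  have l2 : Lv F (z (j + k)) (ρp (z j) * ((z j)⁻¹ * z (j + k))) := by
    have h := lv_right hc.normal ((z j)⁻¹ * z (j + k)) hlp
    rwa [mul_inv_cancel_left] at h
  have l3 := hm.mem (z (j + k))
  have l4 := hp.mem (z (j + k))
  generalize ρm (z j) * ((z j)⁻¹ * z (j + k)) = xu at *
  generalize ρp (z j) * ((z j)⁻¹ * z (j + k)) = yu at *
  generalize ρm (z (j + k)) = x' at *
  generalize ρp (z (j + k)) = y' at *
  have a1 : Lv F x' xu := lv_trans (lv_symm l3) l1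
  have a2 : Lv F xu yu := lv_trans (lv_symm l1) l2
  have a3 : Lv F yu y' := lv_trans (lv_symm l2) l4
  have a4 : Lv F x' y' := lv_trans (lv_symm l3) l4
  have a5 : Lv F xu y' := lv_trans a2 a3
  have b1 := cols_card hc.tree H a1
  have b2 := cols_card hc.tree H a2
  have b3 := cols_card hc.tree H a3
  have hsub : cols F H N x' y' ⊆ cols F H N x' xu ∪ (cols F H N xu yu ∪ cols F H N yu y') := by
    refine (cols_tri hc.tree H a1 a4).trans ?_
    exact Set.union_subset_union_right _ (cols_tri hc.tree H a2 a5)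
  have hle : (cols F H N x' y').ncard ≤ (cols F H N x' xu).ncard + ((cols F H N xu yu).ncard +
      (cols F H N yu y').ncard) := by
    refine (Set.ncard_le_ncard hsub (b1.1.union (b2.1.union b3.1))).trans ?_
    refine (Set.ncard_union_le _ _).trans ?_
    exact Nat.add_le_add_left (Set.ncard_union_le _ _) _
  have s1 : t N x' xu = t N xu x' := t_symm hc.tree a1
  have c1' := b1.2
  have c3' := b3.2
  rw [s1] at c1'
  generalize K ^ k * K5 = A at *
  generalize (c1 + 9) * (6 * T.card + 4) = B at *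
  omega

end H15M
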