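import Pool.Agent.Lib.H15M.C6

/-! # H15M, chunk R2 (S/M, 3 short): recursion, short elements -/

namespace H15M

variable {G : Type} [Group G] {F : Subgroup G} {N : G → ℕ}

/-- (R2a, S) PROOF. By induction `V i * 4 ^ i ≤ V 0 + c * 4 ^ i` (natural numbers): `4 * V (i + 1) ≤ V i + c`. -/
theorem rec_num (V : ℕ → ℕ) (c n : ℕ) (h : ∀ i, i < n → 4 * V (i + 1) ≤ V i + c) (i : ℕ) (hi : i ≤ n)
    (h0 : V 0 ≤ 4 ^ i) : V i ≤ c + 1 := by
  have key : ∀ j, j ≤ n → V j * 4 ^ j ≤ V 0 + c * 4 ^ j := by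
    intro j
    induction j with
    | zero =>
      intro _
      simp
    | succ j ih =>
      intro hj
      have h1 := ih (by omega)
      have h2 := h j (by omega)
      calc V (j + 1) * 4 ^ (j + 1) = (4 * V (j + 1)) * 4 ^ j := by rw [pow_succ]; ring
        _ ≤ (V j + c) * 4 ^ j := Nat.mul_le_mul_right _ h2
        _ = V j * 4 ^ j + c * 4 ^ j := by ring
        _ ≤ V 0 + c * 4 ^ j + c * 4 ^ j := Nat.add_le_add_right h1 _
        _ ≤ V 0 + c * 4 ^ (j + 1) := by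
          rw [pow_succ]
          nlinarith [Nat.zero_le (c * 4 ^ j)]
  have h1 := key i hi
  have h2 : V i * 4 ^ i ≤ (c + 1) * 4 ^ i := by
    rw [add_mul, one_mul]
    omega
  exact Nat.le_of_mul_le_mul_right h2 (by positivity)

/-- (R2b, S/M) PROOF. `seg_eq` gives `c`; the colours of the `V + 1` points `c 0, …, c V` are in a set with at most `V` elements (pigeonhole), so `col (c i) = col (c j)` for some `i < j ≤ V`.
`v = c i`, `e = (c i)⁻¹ * c j`: `v * e * v⁻¹ = c j * (c i)⁻¹ ∈ H` (`col_eq`), `N e = t (c i) (c j) = j - i`. -/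
theorem short_elt (hT : TreeN F N) (H : Subgroup G) {x y : G} (hxy : Lv F x y) (V : ℕ)
    (h1 : (cols F H N x y).ncard ≤ V) (h2 : V ≤ t N x y) :
    ∃ v e : G, Lv F x v ∧ e ∈ F ∧ e ≠ 1 ∧ N e ≤ V ∧ v * e * v⁻¹ ∈ H := by
  classical
  obtain ⟨c, hg, hc0, hcn, hseg⟩ := seg_eq hT hxy
  have hfin := (cols_card hT H hxy).1
  have hcard : hfin.toFinset.card ≤ V := by
    rw [← Set.ncard_eq_toFinset_card _ hfin]
    exact h1
  have key : ∀ i j, i < j → j ≤ V → col H (c i) = col H (c j) →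
      ∃ v e : G, Lv F x v ∧ e ∈ F ∧ e ≠ 1 ∧ N e ≤ V ∧ v * e * v⁻¹ ∈ H := by
    intro i j hij hj he
    have h3 := hg i j hij.le (by omega)
    have h4 := (hseg (c i)).2 ⟨i, by omega, rfl⟩
    refine ⟨c i, (c i)⁻¹ * c j, h4.1, h3.1, ?_, ?_, ?_⟩
    · intro h5
      have h6 : t N (c i) (c j) = 0 := by
        show N ((c i)⁻¹ * c j) = 0
        rw [h5]
        exact hT.one
      omega
    · have h6 : N ((c i)⁻¹ * c j) = j - i := h3.2
      omega
    · have h7 : c i * ((c i)⁻¹ * c j) * (c i)⁻¹ = c j * (c i)⁻¹ := by group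
      rw [h7]
      exact ((col_eq H (c i) (c j)).1).1 he
  obtain ⟨i, hi, j, hj, hij, heq⟩ := Finset.exists_ne_map_eq_of_card_lt_of_maps_to
    (s := Finset.range (V + 1)) (t := hfin.toFinset) (f := fun k => col H (c k))
    (by rw [Finset.card_range]; omega) (by
      intro k hk
      have hk' : k < V + 1 := Finset.mem_range.1 (Finset.mem_coe.1 hk)
      rw [Finset.mem_coe, Set.Finite.mem_toFinset]
      exact ⟨c k, (hseg (c k)).2 ⟨k, by omega, rfl⟩, rfl⟩)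
  rw [Finset.mem_range] at hi hj
  rcases lt_or_gt_of_ne hij with h8 | h8
  · exact key i j h8 (by omega) heq
  · exact key j i h8 (by omega) heq.symm

/-- (R2c, S) PROOF. A point `v` between `1` and `h` has `h' ∈ H` with `t v h' ≤ CH`, `col v = col (h'⁻¹ * v)` (`col_eq`), and `N (h'⁻¹ * v) ≤ CH`: the colours are in the image of the finite set. -/
theorem cols_base (hT : TreeN F N) {H : Subgroup G} (hH : H ≤ F) (CH : ℕ)
    (hCH : ∀ h ∈ H, ∀ v ∈ F, Btw N 1 v h → ∃ h' ∈ H, t N v h' ≤ CH) (hfin : {f | f ∈ F ∧ N f ≤ CH}.Finite) :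
    ∃ V0 : ℕ, ∀ h ∈ H, (cols F H N 1 h).Finite ∧ (cols F H N 1 h).ncard ≤ V0 := by
  refine ⟨(col H '' {f | f ∈ F ∧ N f ≤ CH}).ncard, fun h hh => ?_⟩
  have hsub : cols F H N 1 h ⊆ col H '' {f | f ∈ F ∧ N f ≤ CH} := by
    rintro _ ⟨v, ⟨hv, hb⟩, rfl⟩
    have hvF : v ∈ F := by
      have h1 : (1 : G)⁻¹ * v ∈ F := hv
      rwa [inv_one, one_mul] at h1
    obtain ⟨h', hh', ht⟩ := hCH h hh v hvF hb
    have h2 : v⁻¹ * h' ∈ F := F.mul_mem (F.inv_mem hvF) (hH hh')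
    have h3 : h'⁻¹ * v = (v⁻¹ * h')⁻¹ := by group
    refine ⟨h'⁻¹ * v, ⟨?_, ?_⟩, ?_⟩
    · rw [h3]
      exact F.inv_mem h2
    · rw [h3, hT.inv _ h2]
      exact ht
    · exact (col_eq H v v).2.1 h'⁻¹ (H.inv_mem hh')
  have hf := hfin.image (col H)
  exact ⟨hf.subset hsub, Set.ncard_le_ncard hsub hf⟩

end H15M
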