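import Pool.Agent.Lib.H15M.S8

/-! # H15M, chunk S10 (S/M): the level path is long, the gap -/

namespace H15M

variable {G : Type} [Group G] {F : Subgroup G} {d : G → G → ℕ} {N : G → ℕ} {δ K : ℕ} {η : ℕ → ℕ}

/-- (S10a, S) The level path from `w` to `F` is long. PROOF. `x m ∈ F`, `d w (x m) ≤ m` (steps). `g = w' * w⁻¹ ∈ F` (`F` is normal), so `g * x m ∈ F` and
`n0 < d w' (g * x m) = d w (x m) ≤ m` (`left` with `g`, `g * w = w'`). -/
theorem long_path (hc : Ctx F d N δ K η) {w w' : G} (hw : Lv F w' w) (n0 : ℕ) (h : ∀ f ∈ F, n0 < d w' f) {m : ℕ}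
    {x : ℕ → G} (hx : LPath F d m x) (h0 : x 0 = w) (hm : x m ∈ F) : n0 < m := by
  have hst : ∀ i, i ≤ m → d w (x i) ≤ i := by
    intro i
    induction i with
    | zero =>
      intro _
      rw [h0, hc.hyp.self]
    | succ i ih =>
      intro hi
      have h1 := hc.hyp.tri w (x i) (x (i + 1))
      have h2 := ih (by omega)
      have h3 := hx.step i (by omega)
      omega
  have hg : w' * w⁻¹ ∈ F := by
    have h1 : w'⁻¹ * w ∈ F := hw
    have h2 := hc.normal.conj_mem _ h1 w'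
    have h3 : w' * (w'⁻¹ * w) * w'⁻¹ = w * w'⁻¹ := by group
    rw [h3] at h2
    have h4 := F.inv_mem h2
    have h5 : (w * w'⁻¹)⁻¹ = w' * w⁻¹ := by group
    rwa [h5] at h4
  have h1 := h _ (F.mul_mem hg hm)
  have h2 := hc.left (w' * w⁻¹) w (x m)
  rw [inv_mul_cancel_right] at h2
  have h3 := hst m le_rfl
  omega

/-- (S10b, S/M) PROOF. `E0, R0` from `fellow_sec hc K5`; `C3 = (K * V + R0) + (K * E + R0) + C2`. Suppose `t (ρm (z j)) (ρp (z j)) ≤ V`, `j + C3 ≤ m`. `fellow_sec` for `i ↦ z (j + i)`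
(`lp_shift`; `m - j` steps) at `k' = K * V + R0` gives `t (ρm (z (j + k'))) (ρp (z (j + k'))) ≤ E0`, and `j + k' + C2 ≤ m`: contradiction. -/
theorem gap (hc : Ctx F d N δ K η) (K5 : ℕ) : ∃ E0 : ℕ, ∀ E V C2 : ℕ, ∃ C3 : ℕ, ∀ ρm ρp : G → G, Sec F d N K5 ρm →
    Sec F d N K5 ρp → ∀ (m : ℕ) (z : ℕ → G), LPath F d m z → t N (ρm (z m)) (ρp (z m)) ≤ E →
    (∀ i, i + C2 ≤ m → E0 < t N (ρm (z i)) (ρp (z i))) → ∀ j, j + C3 ≤ m → V < t N (ρm (z j)) (ρp (z j)) := by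
  obtain ⟨E0, R0, hE⟩ := fellow_sec hc K5
  refine ⟨E0, fun E V C2 => ⟨(K * V + R0) + (K * E + R0) + C2, ?_⟩⟩
  intro ρm ρp hm hp m z hz hEnd hfar j hj
  by_contra hV
  rw [not_lt] at hV
  have h1 := hE E V ρm ρp hm hp (m - j) (fun i => z (j + i)) (lp_shift hz j (by omega)) (by simpa using hV)
    (by
      have h2 : j + (m - j) = m := by omega
      simpa only [h2] using hEnd) (K * V + R0) le_rfl (by omega)
  have h2 := hfar (j + (K * V + R0)) (by omega)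
  exact absurd h2 (not_lt.2 h1)

end H15M
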