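import Pool.Agent.Lib.H15M.P4
import Pool.Agent.Lib.H15M.R1
import Pool.Agent.Lib.H15M.R2
import Pool.Agent.Lib.H15M.S10

/-! # H15M, chunk M1 (M/L): many levels with short elements -/

namespace H15M

variable {G : Type} [Group G] {F : Subgroup G} {d : G → G → ℕ} {N : G → ℕ} {δ K : ℕ} {η : ℕ → ℕ}

theorem m1_pick (hc : Ctx F d N δ K η) {m : ℕ} {z : ℕ → G} (hz : LPath F d m z) {i0 n k : ℕ} (hk : 1 ≤ k)
    (hm : (i0 + n) * k ≤ m) {V : ℕ} {H : Subgroup G}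
    (h : ∀ l, l < n → ∃ v e : G, Lv F (z ((i0 + l) * k)) v ∧ e ∈ F ∧ e ≠ 1 ∧ N e ≤ V ∧ v * e * v⁻¹ ∈ H) :
    ∃ S : Finset G, S.card = n ∧ (∀ g ∈ S, ∃ e ∈ F, e ≠ 1 ∧ N e ≤ V ∧ g * e * g⁻¹ ∈ H) ∧
      ∀ g ∈ S, ∀ g' ∈ S, Lv F g g' → g = g' := by
  classical
  have h' : ∀ l, ∃ v e : G, l < n → (Lv F (z ((i0 + l) * k)) v ∧ e ∈ F ∧ e ≠ 1 ∧ N e ≤ V ∧ v * e * v⁻¹ ∈ H) := by
    intro l
    by_cases hl : l < n
    · obtain ⟨v, e, h1⟩ := h l hl
      exact ⟨v, e, fun _ => h1⟩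
    · exact ⟨1, 1, fun h1 => absurd h1 hl⟩
  choose v e hv using h'
  have key1 : ∀ l l', l < l' → l' < n → ¬ Lv F (v l) (v l') := by
    intro l l' h1 h2 h3
    have h4 := (hv l (h1.trans h2)).1
    have h5 := (hv l' h2).1
    have h6 : (i0 + l) * k < (i0 + l') * k := Nat.mul_lt_mul_of_pos_right (by omega) hk
    have h7 : (i0 + l') * k ≤ (i0 + n) * k := Nat.mul_le_mul_right k (by omega)
    have h8 := hz.low _ _ h6.le (h7.trans hm) (v l') (v l') (lv_trans h4 h3) h5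
    rw [hc.hyp.self] at h8
    omega
  have key : ∀ l, l < n → ∀ l', l' < n → Lv F (v l) (v l') → l = l' := by
    intro l hl l' hl' h3
    rcases lt_trichotomy l l' with h4 | h4 | h4
    · exact absurd h3 (key1 l l' h4 hl')
    · exact h4
    · exact absurd (lv_symm h3) (key1 l' l h4 hl)
  refine ⟨(Finset.range n).image v, ?_, ?_, ?_⟩
  · rw [Finset.card_image_of_injOn, Finset.card_range]
    intro l hl l' hl' he
    have hl1 : l < n := Finset.mem_range.1 (by exact_mod_cast hl)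
    have hl2 : l' < n := Finset.mem_range.1 (by exact_mod_cast hl')
    have he' : v l = v l' := he
    exact key l hl1 l' hl2 (by rw [he']; exact lv_refl F _)
  · intro g hg
    obtain ⟨l, hl, rfl⟩ := Finset.mem_image.1 hg
    exact ⟨e l, (hv l (Finset.mem_range.1 hl)).2⟩
  · intro g hg g' hg' hl
    obtain ⟨l, hl1, rfl⟩ := Finset.mem_image.1 hg
    obtain ⟨l', hl2, rfl⟩ := Finset.mem_image.1 hg'
    rw [key l (Finset.mem_range.1 hl1) l' (Finset.mem_range.1 hl2) hl]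

/-- (M1, M/L) PROOF. `K5 = c5 K K1`, `Base F d N K5` from `hB` (`sec_mono`). `E0` from `gap hc K5`; `E, C2` from `claimA hc K1 hB E0`; `k, c4` from `rec_step` for `E`; `V = c4 + 1`; `V0` from `cols_base` (`hfin`); `i0 = V0`, so
`V0 ≤ 4 ^ i0`; `C3` from `gap` for `E, V, C2`. Given `n`, take `h, w'` from `hhigh` for `n0 = (i0 + n) * k + C3`, then `ρm, ρp, w` from `claimA`, `x, m` from `lp_exists w 1` (so `x m ∈ F`), `n0 < m`
(`long_path`), `z i = x (m - i)` (`lp_rev`), `z m = w`. (i) For `j + C3 ≤ m`: `V < t (ρm (z j)) (ρp (z j))` (`gap`; `claimA` for `k = m - i`). (ii) `V i = ncard (cols (ρm (z (i * k))) (ρp (z (i * k))))` satisfies `rec_num` for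
`(i + 1) * k ≤ m`, and `V 0 ≤ V0`: `ρm (z 0) = ρm 1`, `ρp (z 0) = ρp 1` (level of `z 0 ∈ F`), `cols_mono`. So `V i ≤ V` for `i0 ≤ i`, `i * k ≤ m`. (iii) For `i = i0 + l`, `l < n`, `short_elt` at `j = i * k` gives `v l, e l` with
`v l` in the level of `z j`; the levels are different (`LPath.low` for `z`: `d u u = 0`). `S` = image of `range n` under `v`. -/
theorem levels (hc : Ctx F d N δ K η) (hCP : CP F N) (K1 : ℕ) (hB : Base F d N K1) {H : Subgroup G} (hH : H ≤ F)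
    (T : Finset G) (hTH : Subgroup.closure (T : Set G) = H) (hfin : ∀ n, {f | f ∈ F ∧ N f ≤ n}.Finite) (CH : ℕ)
    (hCH : ∀ h ∈ H, ∀ v ∈ F, Btw N 1 v h → ∃ h' ∈ H, t N v h' ≤ CH)
    (hhigh : ∀ n0 : ℕ, ∃ h ∈ H, ∃ w', d 1 w' + d w' h = d 1 h ∧ ∀ f ∈ F, n0 < d w' f) :
    ∃ V : ℕ, ∀ n : ℕ, ∃ S : Finset G, S.card = n ∧ (∀ g ∈ S, ∃ e ∈ F, e ≠ 1 ∧ N e ≤ V ∧ g * e * g⁻¹ ∈ H) ∧
      ∀ g ∈ S, ∀ g' ∈ S, Lv F g g' → g = g' := by
  have hK5 : K1 ≤ c5 K K1 := by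
    unfold c5
    omega
  have hB5 : Base F d N (c5 K K1) := fun g => by
    obtain ⟨ζ, h1, h2⟩ := hB g
    exact ⟨ζ, sec_mono h1 hK5, h2⟩
  obtain ⟨E0, hgap⟩ := gap hc (c5 K K1)
  obtain ⟨E, C2, hA⟩ := claimA hc K1 hB E0
  obtain ⟨k, c4, hk, hrec⟩ := rec_step hc hCP (c5 K K1) hB5 hH T hTH E
  obtain ⟨V0, hV0⟩ := cols_base hc.tree hH CH hCH (hfin CH)
  obtain ⟨C3, hC3⟩ := hgap E (c4 + 1) C2
  refine ⟨c4 + 1, fun n => ?_⟩
  obtain ⟨h, hhH, w', hw', hfar⟩ := hhigh ((V0 + n) * k + C3)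
  obtain ⟨ρm, ρp, w, hlw, hm, hp, hbm, hbp, hE, hfar2⟩ := hA h (hH hhH) w' hw'
  obtain ⟨m, x, hx, hx0, hxm⟩ := lp_exists hc w 1
  have hxmF : x m ∈ F := by
    unfold Lv at hxm
    rw [mul_one] at hxm
    exact (Subgroup.inv_mem_iff F).1 hxm
  have hlong := long_path hc hlw _ hfar hx hx0 hxmF
  have hz : LPath F d m (fun i => x (m - i)) := lp_rev hc hx
  set z : ℕ → G := fun i => x (m - i) with hzd
  have hzm : z m = w := by
    show x (m - m) = w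
    rw [Nat.sub_self, hx0]
  have hz0 : Lv F (z 0) 1 := by
    show Lv F (x (m - 0)) 1
    rw [Nat.sub_zero]
    exact hxm
  have hEz : t N (ρm (z m)) (ρp (z m)) ≤ E := by
    rw [hzm]
    exact hE
  have hgapz := hC3 ρm ρp hm hp m z hz hEz (fun i hi => hfar2 m x hx hx0 hxmF (m - i) (by omega) (by omega))
  have hV00 : (cols F H N (ρm (z (0 * k))) (ρp (z (0 * k)))).ncard ≤ V0 := by
    rw [zero_mul, hm.coset (z 0) 1 hz0, hp.coset (z 0) 1 hz0]
    have hh1 : Lv F 1 h := by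
      unfold Lv
      rw [inv_one, one_mul]
      exact hH hhH
    exact (Set.ncard_le_ncard (cols_mono hc.tree H hh1 (hm.mem 1) (hp.mem 1) hbm hbp) (hV0 h hhH).1).trans (hV0 h hhH).2
  have hVi : ∀ i, V0 ≤ i → i ≤ V0 + n → (cols F H N (ρm (z (i * k))) (ρp (z (i * k)))).ncard ≤ c4 + 1 := by
    intro i h1 h2
    refine rec_num (fun i => (cols F H N (ρm (z (i * k))) (ρp (z (i * k)))).ncard) c4 (V0 + n) (fun i hi => ?_) i h2 ?_
    · have h3 : (i + 1) * k = i * k + k := by ring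
      have h4 : (i + 1) * k ≤ (V0 + n) * k := Nat.mul_le_mul_right k (by omega)
      have h5 := hrec ρm ρp hm hp m z hz hEz (i * k) (by omega)
      show 4 * (cols F H N (ρm (z ((i + 1) * k))) (ρp (z ((i + 1) * k)))).ncard ≤ _
      rw [h3]
      exact h5
    · have h3 : V0 < 4 ^ V0 := Nat.lt_pow_self (by norm_num)
      have h4 : 4 ^ V0 ≤ 4 ^ i := Nat.pow_le_pow_right (by norm_num) h1
      exact hV00.trans (h3.le.trans h4)
  refine m1_pick hc hz (i0 := V0) (n := n) (k := k) hk (by omega) (fun l hl => ?_)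
  have h6 : (V0 + l) * k ≤ (V0 + n) * k := Nat.mul_le_mul_right k (by omega)
  have hl1 : Lv F (z ((V0 + l) * k)) (ρm (z ((V0 + l) * k))) := hm.mem _
  have hl2 : Lv F (z ((V0 + l) * k)) (ρp (z ((V0 + l) * k))) := hp.mem _
  obtain ⟨v, e, g1, g2, g3, g4, g5⟩ := short_elt hc.tree H (lv_trans (lv_symm hl1) hl2) (c4 + 1)
    (hVi (V0 + l) (by omega) (by omega)) (hgapz ((V0 + l) * k) (by omega)).le
  exact ⟨v, e, lv_trans hl1 g1, g2, g3, g4, g5⟩

end H15M
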