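import Pool.Agent.Lib.H15M.CDefs
import Pool.Agent.Lib.H15M.C2

/-! # H15M, chunk M2 (M): pigeonhole -/

namespace H15M

open Finset Classical

variable {G : Type} [Group G] {F : Subgroup G} {N : G → ℕ}

/-- (M2, M) Pigeonhole. -/
theorem pigeon (hF : F.Normal) {H : Subgroup G} (hH : H ≤ F) (hfin : ∀ n, {f | f ∈ F ∧ N f ≤ n}.Finite) (V : ℕ)
    (h : ∀ n : ℕ, ∃ S : Finset G, S.card = n ∧ (∀ g ∈ S, ∃ e ∈ F, e ≠ 1 ∧ N e ≤ V ∧ g * e * g⁻¹ ∈ H) ∧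
      ∀ g ∈ S, ∀ g' ∈ S, Lv F g g' → g = g') :
    ∃ e ∈ F, e ≠ 1 ∧ {κ | ∃ g, col H g = κ ∧ g * e * g⁻¹ ∈ H}.Infinite := by
  by_contra hcon
  have hf : ∀ e ∈ F, e ≠ 1 → {κ | ∃ g, col H g = κ ∧ g * e * g⁻¹ ∈ H}.Finite := by
    intro e he h1
    by_contra h2
    exact hcon ⟨e, he, h1, h2⟩
  have hE : {e | e ∈ F ∧ N e ≤ V ∧ e ≠ 1}.Finite := (hfin V).subset fun e he => ⟨he.1, he.2.1⟩
  have hB : (⋃ e ∈ {e | e ∈ F ∧ N e ≤ V ∧ e ≠ 1},
      ({e} : Set G) ×ˢ {κ | ∃ g, col H g = κ ∧ g * e * g⁻¹ ∈ H}).Finite := by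
    refine hE.biUnion fun e he => ?_
    exact (Set.finite_singleton e).prod (hf e he.1 he.2.2)
  obtain ⟨S, hS, hS1, hS2⟩ := h (hB.toFinset.card + 1)
  choose! e he using hS1
  have hcard : S.card ≤ hB.toFinset.card := by
    refine Finset.card_le_card_of_injOn (fun g => (e g, col H g)) ?_ ?_
    · intro g hg
      have hg' : g ∈ S := by exact_mod_cast hg
      obtain ⟨k1, k2, k3, k4⟩ := he g hg'
      rw [Set.Finite.coe_toFinset]
      refine Set.mem_biUnion (x := e g) ⟨k1, k3, k2⟩ ?_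
      exact ⟨rfl, g, rfl, k4⟩
    · intro g hg g' hg' hgg
      have hg1 : g ∈ S := by exact_mod_cast hg
      have hg2 : g' ∈ S := by exact_mod_cast hg'
      have h1 : col H g = col H g' := (Prod.mk.inj hgg).2
      rw [(col_eq H g g').1] at h1
      refine hS2 g hg1 g' hg2 ?_
      have h2 := hF.conj_mem _ (hH h1) g⁻¹
      have h3 : g⁻¹ * (g' * g⁻¹) * g⁻¹⁻¹ = g⁻¹ * g' := by group
      rw [h3] at h2
      exact h2
  omega

end H15M
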