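import Pool.Agent.Lib.H15M.S1

/-! # H15M, chunk S2 (S/M): growth along paths -/

namespace H15M

variable {G : Type} [Group G] {F : Subgroup G} {d : G → G → ℕ} {N : G → ℕ} {δ K : ℕ} {η : ℕ → ℕ}

theorem s2_step (hc : Ctx F d N δ K η) {K1 : ℕ} {ρ τ : G → G} (hρ : Sec F d N K1 ρ) (hτ : Sec F d N K1 τ)
    {x y : G} (h : d x y ≤ 1) :
    t N (ρ y) (τ y) + 2 * K1 ≤ K * (t N (ρ x) (τ x) + 2 * K1) := by
  obtain ⟨s, hs, rfl⟩ := step_of hc h
  have hT := hc.tree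
  have l1 : Lv F (x * s) (ρ (x * s)) := hρ.mem _
  have l2 : Lv F (x * s) (τ (x * s)) := hτ.mem _
  have l3 : Lv F (x * s) (ρ x * s) := lv_right hc.normal s (hρ.mem x)
  have l4 : Lv F (x * s) (τ x * s) := lv_right hc.normal s (hτ.mem x)
  have l5 : Lv F (ρ x) (τ x) := lv_trans (lv_symm (hρ.mem x)) (hτ.mem x)
  have l6 : Lv F (ρ (x * s)) (ρ x * s) := lv_trans (lv_symm l1) l3
  have l7 : Lv F (ρ x * s) (τ x * s) := lv_trans (lv_symm l3) l4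
  have l8 : Lv F (τ x * s) (τ (x * s)) := lv_trans (lv_symm l4) l2
  have h1 := t_tri hT l6 (lv_trans l7 l8)
  have h2 := t_tri hT l7 l8
  have h3 := t_symm hT l6
  have h4 := hρ.lip x s hs
  have h5 := hτ.lip x s hs
  have h6 := t_right hc hs l5
  have h7 : 2 * (2 * K1) ≤ K * (2 * K1) := Nat.mul_le_mul_right _ hc.K2
  rw [Nat.mul_add]
  omega

theorem s2_step2 (hc : Ctx F d N δ K η) {K1 : ℕ} {ρ : G → G} (hρ : Sec F d N K1 ρ)
    {v x y : G} (h : d x y ≤ 1) (hv : Lv F v x) :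
    t N (v * (x⁻¹ * y)) (ρ y) + K1 ≤ K * (t N v (ρ x) + K1) := by
  obtain ⟨s, hs, rfl⟩ := step_of hc h
  have hT := hc.tree
  rw [inv_mul_cancel_left]
  have l1 : Lv F (x * s) (ρ (x * s)) := hρ.mem _
  have l3 : Lv F (x * s) (ρ x * s) := lv_right hc.normal s (hρ.mem x)
  have l4 : Lv F (v * s) (x * s) := lv_right hc.normal s hv
  have l5 : Lv F v (ρ x) := lv_trans hv (hρ.mem x)
  have h1 := t_tri hT (lv_trans l4 l3) (lv_trans (lv_symm l3) l1)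
  have h4 := hρ.lip x s hs
  have h6 := t_right hc hs l5
  have h7 : 2 * K1 ≤ K * K1 := Nat.mul_le_mul_right _ hc.K2
  rw [Nat.mul_add]
  omega

/-- (S2a) PROOF. Induction on `n`. `x (n + 1) = x n * s`. `a' = t (ρ (x n * s)) (τ (x n * s)) ≤ t (ρ (x n * s)) (ρ (x n) * s) +
t (ρ (x n) * s) (τ (x n) * s) + t (τ (x n) * s) (τ (x n * s)) ≤ K * a + 2 * K1` (`hρ.lip`, `t_right`, `t_symm`; all points are in
the level of `x n * s`). So `a' + 2 * K1 ≤ K * (a + 2 * K1)` because `2 ≤ K`. -/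
theorem sec_grow (hc : Ctx F d N δ K η) {K1 : ℕ} {ρ τ : G → G} (hρ : Sec F d N K1 ρ) (hτ : Sec F d N K1 τ) (n : ℕ)
    (x : ℕ → G) (hx : ∀ i, i < n → d (x i) (x (i + 1)) ≤ 1) :
    t N (ρ (x n)) (τ (x n)) + 2 * K1 ≤ K ^ n * (t N (ρ (x 0)) (τ (x 0)) + 2 * K1) := by
  induction n with
  | zero => rw [pow_zero, one_mul]
  | succ n ih =>
    have h1 := ih fun i hi => hx i (Nat.lt_succ_of_lt hi)
    have h2 := s2_step hc hρ hτ (hx n (Nat.lt_succ_self n))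
    calc _ ≤ K * (t N (ρ (x n)) (τ (x n)) + 2 * K1) := h2
      _ ≤ K * (K ^ n * (t N (ρ (x 0)) (τ (x 0)) + 2 * K1)) := Nat.mul_le_mul_left _ h1
      _ = _ := by rw [pow_succ]; ring

/-- (S2b) PROOF. Induction on `n`. With `u = (x 0)⁻¹ * x n`, `x (n + 1) = x n * s`: `b' = t (ρ (x 0) * u * s) (ρ (x n * s)) ≤
t (ρ (x 0) * u * s) (ρ (x n) * s) + t (ρ (x n) * s) (ρ (x n * s)) ≤ K * b + K1`, so `b' + K1 ≤ K * (b + K1)`. -/
theorem sec_lift (hc : Ctx F d N δ K η) {K1 : ℕ} {ρ : G → G} (hρ : Sec F d N K1 ρ) (n : ℕ)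
    (x : ℕ → G) (hx : ∀ i, i < n → d (x i) (x (i + 1)) ≤ 1) :
    t N (ρ (x 0) * ((x 0)⁻¹ * x n)) (ρ (x n)) + K1 ≤ K ^ n * K1 := by
  have hlv : ∀ n, Lv F (ρ (x 0) * ((x 0)⁻¹ * x n)) (x n) := by
    intro n
    have h := lv_right hc.normal ((x 0)⁻¹ * x n) (hρ.mem (x 0))
    rw [mul_inv_cancel_left] at h
    exact lv_symm h
  induction n with
  | zero =>
    rw [pow_zero, one_mul, inv_mul_cancel, mul_one, t_self hc.tree, Nat.zero_add]
  | succ n ih =>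
    have h1 := ih fun i hi => hx i (Nat.lt_succ_of_lt hi)
    have h2 := s2_step2 hc hρ (hx n (Nat.lt_succ_self n)) (hlv n)
    have e : ρ (x 0) * ((x 0)⁻¹ * x n) * ((x n)⁻¹ * x (n + 1)) = ρ (x 0) * ((x 0)⁻¹ * x (n + 1)) := by
      group
    rw [e] at h2
    calc _ ≤ K * (t N (ρ (x 0) * ((x 0)⁻¹ * x n)) (ρ (x n)) + K1) := h2
      _ ≤ K * (K ^ n * K1) := Nat.mul_le_mul_left _ h1
      _ = _ := by rw [pow_succ]; ring

/-- (S2c) PROOF. Induction on `n`, `t_right`. -/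
theorem t_path (hc : Ctx F d N δ K η) (n : ℕ) (x : ℕ → G) (hx : ∀ i, i < n → d (x i) (x (i + 1)) ≤ 1) (v w : G)
    (h : Lv F v w) : t N (v * ((x 0)⁻¹ * x n)) (w * ((x 0)⁻¹ * x n)) ≤ K ^ n * t N v w := by
  induction n with
  | zero => rw [pow_zero, one_mul, inv_mul_cancel, mul_one, mul_one]
  | succ n ih =>
    have h1 := ih fun i hi => hx i (Nat.lt_succ_of_lt hi)
    obtain ⟨s, hs, he⟩ := step_of hc (hx n (Nat.lt_succ_self n))
    have h2 := t_right hc hs (lv_right hc.normal ((x 0)⁻¹ * x n) h)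
    rw [he]
    have e1 : ∀ u : G, u * ((x 0)⁻¹ * (x n * s)) = u * ((x 0)⁻¹ * x n) * s := fun u => by group
    rw [e1, e1]
    calc _ ≤ K * t N (v * ((x 0)⁻¹ * x n)) (w * ((x 0)⁻¹ * x n)) := h2
      _ ≤ K * (K ^ n * t N v w) := Nat.mul_le_mul_left _ h1
      _ = _ := by rw [pow_succ]; ring

end H15M
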