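import Pool.Agent.Lib.H15M.S7
import Pool.Agent.Lib.H15M.S2
import Pool.Agent.Lib.H15M.A4
import Pool.Agent.Lib.H15M.A5

/-! # H15M, chunk P1 (M): Gromov products and sections -/

namespace H15M

variable {G : Type} [Group G] {F : Subgroup G} {d : G → G → ℕ} {N : G → ℕ} {δ K : ℕ} {η : ℕ → ℕ}

/-- (P1a, M) PROOF. `D4` from `seq_near δ (1 + K * K8) 0`, `D5` from `seq_near δ (1 + K * K8) (2 * δ + 1 + 2 * (K * E'))`, `D = 2 * D4 + D5`. Let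
`w = ρ0 (x 0)`, `p = ρ0 (x k)`, `c = ρ (y 0)`, and `o` from `center w p c`: `gp d o w p = 0`, `2 * d w o ≤ gp d w c p`, `gp d o c p ≤ 2 * δ + 1`.
`seq_near` for `ρ0 ∘ x` on `0 … k` (`lp_take`, `lp_sec`): `i ≤ k` with `d o (ρ0 (x i)) ≤ D4`. `ρ (y l) = ρ (x k)` and `d p (ρ (x k)) ≤ K * E'`, so
`gp d o c (ρ (y l)) ≤ 2 * δ + 1 + 2 * (K * E')` (`gp_move`, `gp_symm`); `seq_near` for `ρ ∘ y` on `0 … l`: `j ≤ l` with `d o (ρ (y j)) ≤ D5`.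
`i ≤ d w (ρ0 (x i)) ≤ d w o + D4` (`low`), so `2 * i ≤ gp + 2 * D4`. -/
theorem side0 (hc : Ctx F d N δ K η) (K8 E' : ℕ) : ∃ D : ℕ, ∀ ρ0 ρ : G → G, Sec F d N K8 ρ0 → Sec F d N K8 ρ →
    ∀ (m : ℕ) (x : ℕ → G), LPath F d m x → ∀ k, k ≤ m → ∀ (l : ℕ) (y : ℕ → G), LPath F d l y → Lv F (y l) (x k) →
    t N (ρ0 (x k)) (ρ (x k)) ≤ E' → ∃ i, i ≤ k ∧ ∃ j, j ≤ l ∧
      2 * (i : ℤ) ≤ gp d (ρ0 (x 0)) (ρ (y 0)) (ρ0 (x k)) + D ∧ d (ρ0 (x i)) (ρ (y j)) ≤ D := by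
  obtain ⟨D4, hD4⟩ := seq_near δ (1 + K * K8) 0
  obtain ⟨D5, hD5⟩ := seq_near δ (1 + K * K8) (2 * δ + 1 + 2 * (K * E'))
  refine ⟨2 * D4 + D5, fun ρ0 ρ h0 hρ m x hx k hk l y hy hl ht => ?_⟩
  obtain ⟨o, ho1, ho2, ho3⟩ := center hc.hyp (ρ0 (x 0)) (ρ0 (x k)) (ρ (y 0))
  have h1 : gp d o (ρ0 (x 0)) (ρ0 (x k)) ≤ ((0 : ℕ) : ℤ) := by
    unfold gp
    rw [hc.hyp.symm o (ρ0 (x 0))]
    omega
  have hq0 : QSeq d (1 + K * K8) k (fun i => ρ0 (x i)) := lp_sec hc h0 (lp_take hx k hk)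
  have hq1 : QSeq d (1 + K * K8) l (fun i => ρ (y i)) := lp_sec hc hρ hy
  obtain ⟨i, hi, hi'⟩ := hD4 d hc.hyp k (fun i => ρ0 (x i)) hq0 o h1
  have h2 : ρ (y l) = ρ (x k) := hρ.coset _ _ hl
  have hlv : Lv F (ρ0 (x k)) (ρ (x k)) := lv_trans (lv_symm (h0.mem (x k))) (hρ.mem (x k))
  have h3 : d (ρ0 (x k)) (ρ (x k)) ≤ K * E' := (d_le hc hlv).trans (Nat.mul_le_mul_left _ ht)
  have h4 : gp d o (ρ (y 0)) (ρ (y l)) ≤ ((2 * δ + 1 + 2 * (K * E') : ℕ) : ℤ) := by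
    rw [h2, gp_symm hc.hyp]
    have h5 := gp_move hc.hyp o (ρ (x k)) (ρ0 (x k)) (ρ (y 0))
    rw [hc.hyp.symm (ρ (x k)) (ρ0 (x k)), gp_symm hc.hyp o (ρ0 (x k))] at h5
    push_cast
    have h6 : (d (ρ0 (x k)) (ρ (x k)) : ℤ) ≤ K * E' := by exact_mod_cast h3
    linarith
  obtain ⟨j, hj, hj'⟩ := hD5 d hc.hyp l (fun i => ρ (y i)) hq1 o h4
  refine ⟨i, hi, j, hj, ?_, ?_⟩
  · have h7 : i - 0 ≤ d (ρ0 (x 0)) (ρ0 (x i)) := hq0.low 0 i (Nat.zero_le _) hi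
    have h8 := hc.hyp.tri (ρ0 (x 0)) o (ρ0 (x i))
    have h9 : d o (ρ0 (x i)) ≤ D4 := hi'
    have h10 : i ≤ d (ρ0 (x 0)) o + D4 := by omega
    have h11 : (i : ℤ) ≤ d (ρ0 (x 0)) o + D4 := by exact_mod_cast h10
    push_cast
    have h12 : (0 : ℤ) ≤ D5 := by positivity
    linarith
  · have h8 := hc.hyp.tri (ρ0 (x i)) o (ρ (y j))
    rw [hc.hyp.symm (ρ0 (x i)) o] at h8
    have h9 : d o (ρ0 (x i)) ≤ D4 := hi'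
    have h10 : d o (ρ (y j)) ≤ D5 := hj'
    omega

end H15M
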