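import Pool.Agent.Lib.H15M.P1

/-! # H15M, chunk P2 (M): large Gromov products -/

namespace H15M

variable {G : Type} [Group G] {F : Subgroup G} {d : G → G → ℕ} {N : G → ℕ} {δ K : ℕ} {η : ℕ → ℕ}

/-- (P2a, M) PROOF. `D` from `side0`, `E1 = η (D + (1 + K * K8) * D)`, `E = K ^ (R + D) * (E1 + 2 * K8) + 1`. Given `c` take `y` from `lp_exists c (x k)`
(`y 0 = c`). `side0` gives `i, j`. `d (ρ (x i)) (ρ (y j)) ≤ (1 + K * K8) * d (ρ0 (x i)) (ρ (y j)) ≤ (1 + K * K8) * D` (`sec_dist'` with the points `ρ0 (x i)`,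
`ρ (y j)`), so `d (ρ0 (x i)) (ρ (x i)) ≤ D + (1 + K * K8) * D` and `t (ρ0 (x i)) (ρ (x i)) ≤ E1` (`t_le`). `sec_grow` for the reversed path
`l ↦ x (i - l)`, `i` steps: `E ≤ t (ρ0 (x 0)) (ρ (x 0)) ≤ K ^ i * (E1 + 2 * K8)`. So `R + D < i` (otherwise `K ^ i ≤ K ^ (R + D)`), and
`2 * i ≤ gp + D` gives `R ≤ gp`. -/
theorem side1 (hc : Ctx F d N δ K η) (K8 E' R : ℕ) : ∃ E : ℕ, ∀ ρ0 ρ : G → G, Sec F d N K8 ρ0 → Sec F d N K8 ρ →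
    ∀ (m : ℕ) (x : ℕ → G), LPath F d m x → ∀ k, k ≤ m → t N (ρ0 (x k)) (ρ (x k)) ≤ E' →
    E ≤ t N (ρ0 (x 0)) (ρ (x 0)) → ∀ c, (R : ℤ) ≤ gp d (ρ0 (x 0)) (ρ c) (ρ0 (x k)) := by
  obtain ⟨D, hD⟩ := side0 hc K8 E'
  refine ⟨K ^ (R + D) * (η (D + (1 + K * K8) * D) + 2 * K8) + 1, ?_⟩
  intro ρ0 ρ h0 h1 m x hx k hk ht hE c
  obtain ⟨l, y, hy, hy0, hyl⟩ := lp_exists hc c (x k)
  obtain ⟨i, hi, j, hj, hgp, hij⟩ := hD ρ0 ρ h0 h1 m x hx k hk l y hy hyl ht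
  rw [hy0] at hgp
  have h2 : d (ρ (x i)) (ρ (y j)) ≤ (1 + K * K8) * d (ρ0 (x i)) (ρ (y j)) :=
    sec_dist' hc h1 (h0.mem (x i)) (h1.mem (y j))
  have h3 : d (ρ0 (x i)) (ρ (x i)) ≤ D + (1 + K * K8) * D := by
    have h4 := hc.hyp.tri (ρ0 (x i)) (ρ (y j)) (ρ (x i))
    rw [hc.hyp.symm (ρ (y j)) (ρ (x i))] at h4
    have h5 : (1 + K * K8) * d (ρ0 (x i)) (ρ (y j)) ≤ (1 + K * K8) * D := Nat.mul_le_mul_left _ hij
    omega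
  have hlv : Lv F (ρ0 (x i)) (ρ (x i)) := lv_trans (lv_symm (h0.mem (x i))) (h1.mem (x i))
  have h4 : t N (ρ0 (x i)) (ρ (x i)) ≤ η (D + (1 + K * K8) * D) := (t_le hc hlv).trans (hc.mono h3)
  have h5 := sec_grow hc h0 h1 i (fun l => x (i - l)) (fun l hl => by
    have h6 := hx.step (i - (l + 1)) (by omega)
    rw [show i - (l + 1) + 1 = i - l by omega, hc.hyp.symm] at h6
    exact h6)
  simp only [Nat.sub_self, Nat.sub_zero] at h5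
  have h6 : K ^ i * (t N (ρ0 (x i)) (ρ (x i)) + 2 * K8) ≤ K ^ i * (η (D + (1 + K * K8) * D) + 2 * K8) :=
    Nat.mul_le_mul_left _ (by omega)
  have h7 : R + D < i := by
    by_contra hcon
    have h8 : K ^ i ≤ K ^ (R + D) := Nat.pow_le_pow_right (by have := hc.K2; omega) (by omega)
    have h9 : K ^ i * (η (D + (1 + K * K8) * D) + 2 * K8) ≤ K ^ (R + D) * (η (D + (1 + K * K8) * D) + 2 * K8) :=
      Nat.mul_le_mul_right _ h8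
    omega
  omega

/-- (P2b, S/M) PROOF. `D` from `side0`, `C2 = R + 3 * D`. `y j = x (m - j)` for `j ≤ l = m - k` (`lp_rev`, `lp_take`); `y l = x k`, `y 0 = x m`, `ρ (x m) = ρ c`.
`side0`: `i ≤ k`, `j ≤ m - k`, `d (ρ0 (x i)) (ρ (x (m - j))) ≤ D`, so `(m - j) - i ≤ D` (`low`), `k ≤ m - j ≤ i + D`, and
`2 * k - 2 * D ≤ 2 * i ≤ gp + D`. -/
theorem side2 (hc : Ctx F d N δ K η) (K8 E' R : ℕ) : ∃ C2 : ℕ, ∀ ρ0 ρ : G → G, Sec F d N K8 ρ0 → Sec F d N K8 ρ →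
    ∀ (m : ℕ) (x : ℕ → G), LPath F d m x → ∀ k, C2 ≤ k → k ≤ m → t N (ρ0 (x k)) (ρ (x k)) ≤ E' →
    ∀ c, Lv F (x m) c → (R : ℤ) ≤ gp d (ρ0 (x 0)) (ρ c) (ρ0 (x k)) := by
  obtain ⟨D, hD⟩ := side0 hc K8 E'
  refine ⟨R + 3 * D, ?_⟩
  intro ρ0 ρ h0 h1 m x hx k hCk hk ht c hcm
  have hy : LPath F d (m - k) fun j => x (m - j) := lp_take (lp_rev hc hx) (m - k) (by omega)
  obtain ⟨i, hi, j, hj, hgp, hij⟩ := hD ρ0 ρ h0 h1 m x hx k hk (m - k) (fun j => x (m - j)) hy (by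
    show Lv F (x (m - (m - k))) (x k)
    rw [show m - (m - k) = k by omega]
    exact lv_refl F _) ht
  simp only [Nat.sub_zero] at hgp
  rw [h1.coset _ _ hcm] at hgp
  have h2 := hx.low i (m - j) (by omega) (by omega) _ _ (h0.mem (x i)) (h1.mem (x (m - j)))
  have h3 : m - j - i ≤ D := h2.trans hij
  omega

end H15M
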