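import Pool.Agent.Lib.H15M.S3

/-! # H15M, chunk S6 (M): paths cross the sections of a ladder -/

namespace H15M

variable {G : Type} [Group G] {F : Subgroup G} {d : G → G → ℕ} {N : G → ℕ} {δ K : ℕ} {η : ℕ → ℕ}

theorem s6_step (hc : Ctx F d N δ K η) {K1 K5 : ℕ} {α β ρ : G → G} (hα : Sec F d N K1 α) (hβ : Sec F d N K1 β)
    (hρ : Sec F d N K5 ρ) (hb : ∀ x, Btw N (α x) (ρ x) (β x)) {x s : G} (hs : d 1 s ≤ 1)
    (h : Btw N (α x) (md F N (α x) (β x) x) (ρ x))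
    (h' : ¬ Btw N (α (x * s)) (md F N (α (x * s)) (β (x * s)) (x * s)) (ρ (x * s))) :
    t N (md F N (α (x * s)) (β (x * s)) (x * s)) (ρ (x * s)) ≤ 3 * (2 * K ^ 3 + K) + 5 * K1 + K5 := by
  have hT := hc.tree
  have lαβ : ∀ y, Lv F (α y) (β y) := fun y => lv_trans (lv_symm (hα.mem y)) (hβ.mem y)
  have lαρ : ∀ y, Lv F (α y) (ρ y) := fun y => lv_trans (lv_symm (hα.mem y)) (hρ.mem y)
  have lαx : ∀ y, Lv F (α y) y := fun y => lv_symm (hα.mem y)
  have hm := md_spec hT (lαβ x) (lαx x)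
  have hm' := md_spec hT (lαβ (x * s)) (lαx (x * s))
  obtain ⟨v, hv⟩ : ∃ v, v = md F N (α x) (β x) x := ⟨_, rfl⟩
  obtain ⟨v', hv'⟩ : ∃ v', v' = md F N (α (x * s)) (β (x * s)) (x * s) := ⟨_, rfl⟩
  rw [← hv] at h hm
  rw [← hv'] at h' hm' ⊢
  have lv1 : Lv F (α x) v := hm.1
  have lv2 : Lv F (α (x * s)) v' := hm'.1
  have h1 : Btw N (α (x * s)) (ρ (x * s)) v' := by
    rcases le_total (t N (α (x * s)) v') (t N (α (x * s)) (ρ (x * s))) with h2 | h2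
    · exact absurd (btw_lin hT lv2 (lαρ _) (lαβ _) hm'.2.1 (hb _) h2).1 h'
    · exact (btw_lin hT (lαρ _) lv2 (lαβ _) (hb _) hm'.2.1 h2).1
  have e1 : md F N (α (x * s)) (ρ (x * s)) v' = ρ (x * s) :=
    md_of hT (lαρ _) lv2 ⟨lαρ _, btw_right hT _ _, h1, btw_left hT _ _⟩
  have e2 : md F N (α x) (ρ x) v = v := md_btw hT (lαρ x) lv1 h
  have e3 := md_step hc hs (lαρ x) lv1
  rw [e2] at e3
  have e4 := md_step hc hs (lαβ x) (lαx x)
  rw [← hv] at e4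
  have r : ∀ {a b : G}, Lv F a b → Lv F (a * s) (b * s) := fun h => lv_right hc.normal s h
  have l1 : Lv F (α x * s) (α (x * s)) := lv_trans (r (lαx x)) (hα.mem (x * s))
  have l2 : Lv F (α x * s) (β (x * s)) := lv_trans (r (lαx x)) (hβ.mem (x * s))
  have l3 : Lv F (α x * s) (ρ (x * s)) := lv_trans (r (lαx x)) (hρ.mem (x * s))
  have l4 : Lv F (α x * s) (x * s) := r (lαx x)
  have l5 : Lv F (α x * s) v' := lv_trans l1 lv2
  have e5 := md_lip hT (r (lαβ x)) l4 l1 l2 l4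
  rw [← hv', t_self hT] at e5
  have e6 := md_lip hT (r (lαρ x)) (r lv1) l1 l3 l5
  rw [e1] at e6
  have k1 := hα.lip x s hs
  have k2 := hβ.lip x s hs
  have k3 := hρ.lip x s hs
  have m1 := (md_spec hT (r (lαβ x)) l4).1
  have m2 := (md_spec hT (r (lαρ x)) (r lv1)).1
  have t1 := t_tri hT (lv_trans (lv_symm (r lv1)) m1) (lv_trans (lv_symm m1) l5)
  have t2 := t_tri hT (lv_trans (lv_symm l5) (r lv1)) (lv_trans (lv_symm (r lv1)) l3)
  have t3 := t_tri hT (lv_trans (lv_symm (r lv1)) m2) (lv_trans (lv_symm m2) l3)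
  have t4 := t_symm hT (lv_trans (lv_symm l5) (r lv1))
  omega

/-- (S6, M) PROOF. Write `Π x = md (α x) (β x) x`. Call `i` left if `Btw (α (c i)) (Π (c i)) (ρ (c i))`. `0` is left. If `n` is left, then `Π (c n) = ρ (c n)`:
both are between `α` and `β` in the level of `c n`; `t α Π ≤ t α ρ` and `t ρ Π + t Π β = t ρ β` give `t Π ρ = 0`. Otherwise there is `i < n` with `i` left and `i + 1` not
left. Let `c (i + 1) = c i * s`, `v = Π (c i)`, `v' = Π (c (i + 1))`, and `α, ρ` (`α', ρ'`) the values at `c i` (`c (i + 1)`). `v'` and `ρ'` are between `α'` and `β'` and `v'` is not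
between `α'` and `ρ'`, so `ρ'` is between `α'` and `v'` (`btw_lin`) and `md α' ρ' v' = ρ'` (as a median: `md_of`). `t (v * s) v' ≤ 2 * K ^ 3 + K + 2 * K1` (as in `ret_lip`: `md_step`, `md_lip`);
`md α ρ v = v` (`v` between `α` and `ρ`), so `t (v * s) (md (α * s) (ρ * s) (v * s)) ≤ 2 * K ^ 3 + K` (`md_step`); by `md_lip` `t (md (α * s) (ρ * s) (v * s)) (md α' ρ' v') ≤ K1 + K5 + t (v * s) v'`. So
`t v' ρ' ≤ t v' (v * s) + (2 * K ^ 3 + K) + K1 + K5 + t (v * s) v'`: `K6 = 3 * (2 * K ^ 3 + K) + 5 * K1 + K5`. -/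
theorem cross (hc : Ctx F d N δ K η) (K1 K5 : ℕ) : ∃ K6 : ℕ, ∀ α β ρ : G → G, Sec F d N K1 α → Sec F d N K1 β →
    Sec F d N K5 ρ → (∀ x, Btw N (α x) (ρ x) (β x)) → ∀ (n : ℕ) (c : ℕ → G), (∀ i, i < n → d (c i) (c (i + 1)) ≤ 1) →
    Btw N (α (c 0)) (md F N (α (c 0)) (β (c 0)) (c 0)) (ρ (c 0)) →
    Btw N (ρ (c n)) (md F N (α (c n)) (β (c n)) (c n)) (β (c n)) →
    ∃ i, i ≤ n ∧ t N (md F N (α (c i)) (β (c i)) (c i)) (ρ (c i)) ≤ K6 := by
  refine ⟨3 * (2 * K ^ 3 + K) + 5 * K1 + K5, ?_⟩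
  intro α β ρ hα hβ hρ hb n c hcs h0 hn
  have hT := hc.tree
  by_cases hL : Btw N (α (c n)) (md F N (α (c n)) (β (c n)) (c n)) (ρ (c n))
  · refine ⟨n, le_rfl, ?_⟩
    have hm := (md_spec hT (lv_trans (lv_symm (hα.mem (c n))) (hβ.mem (c n))) (lv_symm (hα.mem (c n)))).2.1
    have hb' := hb (c n)
    unfold Btw at hL hn hm hb'
    omega
  · obtain ⟨i, hi, h1, h2⟩ : ∃ i, i < n ∧ Btw N (α (c i)) (md F N (α (c i)) (β (c i)) (c i)) (ρ (c i)) ∧
        ¬ Btw N (α (c (i + 1))) (md F N (α (c (i + 1))) (β (c (i + 1))) (c (i + 1))) (ρ (c (i + 1))) := by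
      by_contra hcon
      push Not at hcon
      apply hL
      have h3 : ∀ i, i ≤ n → Btw N (α (c i)) (md F N (α (c i)) (β (c i)) (c i)) (ρ (c i)) := by
        intro i
        induction i with
        | zero => exact fun _ => h0
        | succ i ih => exact fun hi => hcon i hi (ih (Nat.le_of_succ_le hi))
      exact h3 n le_rfl
    obtain ⟨s, hs, he⟩ := step_of hc (hcs i hi)
    refine ⟨i + 1, hi, ?_⟩
    rw [he] at h2 ⊢
    exact s6_step hc hα hβ hρ hb hs h1 h2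

end H15M
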