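import Pool.Agent.Lib.H15M.S4
import Pool.Agent.Lib.H15M.S6
import Pool.Agent.Lib.H15M.T5

/-! # H15M, chunk P3 (M): the two sides of a ladder -/

namespace H15M

variable {G : Type} [Group G] {F : Subgroup G} {d : G → G → ℕ} {N : G → ℕ} {δ K : ℕ} {η : ℕ → ℕ}

/-- (P3a, M) PROOF. If `t (α w) w ≤ E` take `ρ = α` (`sec_mono`: `K1 ≤ c5 K K1`; `btw_left`). Otherwise `lgeo` for `w, α w` gives `v` between `α w` and `w` with `t v w = E`; let
`ζ v = v` (`hB`) and `ρ x = md (α x) (β x) (ζ x)` (`sec_md`, `sec_btw`). `ρ w = md (α v) (β v) v = v` (`v` is in the level of `w`; `v` is between `α w` and `β w`: `btw_trans`; `md_btw`). -/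
theorem side_sec (hc : Ctx F d N δ K η) {K1 : ℕ} (hB : Base F d N K1) (E : ℕ) {α β : G → G} (hα : Sec F d N K1 α)
    (hβ : Sec F d N K1 β) (w : G) (hw : Btw N (α w) w (β w)) : ∃ ρ : G → G, Sec F d N (c5 K K1) ρ ∧
    (∀ x, Btw N (α x) (ρ x) (β x)) ∧ Btw N (α w) (ρ w) w ∧ t N (ρ w) w ≤ E ∧ (t N (ρ w) w = E ∨ ρ = α) := by
  have hT := hc.tree
  have lα : Lv F w (α w) := hα.mem w
  have lβ : Lv F w (β w) := hβ.mem w
  have lαβ : Lv F (α w) (β w) := lv_trans (lv_symm lα) lβ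
  by_cases hE : t N (α w) w ≤ E
  · refine ⟨α, sec_mono hα ?_, fun x => btw_left hT _ _, btw_left hT _ _, hE, Or.inr rfl⟩
    unfold c5
    omega
  · have hE' : E ≤ t N w (α w) := by
      rw [t_symm hT lα]
      omega
    obtain ⟨c, hc0, -, hc1, hc2⟩ := lgeo hT lα
    obtain ⟨l1, b1⟩ := hc1 E hE'
    have h1 := hc2 0 E (Nat.zero_le _) hE'
    rw [hc0, Nat.sub_zero] at h1
    set v : G := c E with hv
    have b2 : Btw N (α w) v w := btw_symm hT l1 lα b1
    have h2 : t N v w = E := by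
      rw [t_symm hT (lv_symm l1)]
      exact h1
    obtain ⟨ζ, hζ, hζv⟩ := hB v
    have hζw : ζ w = v := by
      rw [hζ.coset w v l1, hζv]
    have l2 : Lv F (α w) v := lv_trans (lv_symm lα) l1
    have b3 := btw_trans hT l2 (lv_symm lα) lαβ hw b2
    have h3 : md F N (α w) (β w) (ζ w) = v := by
      rw [hζw]
      exact md_btw hT lαβ l2 b3.1
    refine ⟨fun x => md F N (α x) (β x) (ζ x), sec_md hc hα hβ hζ, fun x => sec_btw hc hα hβ hζ x, ?_, ?_, ?_⟩
    · show Btw N (α w) (md F N (α w) (β w) (ζ w)) w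
      rw [h3]
      exact b2
    · show t N (md F N (α w) (β w) (ζ w)) w ≤ E
      rw [h3]
      exact h2.le
    · refine Or.inl ?_
      show t N (md F N (α w) (β w) (ζ w)) w = E
      rw [h3]
      exact h2

/-- (P3b, M) PROOF. `D2` from `ladder`, `K6` from `cross hc K1 K5`, `D3 = D2 + K * K6`. Let `c` be a geodesic from `a` to `w'` (`hc.hyp.geo`), all its points are between `a` and `w'`, so
between `a` and `b` for `d`. `Π a = a = α a` (`md_btw` or `md_same`): `Btw (α a) (Π a) (ρ a)`. At `w'` the hypothesis. `cross` gives `i` with `t (Π (c i)) (ρ (c i)) ≤ K6`, and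
`d (c i) (Π (c i)) ≤ D2` (`ladder`), `d_le`. -/
theorem cross1 (hc : Ctx F d N δ K η) (K1 K5 : ℕ) : ∃ D3 : ℕ, ∀ α β ρ : G → G, Sec F d N K1 α → Sec F d N K1 β →
    Sec F d N K5 ρ → (∀ x, Btw N (α x) (ρ x) (β x)) → ∀ a b w', α a = a → β b = b → d a w' + d w' b = d a b →
    Btw N (ρ w') (md F N (α w') (β w') w') (β w') → ∃ c, d a c + d c w' = d a w' ∧ d c (ρ c) ≤ D3 := by
  obtain ⟨D2, hD2⟩ := ladder (δ := δ) (η := η) hc K1
  obtain ⟨K6, hK6⟩ := cross hc K1 K5
  refine ⟨D2 + K * K6, ?_⟩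
  intro α β ρ hα hβ hρ hbt a b w' ha hb hab hw'
  have hT := hc.tree
  obtain ⟨c, hc0, hcn, hcd⟩ := hc.hyp.geo a w'
  set n : ℕ := d a w' with hn
  have hlv : ∀ x, Lv F (α x) (β x) := fun x => lv_trans (lv_symm (hα.mem x)) (hβ.mem x)
  have ba : Btw N (α a) a (β a) := by
    have h := btw_left hT (α a) (β a)
    rwa [congrArg (fun y => Btw N (α a) y (β a)) ha] at h
  have bb : Btw N (α b) b (β b) := by
    have h := btw_right hT (α b) (β b)
    rwa [congrArg (fun y => Btw N (α b) y (β b)) hb] at h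
  have hma : md F N (α a) (β a) a = a := md_btw hT (hlv a) (lv_symm (hα.mem a)) ba
  have hleft : Btw N (α (c 0)) (md F N (α (c 0)) (β (c 0)) (c 0)) (ρ (c 0)) := by
    rw [hc0, hma]
    have h := btw_left hT (α a) (ρ a)
    rwa [congrArg (fun y => Btw N (α a) y (ρ a)) ha] at h
  have hright : Btw N (ρ (c n)) (md F N (α (c n)) (β (c n)) (c n)) (β (c n)) := by
    rw [hcn]
    exact hw'
  obtain ⟨i, hi, h1⟩ := hK6 α β ρ hα hβ hρ hbt n c (fun i hi => by
    rw [hcd i (i + 1) (Nat.le_succ i) hi]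
    omega) hleft hright
  have h2 : d a (c i) = i := by
    have h := hcd 0 i (Nat.zero_le _) hi
    rw [hc0, Nat.sub_zero] at h
    exact h
  have h3 : d (c i) w' = n - i := by
    have h := hcd i n hi le_rfl
    rw [hcn] at h
    exact h
  have h4 : d a (c i) + d (c i) b = d a b := by
    have h5 := hc.hyp.tri (c i) w' b
    have h6 := hc.hyp.tri a (c i) b
    omega
  refine ⟨c i, by omega, ?_⟩
  have h5 := hD2 α β hα hβ a b ba bb (c i) h4
  have l1 : Lv F (α (c i)) (md F N (α (c i)) (β (c i)) (c i)) :=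
    (md_spec hT (hlv (c i)) (lv_symm (hα.mem (c i)))).1
  have l2 : Lv F (md F N (α (c i)) (β (c i)) (c i)) (ρ (c i)) :=
    lv_trans (lv_symm l1) (lv_trans (lv_symm (hα.mem _)) (hρ.mem _))
  have h6 := d_le hc l2
  have h7 := hc.hyp.tri (c i) (md F N (α (c i)) (β (c i)) (c i)) (ρ (c i))
  have h8 : K * t N (md F N (α (c i)) (β (c i)) (c i)) (ρ (c i)) ≤ K * K6 := Nat.mul_le_mul_left _ h1
  omega

end H15M
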