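import Pool.Agent.Lib.H15M.P4A

/-! # H15M, chunk P4 (M/L): sections which do not come close -/

namespace H15M

variable {G : Type} [Group G] {F : Subgroup G} {d : G → G → ℕ} {N : G → ℕ} {δ K : ℕ} {η : ℕ → ℕ}

/-- (P4b, M/L) PROOF. `D2` from `ladder hc K1`, `R = 2 * D2 + 2 * δ + 1`, `E0, C2` from `one_side hc K1 E' R`, `E = 2 * E0`. `α, β` sections with `α 1 = 1`, `β h = h` (`hB`); `β 1 = h` (same
level). `w = md (α w') (β w') w'`; `d w' w ≤ D2` (`ladder`; `Btw (α 1) 1 (β 1)`, `Btw (α h) h (β h)` are trivial). `Btw (α w) w (β w)` (`α w = α w'`). `ρm` from `side_sec` for `α, β` with `E0`, `ρp` from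
`side_sec` for `β, α`. `ρm w` is between `α w` and `w`, `ρp w` between `β w` and `w`: so `w` is between `ρm w` and `ρp w` (`btw_trans`), `t (ρm w) (ρp w) ≤ 2 * E0`. Suppose `t (ρm (x k)) (ρp (x k)) ≤ E'`
for some `k ≥ C2`. Let `ζ w = w`, `ρ0 x = md (ρm x) (ρp x) (ζ x)`: `ρ0 w = w` (`md_btw`), `ρ0 (x k)` is between `ρm (x k)` and `ρp (x k)`, so at distance at most `E'` from both. `one_side` for `α, β, ρm`,
`a = 1`, `b = h`: `c1` with `d 1 c1 + d c1 w' = d 1 w'`, `R ≤ gp w c1 (ρ0 (x k))` (`Btw (ρm w') (Π w') (β w')`: `Π w' = w`, `ρm w' = ρm w` is between `α w` and `w`, `btw_trans`). `one_side` for `β, α, ρp`, `a = h`, `b = 1`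
(`md_swap`; `h` is in the level of `x m ∈ F`): `c2` with `d h c2 + d c2 w' = d h w'`, `R ≤ gp w c2 (ρ0 (x k))`. `hyp` and `gp_symm`: `R ≤ gp w c1 c2 + 2 * δ ≤ gp w' c1 c2 + 2 * D2 + 2 * δ` (`gp_base`), and
`gp w' c1 c2 = 0`, because `d c1 w' + d w' c2 = d c1 c2` (both on a geodesic through `w'`): contradiction. -/
theorem claimA (hc : Ctx F d N δ K η) (K1 : ℕ) (hB : Base F d N K1) (E' : ℕ) : ∃ E C2 : ℕ, ∀ h ∈ F, ∀ w',
    d 1 w' + d w' h = d 1 h → ∃ (ρm ρp : G → G) (w : G), Lv F w' w ∧ Sec F d N (c5 K K1) ρm ∧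
    Sec F d N (c5 K K1) ρp ∧ Btw N 1 (ρm 1) h ∧ Btw N 1 (ρp 1) h ∧ t N (ρm w) (ρp w) ≤ E ∧
    ∀ (m : ℕ) (x : ℕ → G), LPath F d m x → x 0 = w → x m ∈ F → ∀ k, C2 ≤ k → k ≤ m →
      E' < t N (ρm (x k)) (ρp (x k)) := by
  have hT := hc.tree
  obtain ⟨D2, hD2⟩ := ladder hc K1
  obtain ⟨E0, C2, hside⟩ := one_side hc K1 E' (2 * D2 + 2 * δ + 1)
  refine ⟨2 * E0, C2, fun h hh w' hw' => ?_⟩
  obtain ⟨α, hα, hα1⟩ := hB 1
  obtain ⟨β, hβ, hβh⟩ := hB h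
  have l1h : Lv F 1 h := by
    show (1 : G)⁻¹ * h ∈ F
    simpa using hh
  have hβ1 : β 1 = h := by rw [hβ.coset 1 h l1h, hβh]
  have hαh : α h = 1 := by rw [← hα.coset 1 h l1h, hα1]
  have lα : ∀ y, Lv F (α y) y := fun y => lv_symm (hα.mem y)
  have lβ : ∀ y, Lv F (β y) y := fun y => lv_symm (hβ.mem y)
  have lαβ : ∀ y, Lv F (α y) (β y) := fun y => lv_trans (lα y) (hβ.mem y)
  have lβα : ∀ y, Lv F (β y) (α y) := fun y => lv_trans (lβ y) (hα.mem y)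
  obtain ⟨w, hw⟩ : ∃ w, w = md F N (α w') (β w') w' := ⟨_, rfl⟩
  obtain ⟨q1, q2, -, -⟩ := md_spec hT (lαβ w') (lα w')
  rw [← hw] at q1 q2
  have lw : Lv F w' w := lv_trans (hα.mem w') q1
  have eα : α w = α w' := (hα.coset w' w lw).symm
  have eβ : β w = β w' := (hβ.coset w' w lw).symm
  have hbw : Btw N (α w) w (β w) := by rw [eα, eβ]; exact q2
  have hD : d w' w ≤ D2 := by
    rw [hw]
    refine hD2 α β hα hβ 1 h ?_ ?_ w' hw'
    · rw [hα1]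
      exact btw_left hT 1 (β 1)
    · rw [hβh]
      exact btw_right hT (α h) h
  obtain ⟨ρm, hρm, hmb, hmw, hmE, hmE'⟩ := side_sec hc hB E0 hα hβ w hbw
  obtain ⟨ρp, hρp, hpb, hpw, hpE, hpE'⟩ := side_sec hc hB E0 hβ hα w (btw_symm hT (lα w) (lαβ w) hbw)
  have lm : ∀ y, Lv F y (ρm y) := hρm.mem
  have lp : ∀ y, Lv F y (ρp y) := hρp.mem
  have lmp : ∀ y, Lv F (ρm y) (ρp y) := fun y => lv_trans (lv_symm (lm y)) (lp y)
  -- `w` between `ρm w` and `β w`, between `ρp w` and `α w`, between `ρm w` and `ρp w`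
  have b1 : Btw N (ρm w) w (β w) := (btw_trans hT (lv_trans (lα w) (lm w)) (lα w) (lαβ w) hbw hmw).2
  have b2 : Btw N (ρp w) w (α w) :=
    (btw_trans hT (lv_trans (lβ w) (lp w)) (lβ w) (lβα w) (btw_symm hT (lα w) (lαβ w) hbw) hpw).2
  have b3 : Btw N (β w) w (ρm w) := btw_symm hT (lv_symm (lm w)) (lv_trans (lv_symm (lm w)) (hβ.mem w)) b1
  have b4 : Btw N (ρp w) w (ρm w) :=
    (btw_trans hT (lv_trans (lβ w) (lp w)) (lβ w) (lv_trans (lβ w) (lm w)) b3 hpw).2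
  have b5 : Btw N (ρm w) w (ρp w) := btw_symm hT (lv_symm (lp w)) (lv_symm (lmp w)) b4
  refine ⟨ρm, ρp, w, lw, hρm, hρp, ?_, ?_, ?_, ?_⟩
  · have := hmb 1
    rwa [hα1, hβ1] at this
  · have := hpb 1
    rw [hα1, hβ1] at this
    exact btw_symm hT (lv_trans (lv_symm l1h) (lp 1)) (lv_symm l1h) this
  · have h1 := t_tri hT (lv_symm (lm w)) (lp w)
    have h2 := t_symm hT (lp w)
    omega
  intro m x hx hx0 hxm k hk hkm
  by_contra hcon
  rw [not_lt] at hcon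
  obtain ⟨ζ, hζ, hζw⟩ := hB w
  have hζ' : Sec F d N (c5 K K1) ζ := sec_mono hζ (by unfold c5; omega)
  obtain ⟨ρ0, hρ0⟩ : ∃ ρ0, ρ0 = fun y => md F N (ρm y) (ρp y) (ζ y) := ⟨_, rfl⟩
  have sρ0 : Sec F d N (c5 K (c5 K K1)) ρ0 := by
    rw [hρ0]
    exact sec_md hc hρm hρp hζ'
  have hρ0w : ρ0 w = w := by
    rw [hρ0]
    show md F N (ρm w) (ρp w) (ζ w) = w
    rw [hζw]
    exact md_btw hT (lmp w) (lv_symm (lm w)) b5
  have hbk : Btw N (ρm (x k)) (ρ0 (x k)) (ρp (x k)) := by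
    rw [hρ0]
    exact sec_btw hc hρm hρp hζ' (x k)
  have l0 : ∀ y, Lv F y (ρ0 y) := sρ0.mem
  have t1 : t N (ρ0 (x k)) (ρm (x k)) ≤ E' := by
    have h1 := t_symm hT (lv_trans (lv_symm (l0 (x k))) (lm (x k)))
    unfold Btw at hbk
    omega
  have t2 : t N (ρ0 (x k)) (ρp (x k)) ≤ E' := by
    unfold Btw at hbk
    omega
  have lx1 : Lv F (x m) 1 := by
    show (x m)⁻¹ * 1 ∈ F
    rw [mul_one]
    exact F.inv_mem hxm
  have em : ρm w' = ρm w := hρm.coset w' w lw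
  have ep : ρp w' = ρp w := hρp.coset w' w lw
  obtain ⟨c1, hc1, hg1⟩ := hside α β ρm ρ0 hα hβ hρm sρ0 hmb 1 h w' hα1 hβh hw'
    (by rw [em, ← hw, ← eβ]; exact b1) w lw hρ0w hmE' m x hx hx0 lx1 k hk hkm t1
  have hsw : md F N (β w') (α w') w' = w := by
    rw [hw]
    exact ((md_swap hT (lαβ w') (lα w')).1).symm
  obtain ⟨c2, hc2, hg2⟩ := hside β α ρp ρ0 hβ hα hρp sρ0 hpb h 1 w' hβh hα1
    (by rw [hc.hyp.symm h w', hc.hyp.symm w' 1, hc.hyp.symm h 1]; omega)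
    (by rw [ep, hsw, ← eα]; exact b2) w lw hρ0w hpE' m x hx hx0 (lv_trans lx1 l1h) k hk hkm t2
  have h1 := hc.hyp.hyp c1 c2 (ρ0 (x k)) w
  have h2 := (le_min hg1 hg2).trans h1
  have h3 := gp_base hc.hyp w w' c1 c2
  have h4 : gp d w' c1 c2 ≤ 0 := by
    unfold gp
    have e1 := hc.hyp.tri 1 c1 h
    have e2 := hc.hyp.tri c1 c2 h
    have e3 := hc.hyp.symm h c2
    have e4 := hc.hyp.symm h w'
    have e5 := hc.hyp.symm w' c1
    have e6 := hc.hyp.symm w' c2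
    omega
  have h5 := hc.hyp.symm w w'
  push_cast at h2
  omega

end H15M
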