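import Pool.Agent.Lib.H15M.P2
import Pool.Agent.Lib.H15M.P3

/-! # H15M, chunk P4A (M): one side of the ladder -/

namespace H15M

variable {G : Type} [Group G] {F : Subgroup G} {d : G → G → ℕ} {N : G → ℕ} {δ K : ℕ} {η : ℕ → ℕ}

/-- (P4a, M) One side. PROOF. `D3` from `cross1 hc K1 (c5 K K1)`, `K8 = c5 K (c5 K K1)`; with `R' = R + 2 * D3` take `E` from `side1 hc K8 E' R'` and `C2` from
`side2 hc K8 E' R'`. In the case `t (ρ w) w = E`: `c` from `cross1`, `side1` for the section `ρ` (`sec_mono`) and this `c`: `R' ≤ gp (ρ0 w) (ρ c) (ρ0 (x k))`, and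
`gp … (ρ c) … ≤ gp … c … + 2 * d c (ρ c)` (`gp_move`). In the case `ρ = α`: `c = a`, `ρ a = a`, `side2` (`a` is in the level of `x m`). Here `w = x 0 = ρ0 w`. -/
theorem one_side (hc : Ctx F d N δ K η) (K1 E' R : ℕ) : ∃ E C2 : ℕ, ∀ α β ρ ρ0 : G → G, Sec F d N K1 α →
    Sec F d N K1 β → Sec F d N (c5 K K1) ρ → Sec F d N (c5 K (c5 K K1)) ρ0 → (∀ x, Btw N (α x) (ρ x) (β x)) →
    ∀ a b w', α a = a → β b = b → d a w' + d w' b = d a b →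
    Btw N (ρ w') (md F N (α w') (β w') w') (β w') → ∀ w, Lv F w' w → ρ0 w = w → (t N (ρ w) w = E ∨ ρ = α) →
    ∀ (m : ℕ) (x : ℕ → G), LPath F d m x → x 0 = w → Lv F (x m) a → ∀ k, C2 ≤ k → k ≤ m →
    t N (ρ0 (x k)) (ρ (x k)) ≤ E' →
    ∃ c, d a c + d c w' = d a w' ∧ (R : ℤ) ≤ gp d w c (ρ0 (x k)) := by
  obtain ⟨D3, hD3⟩ := cross1 hc K1 (c5 K K1)
  obtain ⟨E, hE⟩ := side1 hc (c5 K (c5 K K1)) E' (R + 2 * D3)
  obtain ⟨C2, hC2⟩ := side2 hc (c5 K (c5 K K1)) E' (R + 2 * D3)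
  refine ⟨E, C2, fun α β ρ ρ0 hα hβ hρ hρ0 hbt a b w' ha hb hab hw' w hww hw0 hor m x hx hx0 hxm k hk hkm ht => ?_⟩
  have hT := hc.tree
  have hH := hc.hyp
  have hρ' : Sec F d N (c5 K (c5 K K1)) ρ := sec_mono hρ (by unfold c5; omega)
  rcases hor with h | h
  · obtain ⟨c, hc1, hc2⟩ := hD3 α β ρ hα hβ hρ hbt a b w' ha hb hab hw'
    have hE1 : E ≤ t N (ρ0 (x 0)) (ρ (x 0)) := by
      rw [hx0, hw0, t_symm hT (hρ.mem w), h]
    have h1 := hE ρ0 ρ hρ0 hρ' m x hx k hkm ht hE1 c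
    rw [hx0, hw0] at h1
    have h2 := gp_move hH w (ρ c) c (ρ0 (x k))
    rw [hH.symm (ρ c) c] at h2
    refine ⟨c, hc1, ?_⟩
    push_cast at h1
    have h3 : (d c (ρ c) : ℤ) ≤ D3 := by exact_mod_cast hc2
    linarith
  · have h1 := hC2 ρ0 ρ hρ0 hρ' m x hx k hk hkm ht a hxm
    rw [hx0, hw0, h, ha] at h1
    refine ⟨a, ?_, ?_⟩
    · rw [hH.self, Nat.zero_add]
    · push_cast at h1
      have h3 : (0 : ℤ) ≤ D3 := Int.natCast_nonneg _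
      linarith

end H15M
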