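import Pool.Agent.Lib.H15M.T5

/-! # H15M, chunk Q1 (S/M): finitely generated subgroups are quasiconvex in the level -/

namespace H15M

variable {G : Type} [Group G] {F : Subgroup G} {N : G → ℕ}

theorem q1_path (N : G → ℕ) (T : Finset G) (C : ℕ) (hC : ∀ g ∈ T, N g ≤ C ∧ N g⁻¹ ≤ C) :
    ∀ h ∈ Subgroup.closure (T : Set G), ∃ (n : ℕ) (p : ℕ → G), p 0 = 1 ∧ p n = h ∧
      (∀ i, i ≤ n → p i ∈ Subgroup.closure (T : Set G)) ∧ ∀ i, i < n → t N (p i) (p (i + 1)) ≤ C := by
  intro h hh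
  have key : ∀ (x : G) (y : G), y ∈ Subgroup.closure (T : Set G) → N y ≤ C →
      (∃ (n : ℕ) (p : ℕ → G), p 0 = 1 ∧ p n = x ∧
        (∀ i, i ≤ n → p i ∈ Subgroup.closure (T : Set G)) ∧ ∀ i, i < n → t N (p i) (p (i + 1)) ≤ C) →
      (∃ (n : ℕ) (p : ℕ → G), p 0 = 1 ∧ p n = x * y ∧
        (∀ i, i ≤ n → p i ∈ Subgroup.closure (T : Set G)) ∧ ∀ i, i < n → t N (p i) (p (i + 1)) ≤ C) := by
    rintro x y hy hN ⟨n, p, h0, hn, hm, hs⟩
    refine ⟨n + 1, fun i => if i ≤ n then p i else x * y, ?_, ?_, ?_, ?_⟩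
    · simp [h0]
    · simp
    · intro i hi
      by_cases hin : i ≤ n
      · simp only [hin, if_true]
        exact hm i hin
      · simp only [hin, if_false]
        refine Subgroup.mul_mem _ ?_ hy
        rw [← hn]
        exact hm n le_rfl
    · intro i hi
      by_cases hin : i < n
      · have h1 : i ≤ n := hin.le
        have h2 : i + 1 ≤ n := hin
        simp only [h1, h2, if_true]
        exact hs i hin
      · have h1 : i = n := by omega
        subst h1
        have h2 : ¬ (i + 1 ≤ i) := by omega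
        simp only [le_refl, if_true, h2, if_false]
        rw [hn]
        have h3 : t N x (x * y) = N y := by
          unfold t
          rw [inv_mul_cancel_left]
        rw [h3]
        exact hN
  induction hh using Subgroup.closure_induction_right with
  | one => exact ⟨0, fun _ => 1, rfl, rfl, fun _ _ => Subgroup.one_mem _, fun i hi => absurd hi (Nat.not_lt_zero i)⟩
  | mul_right x hx y hy ih =>
    exact key x y (Subgroup.subset_closure hy) (hC y hy).1 ih
  | mul_inv_cancel x hx y hy ih =>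
    exact key x y⁻¹ (Subgroup.inv_mem _ (Subgroup.subset_closure hy)) (hC y hy).2 ih

/-- (Q1, S/M) PROOF. `CH = ∑_{g ∈ T} (N g + N g⁻¹)` (or a maximum). `h ∈ H` is a product of a list of elements of `T` and their inverses
(`Subgroup.exists_list_of_mem_closure`, or prove by `Subgroup.closure_induction` that there are `n, p` with `p 0 = 1`, `p n = h`, all `p i ∈ H`, steps at most
`CH`). `tpath`. -/
theorem hull (hT : TreeN F N) {H : Subgroup G} (hH : H ≤ F) (T : Finset G) (hTH : Subgroup.closure (T : Set G) = H) :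
    ∃ CH : ℕ, ∀ h ∈ H, ∀ v ∈ F, Btw N 1 v h → ∃ h' ∈ H, t N v h' ≤ CH := by
  refine ⟨∑ g ∈ T, (N g + N g⁻¹), ?_⟩
  intro h hh v hv hb
  have hC : ∀ g ∈ T, N g ≤ ∑ g ∈ T, (N g + N g⁻¹) ∧ N g⁻¹ ≤ ∑ g ∈ T, (N g + N g⁻¹) := by
    intro g hg
    have h1 : N g + N g⁻¹ ≤ ∑ g ∈ T, (N g + N g⁻¹) :=
      Finset.single_le_sum (f := fun g => N g + N g⁻¹) (fun _ _ => Nat.zero_le _) hg
    omega
  rw [← hTH] at hh
  obtain ⟨n, p, h0, hn, hm, hs⟩ := q1_path N T _ hC h hh
  have hmH : ∀ i, i ≤ n → p i ∈ H := by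
    intro i hi
    rw [← hTH]
    exact hm i hi
  have hmF : ∀ i, i ≤ n → Lv F (p 0) (p i) := by
    intro i hi
    unfold Lv
    rw [h0, inv_one, one_mul]
    exact hH (hmH i hi)
  have hv' : Lv F (p 0) v := by
    unfold Lv
    rw [h0, inv_one, one_mul]
    exact hv
  have hb' : Btw N (p 0) v (p n) := by
    rw [h0, hn]
    exact hb
  obtain ⟨i, hi, hit⟩ := tpath hT _ n p hmF hs v hv' hb'
  refine ⟨p i, hmH i hi, ?_⟩
  rw [t_symm hT (lv_trans (lv_symm hv') (hmF i hi))]
  exact hit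

end H15M
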