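import Pool.Agent.Lib.H15M.S1
import Pool.Agent.Lib.H15M.T5
import Pool.Agent.Lib.H15M.A3

/-! # H15M, chunk Q2 (M): bounded levels imply quasiconvexity -/

namespace H15M

variable {G : Type} [Group G] {F : Subgroup G} {d : G → G → ℕ} {N : G → ℕ} {δ K : ℕ} {η : ℕ → ℕ}

/-- (Q2a, M) `H` is undistorted. PROOF. `c` a geodesic from `1` to `h`, `L = d 1 h`. For `s ≤ L` choose `f s ∈ F` with `d (c s) (f s) ≤ n0` (`hb`; `d 1 (c s) + d (c s) h = d 1 h`), `f 0 = 1` and `f L = h` (allowed: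
distance `0`). `d (f s) (f (s + 1)) ≤ 2 * n0 + 1`, so `t (f s) (f (s + 1)) ≤ η (2 * n0 + 1)` (`t_le`, `hc.mono`), and `t 1 h ≤ L * η (2 * n0 + 1)` (`t_tri`). -/
theorem undist (hc : Ctx F d N δ K η) {H : Subgroup G} (hH : H ≤ F) (n0 : ℕ)
    (hb : ∀ h ∈ H, ∀ w, d 1 w + d w h = d 1 h → ∃ f ∈ F, d w f ≤ n0) (h : G) (hh : h ∈ H) :
    t N 1 h ≤ d 1 h * η (2 * n0 + 1) := by
  obtain ⟨c, hc0, hcL, hcd⟩ := hc.hyp.geo 1 h
  obtain ⟨L, hL⟩ : ∃ L, L = d 1 h := ⟨_, rfl⟩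
  rw [← hL] at hcL hcd ⊢
  have hlv : ∀ f ∈ F, Lv F 1 f := fun f hf => by
    show (1 : G)⁻¹ * f ∈ F
    rwa [inv_one, one_mul]
  have hlv2 : ∀ f ∈ F, ∀ g ∈ F, Lv F f g := fun f hf g hg => F.mul_mem (F.inv_mem hf) hg
  have hnear : ∀ s, s ≤ L → ∃ f ∈ F, d (c s) f ≤ n0 := fun s hs => by
    refine hb h hh (c s) ?_
    have h1 := hcd 0 s (Nat.zero_le _) hs
    have h2 := hcd s L hs le_rfl
    rw [hc0] at h1
    rw [hcL] at h2
    omega
  have hstep : ∀ s, s + 1 ≤ L → d (c s) (c (s + 1)) = 1 := fun s hs => by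
    have h1 := hcd s (s + 1) (by omega) hs
    omega
  have key : ∀ s, s ≤ L → ∃ f ∈ F, d (c s) f ≤ n0 ∧ t N 1 f ≤ s * η (2 * n0 + 1) := by
    intro s
    induction s with
    | zero =>
      intro _
      refine ⟨1, F.one_mem, ?_, ?_⟩
      · rw [hc0, hc.hyp.self]
        exact Nat.zero_le _
      · rw [t_self hc.tree]
        exact Nat.zero_le _
    | succ s ih =>
      intro hs
      obtain ⟨f, hf, h1, h2⟩ := ih (by omega)
      obtain ⟨g, hg, h3⟩ := hnear (s + 1) hs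
      refine ⟨g, hg, h3, ?_⟩
      have h4 := hstep s hs
      have h5 : d f g ≤ 2 * n0 + 1 := by
        have e1 := hc.hyp.tri f (c s) g
        have e2 := hc.hyp.tri (c s) (c (s + 1)) g
        rw [hc.hyp.symm f (c s)] at e1
        omega
      have h6 : t N f g ≤ η (2 * n0 + 1) := (t_le hc (hlv2 f hf g hg)).trans (hc.mono h5)
      have h7 := t_tri hc.tree (hlv f hf) (hlv2 f hf g hg)
      calc t N 1 g ≤ t N 1 f + t N f g := h7
        _ ≤ s * η (2 * n0 + 1) + η (2 * n0 + 1) := Nat.add_le_add h2 h6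
        _ = (s + 1) * η (2 * n0 + 1) := by ring
  have hhF : h ∈ F := hH hh
  rcases Nat.eq_zero_or_pos L with h0 | h0
  · rw [h0, hc0] at hcL
    rw [← hcL, t_self hc.tree]
    exact Nat.zero_le _
  · obtain ⟨f, hf, h1, h2⟩ := key (L - 1) (by omega)
    have h4 := hstep (L - 1) (by omega)
    have h3 : L - 1 + 1 = L := by omega
    rw [h3, hcL] at h4
    have h5 : d f h ≤ 2 * n0 + 1 := by
      have e1 := hc.hyp.tri f (c (L - 1)) h
      rw [hc.hyp.symm f (c (L - 1))] at e1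
      omega
    have h6 : t N f h ≤ η (2 * n0 + 1) := (t_le hc (hlv2 f hf h hhF)).trans (hc.mono h5)
    have h7 := t_tri hc.tree (hlv f hf) (hlv2 f hf h hhF)
    calc t N 1 h ≤ t N 1 f + t N f h := h7
      _ ≤ (L - 1) * η (2 * n0 + 1) + η (2 * n0 + 1) := Nat.add_le_add h2 h6
      _ = (L - 1 + 1) * η (2 * n0 + 1) := by ring
      _ = L * η (2 * n0 + 1) := by rw [h3]

/-- (Q2b, M) PROOF. `KN = η (2 * n0 + 1)`. For `h ∈ H` let `u` be the level geodesic from `1` to `h` (`lgeo`), `P` its set of points. `PathProp d K' P` with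
`K' = K + KN * (1 + 2 * (K * CH)) + 2 * CH`: for `u i, u j`, `i ≤ j`, the subpath has `j - i = t (u i) (u j)` steps of length at most `K` (`d_le`; for `j < i` reversed), and with `hi, hj ∈ H` near them
(`hCH`) `t (u i) (u j) ≤ t hi hj + 2 * CH`, `t hi hj = t 1 (hi⁻¹ * hj) ≤ KN * d hi hj` (`undist`, `left`), `d hi hj ≤ d (u i) (u j) + 2 * (K * CH)`. `qc δ K'` gives `D0` (it does not depend on `h`), so
every `w` between `1` and `h` is at distance at most `D0` from some `u i`, and `D0 + K * CH` from `H`. -/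
theorem crit (hc : Ctx F d N δ K η) {H : Subgroup G} (hH : H ≤ F) (CH : ℕ)
    (hCH : ∀ h ∈ H, ∀ v ∈ F, Btw N 1 v h → ∃ h' ∈ H, t N v h' ≤ CH) (n0 : ℕ)
    (hb : ∀ h ∈ H, ∀ w, d 1 w + d w h = d 1 h → ∃ f ∈ F, d w f ≤ n0) :
    ∃ K0 : ℕ, ∀ h ∈ H, ∀ w, d 1 w + d w h = d 1 h → ∃ h' ∈ H, d w h' ≤ K0 := by
  obtain ⟨KN, hKN⟩ : ∃ KN, KN = η (2 * n0 + 1) := ⟨_, rfl⟩
  obtain ⟨K', hK'⟩ : ∃ K', K' = K + KN * (1 + 2 * (K * CH)) + 2 * CH := ⟨_, rfl⟩
  obtain ⟨D0, hD0⟩ := qc δ K'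
  refine ⟨D0 + K * CH, fun h hh w hw => ?_⟩
  have hlv : ∀ f ∈ F, Lv F 1 f := fun f hf => by
    show (1 : G)⁻¹ * f ∈ F
    rwa [inv_one, one_mul]
  have hlv2 : ∀ f ∈ F, ∀ g ∈ F, Lv F f g := fun f hf g hg => F.mul_mem (F.inv_mem hf) hg
  obtain ⟨u, hu0, huT, hu, hut⟩ := lgeo hc.tree (hlv h (hH hh))
  obtain ⟨T, hT⟩ : ∃ T, T = t N 1 h := ⟨_, rfl⟩
  rw [← hT] at huT hu hut
  have huF : ∀ i, i ≤ T → u i ∈ F := fun i hi => by
    have h1 : (1 : G)⁻¹ * u i ∈ F := (hu i hi).1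
    rwa [inv_one, one_mul] at h1
  have hnear : ∀ i, i ≤ T → ∃ h' ∈ H, t N (u i) h' ≤ CH ∧ d (u i) h' ≤ K * CH := fun i hi => by
    obtain ⟨h', hh', h1⟩ := hCH h hh (u i) (huF i hi) (hu i hi).2
    exact ⟨h', hh', h1, (d_le hc (hlv2 _ (huF i hi) _ (hH hh'))).trans (Nat.mul_le_mul_left K h1)⟩
  have hlen : ∀ i j, i ≤ j → j ≤ T → j - i ≤ K' * d (u i) (u j) + K' := by
    intro i j hij hj
    obtain ⟨a, ha, a1, a2⟩ := hnear i (hij.trans hj)
    obtain ⟨b, hb', b1, b2⟩ := hnear j hj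
    have hiF := huF i (hij.trans hj)
    have hjF := huF j hj
    have h1 := hut i j hij hj
    have h2 := t_tri hc.tree (hlv2 _ hiF _ (hH ha)) (hlv2 _ (hH ha) _ hjF)
    have h3 := t_tri hc.tree (hlv2 _ (hH ha) _ (hH hb')) (hlv2 _ (hH hb') _ hjF)
    have h4 := t_symm hc.tree (hlv2 _ (hH hb') _ hjF)
    have h5 : t N a b ≤ d a b * KN := by
      have e1 := undist hc hH n0 hb (a⁻¹ * b) (H.mul_mem (H.inv_mem ha) hb')
      have e2 : t N 1 (a⁻¹ * b) = t N a b := by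
        show N ((1 : G)⁻¹ * (a⁻¹ * b)) = N (a⁻¹ * b)
        rw [inv_one, one_mul]
      have e3 := hc.left a 1 (a⁻¹ * b)
      rw [mul_one, mul_inv_cancel_left] at e3
      rw [e2, ← e3, ← hKN] at e1
      exact e1
    have h6 : d a b ≤ d (u i) (u j) + 2 * (K * CH) := by
      have e1 := hc.hyp.tri a (u i) b
      have e2 := hc.hyp.tri (u i) (u j) b
      rw [hc.hyp.symm a (u i)] at e1
      omega
    have h7 : j - i ≤ 2 * CH + KN * (d (u i) (u j) + 2 * (K * CH)) := by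
      have e1 : d a b * KN ≤ KN * (d (u i) (u j) + 2 * (K * CH)) := by
        rw [mul_comm (d a b)]
        exact Nat.mul_le_mul_left KN h6
      omega
    refine h7.trans ?_
    have e1 : 2 * CH + KN * (d (u i) (u j) + 2 * (K * CH)) = KN * d (u i) (u j) + (KN * (2 * (K * CH)) + 2 * CH) := by ring
    have e2 : KN ≤ K' := by
      rw [hK']
      nlinarith [Nat.zero_le (KN * (2 * (K * CH))), Nat.zero_le K, Nat.zero_le CH]
    have e3 : KN * (2 * (K * CH)) + 2 * CH ≤ K' := by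
      rw [hK']
      nlinarith [Nat.zero_le KN, Nat.zero_le K]
    rw [e1]
    exact Nat.add_le_add (Nat.mul_le_mul_right _ e2) e3
  have hK2 : K ≤ K' := by
    rw [hK']
    omega
  have hst : ∀ i, i + 1 ≤ T → d (u i) (u (i + 1)) ≤ K' := fun i hi => by
    have e1 := d_le hc (hlv2 _ (huF i (by omega)) _ (huF (i + 1) hi))
    rw [hut i (i + 1) (by omega) hi] at e1
    have e2 : i + 1 - i = 1 := by omega
    rw [e2, mul_one] at e1
    exact e1.trans hK2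
  have hP : PathProp d K' {x | ∃ i, i ≤ T ∧ x = u i} := by
    rintro _ ⟨i, hi, rfl⟩ _ ⟨j, hj, rfl⟩
    rcases Nat.le_total i j with hij | hij
    · refine ⟨j - i, fun l => u (i + l), rfl, ?_, hlen i j hij hj, fun l hl => ⟨i + l, by omega, rfl⟩, fun l hl => hst (i + l) (by omega)⟩
      show u (i + (j - i)) = u j
      have e : i + (j - i) = j := by omega
      rw [e]
    · refine ⟨i - j, fun l => u (i - l), rfl, ?_, ?_, fun l hl => ⟨i - l, by omega, rfl⟩, fun l hl => ?_⟩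
      · show u (i - (i - j)) = u j
        have e : i - (i - j) = j := by omega
        rw [e]
      · rw [hc.hyp.symm]
        exact hlen j i hij hi
      · show d (u (i - l)) (u (i - (l + 1))) ≤ K'
        rw [hc.hyp.symm]
        have e1 := hst (i - (l + 1)) (by omega)
        have e2 : i - (l + 1) + 1 = i - l := by omega
        rw [e2] at e1
        exact e1
  obtain ⟨y, ⟨i, hi, rfl⟩, hy⟩ := hD0 d hc.hyp _ hP 1 ⟨0, Nat.zero_le _, hu0.symm⟩ h ⟨T, le_rfl, huT.symm⟩ w hw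
  obtain ⟨h', hh', -, h2⟩ := hnear i hi
  refine ⟨h', hh', ?_⟩
  have e1 := hc.hyp.tri w (u i) h'
  omega

end H15M
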