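import Pool.Agent.Lib.H15M.T1

/-! # H15M, chunk S1 (S/M, 9 short): moving between levels -/

namespace H15M

variable {G : Type} [Group G] {F : Subgroup G} {d : G → G → ℕ} {N : G → ℕ} {δ K : ℕ} {η : ℕ → ℕ}

/-- (S1a) PROOF. `d 1 s⁻¹ = d s 1` (`left` with `s`), symmetry. -/
theorem inv_step (hc : Ctx F d N δ K η) {s : G} (hs : d 1 s ≤ 1) : d 1 s⁻¹ ≤ 1 := by
  have h := hc.left s 1 s⁻¹
  rw [mul_one, mul_inv_cancel, hc.hyp.symm s 1] at h
  omega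

theorem s1_one (hc : Ctx F d N δ K η) (x y : G) : d x y = d 1 (x⁻¹ * y) := by
  have h := hc.left x 1 (x⁻¹ * y)
  rwa [mul_one, mul_inv_cancel_left] at h

theorem s1_lv (hc : Ctx F d N δ K η) {x y : G} (s : G) (h : Lv F x y) : Lv F (x * s) (y * s) := by
  have h1 := hc.normal.conj_mem _ h s⁻¹
  have h2 : (x * s)⁻¹ * (y * s) = s⁻¹ * (x⁻¹ * y) * s⁻¹⁻¹ := by group
  show (x * s)⁻¹ * (y * s) ∈ F
  rw [h2]
  exact h1

/-- (S1b) PROOF. `s = x⁻¹ * y`, `left`. -/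
theorem step_of (hc : Ctx F d N δ K η) {x y : G} (h : d x y ≤ 1) : ∃ s, d 1 s ≤ 1 ∧ y = x * s := by
  rw [s1_one hc] at h
  exact ⟨x⁻¹ * y, h, by group⟩

/-- (S1c) PROOF. `(x * s)⁻¹ * (y * s) = s⁻¹ * (x⁻¹ * y) * s`; `hc.conj`. -/
theorem t_right (hc : Ctx F d N δ K η) {x y s : G} (hs : d 1 s ≤ 1) (h : Lv F x y) :
    t N (x * s) (y * s) ≤ K * t N x y := by
  have h1 := hc.conj s _ hs h
  unfold t
  have h2 : (x * s)⁻¹ * (y * s) = s⁻¹ * (x⁻¹ * y) * s := by group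
  rw [h2]
  exact h1

/-- (S1d) PROOF. `t_right` for `s⁻¹` and `x * s`, `y * s`. -/
theorem t_right' (hc : Ctx F d N δ K η) {x y s : G} (hs : d 1 s ≤ 1) (h : Lv F x y) :
    t N x y ≤ K * t N (x * s) (y * s) := by
  have h1 := t_right hc (inv_step hc hs) (s1_lv hc s h)
  rwa [mul_inv_cancel_right, mul_inv_cancel_right] at h1

/-- (S1e) PROOF. `left`, `hc.dN`. -/
theorem d_le (hc : Ctx F d N δ K η) {x y : G} (h : Lv F x y) : d x y ≤ K * t N x y := by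
  rw [s1_one hc]
  exact hc.dN _ h

/-- (S1f) PROOF. `left`, `hc.Nd`. -/
theorem t_le (hc : Ctx F d N δ K η) {x y : G} (h : Lv F x y) : t N x y ≤ η (d x y) := by
  rw [s1_one hc]
  exact hc.Nd _ h

/-- (S1g) PROOF. `y = x * s` (`step_of`); `d (ρ x) (ρ x * s) = d 1 s ≤ 1`, `d_le` and `hρ.lip` for the rest. -/
theorem sec_step (hc : Ctx F d N δ K η) {K1 : ℕ} {ρ : G → G} (hρ : Sec F d N K1 ρ) {x y : G} (h : d x y ≤ 1) :
    d (ρ x) (ρ y) ≤ 1 + K * K1 := by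
  obtain ⟨s, hs, rfl⟩ := step_of hc h
  have h1 := hc.hyp.tri (ρ x) (ρ x * s) (ρ (x * s))
  have h2 : d (ρ x) (ρ x * s) ≤ 1 := by
    rw [s1_one hc, inv_mul_cancel_left]
    exact hs
  have h3 : Lv F (ρ x * s) (ρ (x * s)) := by
    have h4 : Lv F (ρ x) x := by
      have h5 := F.inv_mem (hρ.mem x)
      show (ρ x)⁻¹ * x ∈ F
      have h6 : (ρ x)⁻¹ * x = (x⁻¹ * ρ x)⁻¹ := by group
      rw [h6]
      exact h5
    have h7 := F.mul_mem (s1_lv hc s h4) (hρ.mem (x * s))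
    show (ρ x * s)⁻¹ * ρ (x * s) ∈ F
    have h8 : (ρ x * s)⁻¹ * ρ (x * s) = (ρ x * s)⁻¹ * (x * s) * ((x * s)⁻¹ * ρ (x * s)) := by group
    rw [h8]
    exact h7
  have h4 := d_le hc h3
  have h5 := Nat.mul_le_mul_left K (hρ.lip x s hs)
  omega

/-- (S1h) PROOF. `hc.hyp.geo x y`, `sec_step` along the geodesic. -/
theorem sec_dist (hc : Ctx F d N δ K η) {K1 : ℕ} {ρ : G → G} (hρ : Sec F d N K1 ρ) (x y : G) :
    d (ρ x) (ρ y) ≤ (1 + K * K1) * d x y := by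
  obtain ⟨c, h0, h1, h2⟩ := hc.hyp.geo x y
  have key : ∀ k, k ≤ d x y → d (ρ x) (ρ (c k)) ≤ (1 + K * K1) * k := by
    intro k
    induction k with
    | zero =>
      intro _
      rw [h0, hc.hyp.self]
      exact Nat.zero_le _
    | succ k ih =>
      intro hk
      have h3 := ih (by omega)
      have h4 := h2 k (k + 1) (by omega) hk
      have h5 := sec_step hc hρ (x := c k) (y := c (k + 1)) (by omega)
      have h6 := hc.hyp.tri (ρ x) (ρ (c k)) (ρ (c (k + 1)))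
      have h7 : (1 + K * K1) * (k + 1) = (1 + K * K1) * k + (1 + K * K1) := by ring
      rw [h7]
      omega
  have h3 := key _ le_rfl
  rwa [h1] at h3

/-- (S1i) PROOF. `ρ x = ρ x'`, `ρ y = ρ y'`, `sec_dist`. -/
theorem sec_dist' (hc : Ctx F d N δ K η) {K1 : ℕ} {ρ : G → G} (hρ : Sec F d N K1 ρ) {x y x' y' : G} (hx : Lv F x x')
    (hy : Lv F y y') : d (ρ x) (ρ y) ≤ (1 + K * K1) * d x' y' := by
  rw [hρ.coset x x' hx, hρ.coset y y' hy]
  exact sec_dist hc hρ x' y'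

/-- (S1j) A bigger constant. PROOF. Trivial. -/
theorem sec_mono {K1 K1' : ℕ} {ρ : G → G} (hρ : Sec F d N K1 ρ) (h : K1 ≤ K1') : Sec F d N K1' ρ :=
  ⟨hρ.mem, hρ.coset, fun x s hs => (hρ.lip x s hs).trans h⟩

end H15M
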