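import Pool.Agent.Lib.H15M.S3
import Pool.Agent.Lib.H15M.A3

/-! # H15M, chunk S4 (M): ladders are quasiconvex -/

namespace H15M

variable {G : Type} [Group G] {F : Subgroup G} {d : G → G → ℕ} {N : G → ℕ} {δ K : ℕ} {η : ℕ → ℕ}

/-- (S4, M) PROOF. Let `Π x = md (α x) (β x) x` and `K4 = 1 + K * (2 * K ^ 3 + K + 2 * K1)`; `d (Π x) (Π y) ≤ K4 * d x y` for all `x, y` (`ret_lip`
along a geodesic). `Y = {v | Btw (α v) v (β v)}`; `Π v = v` for `v ∈ Y` (`md_btw`), `Π x ∈ Y` for all `x` (`Π x` is in the level of `x`, so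
`α (Π x) = α x`). `PathProp d K4 Y`: the path `Π (c i)`, `c` a geodesic from `a` to `b`. `D0` from `qc δ K4`: some `y ∈ Y` with `d w y ≤ D0`, and
`d w (Π w) ≤ d w y + d (Π y) (Π w) ≤ (1 + K4) * D0`. -/
theorem ladder (hc : Ctx F d N δ K η) (K1 : ℕ) : ∃ D2 : ℕ, ∀ α β : G → G, Sec F d N K1 α → Sec F d N K1 β →
    ∀ a b, Btw N (α a) a (β a) → Btw N (α b) b (β b) → ∀ w, d a w + d w b = d a b →
      d w (md F N (α w) (β w) w) ≤ D2 := by
  obtain ⟨D0, hD0⟩ := qc δ (1 + K * (2 * K ^ 3 + K + 2 * K1))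
  set K4 : ℕ := 1 + K * (2 * K ^ 3 + K + 2 * K1) with hK4
  have hK41 : 1 ≤ K4 := by omega
  refine ⟨D0 + K4 * D0, fun α β hα hβ a b ha hb w hw => ?_⟩
  have hT := hc.tree
  have hH := hc.hyp
  have lab : ∀ x, Lv F (α x) (β x) := fun x => lv_trans (lv_symm (hα.mem x)) (hβ.mem x)
  have lax : ∀ x, Lv F (α x) x := fun x => lv_symm (hα.mem x)
  have hmed : ∀ x, IsMed F N (α x) (β x) x (md F N (α x) (β x) x) := fun x => md_spec hT (lab x) (lax x)
  have hstep : ∀ x y, d x y ≤ 1 → d (md F N (α x) (β x) x) (md F N (α y) (β y) y) ≤ K4 :=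
    fun x y h => ret_lip hc hα hβ h
  have hpath : ∀ (n : ℕ) (c : ℕ → G), (∀ i, i < n → d (c i) (c (i + 1)) ≤ 1) →
      d (md F N (α (c 0)) (β (c 0)) (c 0)) (md F N (α (c n)) (β (c n)) (c n)) ≤ K4 * n := by
    intro n c
    induction n with
    | zero =>
      intro _
      rw [hH.self]
      exact Nat.zero_le _
    | succ n ih =>
      intro h
      have h1 := ih fun i hi => h i (Nat.lt_succ_of_lt hi)
      have h2 := hstep _ _ (h n (Nat.lt_succ_self n))
      have h3 := hH.tri (md F N (α (c 0)) (β (c 0)) (c 0)) (md F N (α (c n)) (β (c n)) (c n))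
        (md F N (α (c (n + 1))) (β (c (n + 1))) (c (n + 1)))
      rw [Nat.mul_succ]
      omega
  have hgeo : ∀ x y, ∃ c : ℕ → G, c 0 = x ∧ c (d x y) = y ∧ ∀ i, i < d x y → d (c i) (c (i + 1)) ≤ 1 := by
    intro x y
    obtain ⟨c, h0, h1, h2⟩ := hH.geo x y
    refine ⟨c, h0, h1, fun i hi => ?_⟩
    have h3 := h2 i (i + 1) (Nat.le_succ i) hi
    rw [h3]
    omega
  have hlip : ∀ x y, d (md F N (α x) (β x) x) (md F N (α y) (β y) y) ≤ K4 * d x y := by
    intro x y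
    obtain ⟨c, h0, h1, h2⟩ := hgeo x y
    have h3 := hpath (d x y) c h2
    rw [h0, h1] at h3
    exact h3
  have hfix : ∀ v, Btw N (α v) v (β v) → md F N (α v) (β v) v = v := fun v hv =>
    md_btw hT (lab v) (lax v) hv
  have hY : ∀ x, Btw N (α (md F N (α x) (β x) x)) (md F N (α x) (β x) x) (β (md F N (α x) (β x) x)) := by
    intro x
    have h1 : Lv F x (md F N (α x) (β x) x) := lv_trans (hα.mem x) (hmed x).1
    rw [← hα.coset _ _ h1, ← hβ.coset _ _ h1]
    exact (hmed x).2.1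
  have hP : PathProp d K4 {v | Btw N (α v) v (β v)} := by
    intro a ha b hb
    obtain ⟨c, h0, h1, h2⟩ := hgeo a b
    refine ⟨d a b, fun i => md F N (α (c i)) (β (c i)) (c i), ?_, ?_, ?_, fun i _ => hY _,
      fun i hi => hstep _ _ (h2 i hi)⟩
    · show md F N (α (c 0)) (β (c 0)) (c 0) = a
      rw [h0]
      exact hfix a ha
    · show md F N (α (c (d a b))) (β (c (d a b))) (c (d a b)) = b
      rw [h1]
      exact hfix b hb
    · have := Nat.le_mul_of_pos_left (d a b) (show 0 < K4 by omega)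
      omega
  obtain ⟨y, hy, hy1⟩ := hD0 d hH _ hP a ha b hb w hw
  have h1 := hlip y w
  rw [hfix y hy, hH.symm y w] at h1
  have h2 := hH.tri w y (md F N (α w) (β w) w)
  have h3 : K4 * d w y ≤ K4 * D0 := Nat.mul_le_mul_left _ hy1
  omega

end H15M
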