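import Pool.Agent.Lib.H15M.S1

/-! # H15M, chunk S7 (M): geodesic paths of levels -/

namespace H15M

variable {G : Type} [Group G] {F : Subgroup G} {d : G → G → ℕ} {N : G → ℕ} {δ K : ℕ} {η : ℕ → ℕ}

/-- (S7a, M) PROOF. Let `m` be the least number `d x y'`, `y'` in the level of `y`, and `p` a geodesic from `x` to this `y'`. `low`: suppose
`u` in the level of `p i`, `v` in the level of `p j`, `i ≤ j ≤ m` and `d u v < j - i`. Let `y'' = p i * (u⁻¹ * v) * ((p j)⁻¹ * y')`. It is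
`(p i * u⁻¹) * (v * (p j)⁻¹) * y'`, and `p i * u⁻¹, v * (p j)⁻¹ ∈ F` because `F` is normal, so `y''` is in the level of `y'`. But
`d x y'' ≤ d x (p i) + d u v + d (p j) y' < i + (j - i) + (m - j) = m` (`left`): contradiction. -/
theorem lp_exists (hc : Ctx F d N δ K η) (x y : G) : ∃ (m : ℕ) (p : ℕ → G), LPath F d m p ∧ p 0 = x ∧ Lv F (p m) y := by
  classical
  have hex : ∃ k, ∃ y', Lv F y y' ∧ d x y' = k := ⟨d x y, y, lv_refl F y, rfl⟩
  obtain ⟨y', hy', hd⟩ := Nat.find_spec hex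
  have hmin : ∀ z, Lv F y z → Nat.find hex ≤ d x z := fun z hz => Nat.find_min' hex ⟨z, hz, rfl⟩
  generalize Nat.find hex = m at *
  subst hd
  obtain ⟨p, p0, pm, hp⟩ := hc.hyp.geo x y'
  refine ⟨d x y', p, ⟨?_, ?_⟩, p0, ?_⟩
  · intro i hi
    rw [hp i (i + 1) (Nat.le_succ _) hi]
    omega
  · intro i j hij hj u v hu hv
    by_contra hcon
    have hn := hc.normal
    have f1 : p i * u⁻¹ ∈ F := by
      have h1 := hn.conj_mem _ (F.inv_mem hu) (p i)
      have e : p i * ((p i)⁻¹ * u)⁻¹ * (p i)⁻¹ = p i * u⁻¹ := by group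
      rwa [e] at h1
    have f2 : v * (p j)⁻¹ ∈ F := by
      have h1 := hn.conj_mem _ hv (p j)
      have e : p j * ((p j)⁻¹ * v) * (p j)⁻¹ = v * (p j)⁻¹ := by group
      rwa [e] at h1
    have f3 : Lv F y (p i * (u⁻¹ * v) * ((p j)⁻¹ * y')) := by
      refine lv_trans hy' ?_
      have h1 := hn.conj_mem _ (F.mul_mem f1 f2) y'⁻¹
      have e : y'⁻¹ * (p i * u⁻¹ * (v * (p j)⁻¹)) * y'⁻¹⁻¹ =
          y'⁻¹ * (p i * (u⁻¹ * v) * ((p j)⁻¹ * y')) := by group
      rw [e] at h1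
      exact h1
    have h1 := hmin _ f3
    have h2 := hc.hyp.tri x (p i) (p i * (u⁻¹ * v) * ((p j)⁻¹ * y'))
    have h3 := hc.hyp.tri (p i) (p i * (u⁻¹ * v)) (p i * (u⁻¹ * v) * ((p j)⁻¹ * y'))
    have h4 : d (p i) (p i * (u⁻¹ * v)) = d u v := by
      have e1 := hc.left (p i * u⁻¹) u v
      have e2 : p i * u⁻¹ * u = p i := by group
      have e3 : p i * u⁻¹ * v = p i * (u⁻¹ * v) := by group
      rw [e2, e3] at e1
      exact e1
    have h5 : d (p i * (u⁻¹ * v)) (p i * (u⁻¹ * v) * ((p j)⁻¹ * y')) = d (p j) y' := by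
      have e1 := hc.left (p i * (u⁻¹ * v) * (p j)⁻¹) (p j) y'
      have e2 : p i * (u⁻¹ * v) * (p j)⁻¹ * p j = p i * (u⁻¹ * v) := by group
      have e3 : p i * (u⁻¹ * v) * (p j)⁻¹ * y' = p i * (u⁻¹ * v) * ((p j)⁻¹ * y') := by group
      rw [e2, e3] at e1
      exact e1
    have h6 : d x (p i) = i := by
      have h7 := hp 0 i (Nat.zero_le _) (hij.trans hj)
      rw [p0, Nat.sub_zero] at h7
      exact h7
    have h8 : d (p j) y' = d x y' - j := by
      have h7 := hp j (d x y') hj le_rfl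
      rw [pm] at h7
      exact h7
    omega
  · rw [pm]
    exact lv_symm hy'

/-- (S7b, S) PROOF. Symmetry of `d`. -/
theorem lp_rev (hc : Ctx F d N δ K η) {m : ℕ} {x : ℕ → G} (h : LPath F d m x) : LPath F d m (fun i => x (m - i)) := by
  refine ⟨fun i hi => ?_, fun i j hij hj u v hu hv => ?_⟩
  · have h1 := h.step (m - (i + 1)) (by omega)
    have e : m - (i + 1) + 1 = m - i := by omega
    rw [e] at h1
    show d (x (m - i)) (x (m - (i + 1))) ≤ 1
    rw [hc.hyp.symm]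
    exact h1
  · have h1 := h.low (m - j) (m - i) (by omega) (by omega) v u hv hu
    rw [hc.hyp.symm] at h1
    omega

/-- (S7c, S) PROOF. Definition. -/
theorem lp_shift {m : ℕ} {x : ℕ → G} (h : LPath F d m x) (j : ℕ) (hj : j ≤ m) :
    LPath F d (m - j) (fun i => x (j + i)) := by
  refine ⟨fun i hi => h.step (j + i) (by omega), fun i k hik hk u v hu hv => ?_⟩
  have h1 := h.low (j + i) (j + k) (by omega) (by omega) u v hu hv
  omega

/-- (S7d, S) PROOF. Definition. -/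
theorem lp_take {m : ℕ} {x : ℕ → G} (h : LPath F d m x) (k : ℕ) (hk : k ≤ m) : LPath F d k x :=
  ⟨fun i hi => h.step i (by omega), fun i j hij hj u v hu hv => h.low i j hij (by omega) u v hu hv⟩

/-- (S7e, S) PROOF. `sec_step`; `low` with `u = ρ (x i)`, `v = ρ (x j)`. -/
theorem lp_sec (hc : Ctx F d N δ K η) {K1 : ℕ} {ρ : G → G} (hρ : Sec F d N K1 ρ) {m : ℕ} {x : ℕ → G}
    (h : LPath F d m x) : QSeq d (1 + K * K1) m (fun i => ρ (x i)) :=
  ⟨fun i hi => sec_step hc hρ (h.step i hi),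
    fun i j hij hj => h.low i j hij hj _ _ (hρ.mem _) (hρ.mem _)⟩

/-- (S7f, S) PROOF. `low`, symmetry. -/
theorem lp_cross (hc : Ctx F d N δ K η) {K1 : ℕ} {ρ τ : G → G} (hρ : Sec F d N K1 ρ) (hτ : Sec F d N K1 τ) {m : ℕ}
    {x : ℕ → G} (h : LPath F d m x) (i j : ℕ) (hi : i ≤ m) (hj : j ≤ m) :
    i - j ≤ d (ρ (x i)) (τ (x j)) ∧ j - i ≤ d (ρ (x i)) (τ (x j)) := by
  rcases le_total i j with hij | hij
  · have h1 := h.low i j hij hj _ _ (hρ.mem (x i)) (hτ.mem (x j))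
    omega
  · have h1 := h.low j i hij hi _ _ (hτ.mem (x j)) (hρ.mem (x i))
    rw [hc.hyp.symm] at h1
    omega

end H15M
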