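import Pool.Agent.Lib.H15M.S2
import Pool.Agent.Lib.H15M.S7
import Pool.Agent.Lib.H15M.A9

/-! # H15M, chunk S8 (S/M): two sections over a geodesic path of levels -/

namespace H15M

variable {G : Type} [Group G] {F : Subgroup G} {d : G → G → ℕ} {N : G → ℕ} {δ K : ℕ} {η : ℕ → ℕ}

/-- (S8a, S/M) PROOF. `R` from `fellow δ (1 + K * K1)`, `E0 = η R`. Apply it with `A = K * V`, `B = K * E` to `ρ ∘ x`, `τ ∘ x` (`lp_sec`, `lp_cross`; the
distances at the ends by `d_le`); `t_le` and `hc.mono`. -/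
theorem fellow_sec (hc : Ctx F d N δ K η) (K1 : ℕ) : ∃ E0 R : ℕ, ∀ E V : ℕ, ∀ ρ τ : G → G, Sec F d N K1 ρ →
    Sec F d N K1 τ → ∀ (n : ℕ) (x : ℕ → G), LPath F d n x → t N (ρ (x 0)) (τ (x 0)) ≤ V →
    t N (ρ (x n)) (τ (x n)) ≤ E → ∀ k, K * V + R ≤ k → k + K * E + R ≤ n → t N (ρ (x k)) (τ (x k)) ≤ E0 := by
  obtain ⟨R, hR⟩ := fellow δ (1 + K * K1)
  refine ⟨η R, R, ?_⟩
  intro E V ρ τ hρ hτ n x hx h0 hn k hk1 hk2
  have hlv : ∀ y : G, Lv F (ρ y) (τ y) := fun y => lv_trans (lv_symm (hρ.mem y)) (hτ.mem y)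
  have hd : ∀ y : G, d (ρ y) (τ y) ≤ K * t N (ρ y) (τ y) := fun y => d_le hc (hlv y)
  have h1 : d (ρ (x 0)) (τ (x 0)) ≤ K * V := le_trans (hd (x 0)) (Nat.mul_le_mul_left K h0)
  have h2 : d (ρ (x n)) (τ (x n)) ≤ K * E := le_trans (hd (x n)) (Nat.mul_le_mul_left K hn)
  have h3 : d (ρ (x k)) (τ (x k)) ≤ R :=
    hR d hc.hyp (K * V) (K * E) n (fun i => ρ (x i)) (fun i => τ (x i)) (lp_sec hc hρ hx) (lp_sec hc hτ hx)
      (fun i j hi hj => lp_cross hc hρ hτ hx i j hi hj) h1 h2 k hk1 hk2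
  exact le_trans (t_le hc (hlv (x k))) (hc.mono h3)

/-- (S8b, S/M) PROOF. `E0, R` from `fellow_sec`, `M3 = E0 + K ^ (K * E + R) * (E + 2 * K1)`, `k = K * M1 + R + 1`. If `k + K * E + R ≤ n` use
`fellow_sec` with `V = M1`. Otherwise `n - k ≤ K * E + R`, and `sec_grow` for the reversed path `i ↦ x (n - i)`, `n - k` steps, gives
`t (ρ (x k)) (τ (x k)) ≤ K ^ (n - k) * (E + 2 * K1)`. -/
theorem short (hc : Ctx F d N δ K η) (K1 E : ℕ) : ∃ M3 : ℕ, ∀ M1 : ℕ, ∃ k : ℕ, 1 ≤ k ∧ ∀ ρ τ : G → G,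
    Sec F d N K1 ρ → Sec F d N K1 τ → ∀ (n : ℕ) (x : ℕ → G), LPath F d n x → k ≤ n →
    t N (ρ (x 0)) (τ (x 0)) ≤ M1 → t N (ρ (x n)) (τ (x n)) ≤ E → t N (ρ (x k)) (τ (x k)) ≤ M3 := by
  obtain ⟨E0, R, hfel⟩ := fellow_sec (δ := δ) (K := K) (η := η) hc K1
  refine ⟨E0 + K ^ (K * E + R) * (E + 2 * K1), ?_⟩
  intro M1
  refine ⟨K * M1 + R + 1, by omega, ?_⟩
  intro ρ τ hρ hτ n x hx hk h0 hn
  by_cases hc1 : K * M1 + R + 1 + K * E + R ≤ n
  · have := hfel E M1 ρ τ hρ hτ n x hx h0 hn (K * M1 + R + 1) (by omega) hc1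
    omega
  · push Not at hc1
    set k := K * M1 + R + 1 with hkdef
    have hstep : ∀ i, i < n - k → d ((fun i => x (n - i)) i) ((fun i => x (n - i)) (i + 1)) ≤ 1 := by
      intro i hi
      have h1 := hx.step (n - (i + 1)) (by omega)
      have h2 : n - (i + 1) + 1 = n - i := by omega
      rw [h2, hc.hyp.symm] at h1
      exact h1
    have hg := sec_grow hc hρ hτ (n - k) (fun i => x (n - i)) hstep
    have e1 : n - (n - k) = k := by omega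
    have e2 : n - 0 = n := by omega
    simp only [e1, e2] at hg
    have h3 : K ^ (n - k) * (t N (ρ (x n)) (τ (x n)) + 2 * K1) ≤ K ^ (K * E + R) * (E + 2 * K1) := by
      apply Nat.mul_le_mul
      · exact Nat.pow_le_pow_right (by have := hc.K2; omega) (by omega)
      · omega
    omega

end H15M
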