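import Pool.Agent.Lib.H15M.S8
import Pool.Agent.Lib.H15M.S3
import Pool.Agent.Lib.H15M.T5

/-! # H15M, chunk S9 (M): uniform contraction -/

namespace H15M

variable {G : Type} [Group G] {F : Subgroup G} {d : G → G → ℕ} {N : G → ℕ} {δ K : ℕ} {η : ℕ → ℕ}

/-- (S9a, S/M) PROOF. `c` from `lgeo` for `v, w`, `p i = c (min (i * M) (t v w))`; `q = t v w / M + 1` steps, `q * M ≤ t v w + M`. -/
theorem subdiv (hT : TreeN F N) (M : ℕ) (hM : 1 ≤ M) {v w : G} (h : Lv F v w) : ∃ (q : ℕ) (p : ℕ → G), p 0 = v ∧ p q = w ∧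
    q * M ≤ t N v w + M ∧ (∀ i, i ≤ q → Lv F v (p i) ∧ Btw N v (p i) w) ∧ ∀ i, i < q → t N (p i) (p (i + 1)) ≤ M := by
  obtain ⟨c, c0, cT, hc, hcd⟩ := lgeo hT h
  have hdiv := Nat.div_add_mod (t N v w) M
  have hmod := Nat.mod_lt (t N v w) (show 0 < M by omega)
  generalize t N v w = T at *
  have e1 : T / M * M + T % M = T := by
    rw [Nat.mul_comm]
    exact hdiv
  have e2 : (T / M + 1) * M = T / M * M + M := by ring
  refine ⟨T / M + 1, fun i => c (min (i * M) T), ?_, ?_, ?_, fun i _ => hc _ (min_le_right _ _), fun i _ => ?_⟩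
  · show c (min (0 * M) T) = v
    rw [Nat.zero_mul, Nat.zero_min, c0]
  · show c (min ((T / M + 1) * M) T) = w
    rw [min_eq_right (by omega), cT]
  · omega
  · show t N (c (min (i * M) T)) (c (min ((i + 1) * M) T)) ≤ M
    have e3 : (i + 1) * M = i * M + M := by ring
    rw [hcd _ _ (by omega) (min_le_right _ _), e3]
    omega

theorem s9_dist (hT : TreeN F N) {x u w y : G} (hu : Lv F x u) (hw : Lv F x w) (hy : Lv F x y) (h : Btw N x u y)
    (h' : Btw N x w y) : t N u w ≤ t N x y := by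
  have e : t N w u = t N u w := t_symm hT (lv_trans (lv_symm hw) hu)
  rcases le_total (t N x u) (t N x w) with hle | hle
  · have h1 := (btw_lin hT hu hw hy h h' hle).1
    unfold Btw at *
    omega
  · have h1 := (btw_lin hT hw hu hy h' h hle).1
    unfold Btw at *
    omega

/-- (S9b, M) PROOF. `K8 = c5 K K5`. `M3` from `short hc K8 E`, `M1 = 8 * (M3 + 1)`, `k` from `short` for `M1`, `c1 = 8 * (M3 + 1) + 16 * (K ^ k * K8)`. For
a point `a` of the level of `z j` between `ρm (z j)` and `ρp (z j)` take a section `ζ` with `ζ a = a` (`hB`) and `ρa x = md (ρm x) (ρp x) (ζ x)`: a section with the constant `K8`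
(`sec_md`), `ρa (z j) = md (ρm (z j)) (ρp (z j)) a = a` (`md_btw`; `ζ (z j) = ζ a`). For two such points `a, b` with `t a b ≤ M1`: over `i ↦ z (j + i)` (`lp_shift`), from `j` to
`m`, at the end both are between `ρm (z m)` and `ρp (z m)`, so at distance at most `E` (two points between `x` and `y` have distance at most `t x y`: `btw_lin`). `short`:
`t (ρa (z (j + k))) (ρb (z (j + k))) ≤ M3`. Subdivide `[v, v']` with `M = M1` (`subdiv`): the points are between `ρm (z j)` and `ρp (z j)` (`btw_conv`), so with `q` pieces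
`t (ρv (z (j + k))) (ρv' (z (j + k))) ≤ q * M3` (triangle inequality), `8 * (q * M3) ≤ q * M1 ≤ t v v' + M1`. `t (v * u) (ρv (z (j + k))) ≤ K ^ k * K8` (`sec_lift` for the path
`i ↦ z (j + i)`; `ρv (z j) = v`), the same for `v'`. -/
theorem contr (hc : Ctx F d N δ K η) (K5 : ℕ) (hB : Base F d N K5) (E : ℕ) : ∃ k c1 : ℕ, 1 ≤ k ∧
    ∀ ρm ρp : G → G, Sec F d N K5 ρm → Sec F d N K5 ρp → ∀ (m : ℕ) (z : ℕ → G), LPath F d m z →
    t N (ρm (z m)) (ρp (z m)) ≤ E → ∀ j, j + k ≤ m → ∀ v v', Lv F (z j) v → Lv F (z j) v' →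
    Btw N (ρm (z j)) v (ρp (z j)) → Btw N (ρm (z j)) v' (ρp (z j)) →
    8 * t N (v * ((z j)⁻¹ * z (j + k))) (v' * ((z j)⁻¹ * z (j + k))) ≤ t N v v' + c1 := by
  obtain ⟨M3, hM3⟩ := short hc (c5 K K5) E
  obtain ⟨k, hk1, hk⟩ := hM3 (8 * (M3 + 1))
  refine ⟨k, 8 * (M3 + 1) + 16 * (K ^ k * c5 K K5), hk1, ?_⟩
  intro ρm ρp hm hp m z hz hE j hjk v v' hv hv' hb hb'
  have hT := hc.tree
  -- the sections through the points of the segment
  have hsec : ∀ a : G, ∃ ρ : G → G, Lv F (z j) a → Btw N (ρm (z j)) a (ρp (z j)) →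
      (Sec F d N (c5 K K5) ρ ∧ ρ (z j) = a ∧ ∀ x, Btw N (ρm x) (ρ x) (ρp x)) := by
    intro a
    obtain ⟨ζ, hζ, hζa⟩ := hB a
    refine ⟨fun x => md F N (ρm x) (ρp x) (ζ x), fun ha hab => ⟨sec_md hc hm hp hζ, ?_, ?_⟩⟩
    · show md F N (ρm (z j)) (ρp (z j)) (ζ (z j)) = a
      rw [hζ.coset (z j) a ha, hζa]
      exact md_btw hT (lv_trans (lv_symm (hm.mem (z j))) (hp.mem (z j)))
        (lv_trans (lv_symm (hm.mem (z j))) ha) hab
    · exact fun x => sec_btw hc hm hp hζ x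
  choose σ hσ using hsec
  have hmp : ∀ x, Lv F (ρm x) (ρp x) := fun x => lv_trans (lv_symm (hm.mem x)) (hp.mem x)
  -- two near points
  have hnear : ∀ a b, Lv F (z j) a → Lv F (z j) b → Btw N (ρm (z j)) a (ρp (z j)) →
      Btw N (ρm (z j)) b (ρp (z j)) → t N a b ≤ 8 * (M3 + 1) → t N (σ a (z (j + k))) (σ b (z (j + k))) ≤ M3 := by
    intro a b ha hb1 hab hbb hd
    obtain ⟨a1, a2, a3⟩ := hσ a ha hab
    obtain ⟨b1, b2, b3⟩ := hσ b hb1 hbb
    refine hk (σ a) (σ b) a1 b1 (m - j) (fun i => z (j + i)) (lp_shift hz j (by omega)) (by omega) ?_ ?_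
    · show t N (σ a (z (j + 0))) (σ b (z (j + 0))) ≤ 8 * (M3 + 1)
      rw [Nat.add_zero, a2, b2]
      exact hd
    · show t N (σ a (z (j + (m - j)))) (σ b (z (j + (m - j)))) ≤ E
      have e : j + (m - j) = m := by omega
      rw [e]
      exact (s9_dist hT (lv_trans (lv_symm (hm.mem _)) (a1.mem _)) (lv_trans (lv_symm (hm.mem _)) (b1.mem _))
        (hmp _) (a3 _) (b3 _)).trans hE
  -- subdivision
  have hvv : Lv F v v' := lv_trans (lv_symm hv) hv'
  obtain ⟨q, p, p0, pq, hq, hpi, hps⟩ := subdiv hT (8 * (M3 + 1)) (by omega) hvv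
  have hlm : Lv F (ρm (z j)) v := lv_trans (lv_symm (hm.mem _)) hv
  have hlm' : Lv F (ρm (z j)) v' := lv_trans (lv_symm (hm.mem _)) hv'
  have hpl : ∀ i, i ≤ q → Lv F (z j) (p i) := fun i hi => lv_trans hv (hpi i hi).1
  have hpb : ∀ i, i ≤ q → Btw N (ρm (z j)) (p i) (ρp (z j)) := fun i hi =>
    btw_conv hT hlm hlm' (lv_trans (lv_symm (hm.mem _)) (hpl i hi)) (hmp _) hb hb' (hpi i hi).2
  have hlev : ∀ i, i ≤ q → Lv F (z (j + k)) (σ (p i) (z (j + k))) := fun i hi =>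
    (hσ (p i) (hpl i hi) (hpb i hi)).1.mem _
  have hchain : ∀ i, i ≤ q → t N (σ (p 0) (z (j + k))) (σ (p i) (z (j + k))) ≤ i * M3 := by
    intro i
    induction i with
    | zero =>
      intro _
      rw [t_self hT]
      exact Nat.zero_le _
    | succ i ih =>
      intro hi
      have h1 := ih (by omega)
      have h2 := hnear (p i) (p (i + 1)) (hpl i (by omega)) (hpl (i + 1) hi) (hpb i (by omega)) (hpb (i + 1) hi)
        (hps i (by omega))
      have h3 := t_tri hT (lv_trans (lv_symm (hlev 0 (Nat.zero_le _))) (hlev i (by omega)))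
        (lv_trans (lv_symm (hlev i (by omega))) (hlev (i + 1) hi))
      have e : (i + 1) * M3 = i * M3 + M3 := by ring
      omega
  have h1 := hchain q le_rfl
  rw [p0, pq] at h1
  -- lifting
  obtain ⟨a1, a2, _⟩ := hσ v hv hb
  obtain ⟨b1, b2, _⟩ := hσ v' hv' hb'
  have hlift : ∀ ρ : G → G, Sec F d N (c5 K K5) ρ → t N (ρ (z j) * ((z j)⁻¹ * z (j + k))) (ρ (z (j + k))) ≤
      K ^ k * c5 K K5 := by
    intro ρ hρ
    have h2 := sec_lift hc hρ k (fun i => z (j + i)) (fun i hi => hz.step (j + i) (by omega))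
    exact (Nat.le_add_right _ _).trans h2
  have h2 := hlift (σ v) a1
  have h3 := hlift (σ v') b1
  rw [a2] at h2
  rw [b2] at h3
  have hlu : ∀ w, Lv F (z j) w → Lv F (z (j + k)) (w * ((z j)⁻¹ * z (j + k))) := by
    intro w hw
    have h4 := lv_right hc.normal ((z j)⁻¹ * z (j + k)) hw
    rwa [mul_inv_cancel_left] at h4
  have l1 := hlu v hv
  have l2 := hlu v' hv'
  have l3 : Lv F (z (j + k)) (σ v (z (j + k))) := a1.mem _
  have l4 : Lv F (z (j + k)) (σ v' (z (j + k))) := b1.mem _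
  have i1 := t_tri hT (lv_trans (lv_symm l1) l3) (lv_trans (lv_symm l3) l2)
  have i2 := t_tri hT (lv_trans (lv_symm l3) l4) (lv_trans (lv_symm l4) l2)
  have i3 : t N (σ v' (z (j + k))) (v' * ((z j)⁻¹ * z (j + k))) =
      t N (v' * ((z j)⁻¹ * z (j + k))) (σ v' (z (j + k))) := t_symm hT (lv_trans (lv_symm l4) l2)
  have i4 : 8 * (q * M3) ≤ q * (8 * (M3 + 1)) := by
    have e : q * (8 * (M3 + 1)) = 8 * (q * M3) + 8 * q := by ring
    omega
  omega

end H15M
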