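import Pool.Agent.Lib.H15M.Defs

/-! # H15M, chunk T1 (S, 11 short): distances in a level -/

namespace H15M

variable {G : Type} [Group G] {F : Subgroup G} {N : G → ℕ}

/-- (T1a) PROOF. `x⁻¹ * x = 1`. -/
theorem lv_refl (F : Subgroup G) (x : G) : Lv F x x := by
  unfold Lv
  rw [inv_mul_cancel]
  exact F.one_mem

/-- (T1b) PROOF. Inverse. -/
theorem lv_symm {x y : G} (h : Lv F x y) : Lv F y x := by
  have h1 : (x⁻¹ * y)⁻¹ ∈ F := F.inv_mem h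
  have h2 : (x⁻¹ * y)⁻¹ = y⁻¹ * x := by group
  rw [h2] at h1
  exact h1

/-- (T1c) PROOF. Product. -/
theorem lv_trans {x y z : G} (h : Lv F x y) (h' : Lv F y z) : Lv F x z := by
  have h1 : (x⁻¹ * y) * (y⁻¹ * z) ∈ F := F.mul_mem h h'
  have h2 : (x⁻¹ * y) * (y⁻¹ * z) = x⁻¹ * z := by group
  rw [h2] at h1
  exact h1

/-- (T1d) PROOF. `(g * x)⁻¹ * (g * y) = x⁻¹ * y`. -/
theorem lv_left {x y : G} (g : G) (h : Lv F x y) : Lv F (g * x) (g * y) := by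
  have h2 : (g * x)⁻¹ * (g * y) = x⁻¹ * y := by group
  unfold Lv
  rw [h2]
  exact h

/-- (T1e) PROOF. `(x * s)⁻¹ * (y * s) = s⁻¹ * (x⁻¹ * y) * s`, `F` is normal. -/
theorem lv_right (hF : F.Normal) {x y : G} (s : G) (h : Lv F x y) : Lv F (x * s) (y * s) := by
  have h1 := hF.conj_mem _ h s⁻¹
  have h2 : s⁻¹ * (x⁻¹ * y) * s⁻¹⁻¹ = (x * s)⁻¹ * (y * s) := by group
  rw [h2] at h1
  exact h1

/-- (T1f) PROOF. `(g * x)⁻¹ * (g * y) = x⁻¹ * y`. -/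
theorem t_left (N : G → ℕ) (g x y : G) : t N (g * x) (g * y) = t N x y := by
  have h2 : (g * x)⁻¹ * (g * y) = x⁻¹ * y := by group
  unfold t
  rw [h2]

/-- (T1g) PROOF. `hT.one`. -/
theorem t_self (hT : TreeN F N) (x : G) : t N x x = 0 := by
  unfold t
  rw [inv_mul_cancel, hT.one]

/-- (T1h) PROOF. `hT.inv`. -/
theorem t_symm (hT : TreeN F N) {x y : G} (h : Lv F x y) : t N x y = t N y x := by
  have h2 : (x⁻¹ * y)⁻¹ = y⁻¹ * x := by group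
  unfold t
  rw [← h2, hT.inv _ h]

/-- (T1i) PROOF. `hT.mul`. -/
theorem t_tri (hT : TreeN F N) {x y z : G} (h : Lv F x y) (h' : Lv F y z) : t N x z ≤ t N x y + t N y z := by
  have h2 : (x⁻¹ * y) * (y⁻¹ * z) = x⁻¹ * z := by group
  have h1 := hT.mul _ h _ h'
  rw [h2] at h1
  exact h1

/-- (T1j) PROOF. `hT.eq_one`. -/
theorem t_zero (hT : TreeN F N) {x y : G} (h : Lv F x y) (h0 : t N x y = 0) : x = y := by
  exact inv_mul_eq_one.1 (hT.eq_one _ h h0)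

/-- (T1k) PROOF. `hT.four` with `u = x⁻¹ * y`, `v = x⁻¹ * z`, `w = x⁻¹ * w`. -/
theorem t_four (hT : TreeN F N) {x y z w : G} (hy : Lv F x y) (hz : Lv F x z) (hw : Lv F x w) :
    t N x z + t N y w ≤ max (t N x y + t N z w) (t N x w + t N y z) := by
  have h1 := hT.four _ hy _ hz _ hw
  have e1 : (x⁻¹ * y)⁻¹ * (x⁻¹ * w) = y⁻¹ * w := by group
  have e2 : (x⁻¹ * z)⁻¹ * (x⁻¹ * w) = z⁻¹ * w := by group
  have e3 : (x⁻¹ * y)⁻¹ * (x⁻¹ * z) = y⁻¹ * z := by group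
  rw [e1, e2, e3] at h1
  exact h1

end H15M
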