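import Pool.Agent.Lib.H15M.T1

/-! # H15M, chunk T2 (S/M): betweenness in a level. All points are in one level. Only inequalities between natural
numbers: `t_four`, `t_symm`, `t_tri`, then `omega`. -/

namespace H15M

variable {G : Type} [Group G] {F : Subgroup G} {N : G → ℕ}

/-- (T2a) PROOF. `t_symm`. -/
theorem btw_symm (hT : TreeN F N) {x v y : G} (hv : Lv F x v) (hy : Lv F x y) (h : Btw N x v y) : Btw N y v x := by
  have h1 := t_symm hT hv
  have h2 := t_symm hT (lv_trans (lv_symm hv) hy)
  have h3 := t_symm hT hy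
  unfold Btw at *
  omega

/-- (T2b) PROOF. `t x x = 0`. -/
theorem btw_left (hT : TreeN F N) (x y : G) : Btw N x x y := by
  have h1 := t_self hT x
  unfold Btw
  omega

/-- (T2c) PROOF. `t y y = 0`. -/
theorem btw_right (hT : TreeN F N) (x y : G) : Btw N x y y := by
  have h1 := t_self hT y
  unfold Btw
  omega

/-- (T2d) PROOF. `t_four` for `x, v, y, z` in the form `t x y + t v z ≤ max (t x v + t y z) (t x z + t v y)`. In the first
case `t z v + t v y ≤ t z y`, in the second `t x v + t v z ≤ t x z`. -/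
theorem btw_split (hT : TreeN F N) {x v y : G} (z : G) (hv : Lv F x v) (hy : Lv F x y) (hz : Lv F x z)
    (h : Btw N x v y) : Btw N x v z ∨ Btw N z v y := by
  have h1 := t_four hT hv hy hz
  have h2 := t_tri hT hv (lv_trans (lv_symm hv) hz)
  have h3 := t_tri hT (lv_trans (lv_symm hz) hv) (lv_trans (lv_symm hv) hy)
  have h4 := t_symm hT (lv_trans (lv_symm hz) hv)
  have h5 := t_symm hT (lv_trans (lv_symm hz) hy)
  unfold Btw at *
  omega

/-- (T2e) PROOF. `t_four` for `x, u, y, v`: `t x y + t u v ≤ max (t x u + t v y) (t x v + t u y)`, and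
`t u y = t x y - t x u`, `t v y = t x y - t x v`: so `t u v ≤ t x v - t x u`. -/
theorem btw_lin (hT : TreeN F N) {x u v y : G} (hu : Lv F x u) (hv : Lv F x v) (hy : Lv F x y) (h : Btw N x u y)
    (h' : Btw N x v y) (hle : t N x u ≤ t N x v) : Btw N x u v ∧ Btw N u v y := by
  have h1 := t_four hT hu hy hv
  have h2 := t_tri hT hu (lv_trans (lv_symm hu) hv)
  have h3 := t_symm hT (lv_trans (lv_symm hy) hv)
  unfold Btw at *
  omega

/-- (T2f) PROOF. `btw_lin`: `t u v = 0`, `t_zero`. -/
theorem btw_eq (hT : TreeN F N) {x u v y : G} (hu : Lv F x u) (hv : Lv F x v) (hy : Lv F x y) (h : Btw N x u y)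
    (h' : Btw N x v y) (he : t N x u = t N x v) : u = v := by
  have h1 := (btw_lin hT hu hv hy h h' he.le).1
  refine t_zero hT (lv_trans (lv_symm hu) hv) ?_
  unfold Btw at h1
  omega

/-- (T2g) PROOF. `t x y ≤ t x u + t u y ≤ t x u + t u v + t v y = t x v + t v y = t x y`. -/
theorem btw_trans (hT : TreeN F N) {x u v y : G} (hu : Lv F x u) (hv : Lv F x v) (hy : Lv F x y) (h : Btw N x v y)
    (h' : Btw N x u v) : Btw N x u y ∧ Btw N u v y := by
  have h1 := t_tri hT hu (lv_trans (lv_symm hu) hy)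
  have h2 := t_tri hT (lv_trans (lv_symm hu) hv) (lv_trans (lv_symm hv) hy)
  unfold Btw at *
  omega

/-- (T2h) PROOF. `btw_split` for `u, w, v` and `x`: `Btw u w x` or `Btw x w v`; in the first case
`t x w + t w y ≤ t x w + t w u + t u y = t x u + t u y`, the second is similar. -/
theorem btw_conv (hT : TreeN F N) {x u v w y : G} (hu : Lv F x u) (hv : Lv F x v) (hw : Lv F x w) (hy : Lv F x y)
    (h : Btw N x u y) (h' : Btw N x v y) (h'' : Btw N u w v) : Btw N x w y := by
  rcases btw_split hT x (lv_trans (lv_symm hu) hw) (lv_trans (lv_symm hu) hv) (lv_symm hu) h'' with h1 | h1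
  · exact (btw_trans hT hw hu hy h (btw_symm hT (lv_trans (lv_symm hu) hw) (lv_symm hu) h1)).1
  · exact (btw_trans hT hw hv hy h' h1).1

end H15M
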