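import Pool.Agent.Lib.H15M.T2

/-! # H15M, chunk T3 (S/M, 7 short): medians -/

namespace H15M

variable {G : Type} [Group G] {F : Subgroup G} {N : G → ℕ}

/-- (T3a) PROOF. `hT.med` with `u = x⁻¹ * y`, `v = x⁻¹ * z` gives `m`; take `x * m`. Then `Exists.choose_spec`. -/
theorem md_spec (hT : TreeN F N) {x y z : G} (hy : Lv F x y) (hz : Lv F x z) : IsMed F N x y z (md F N x y z) := by
  have h : ∃ m, IsMed F N x y z m := by
    obtain ⟨m, hm, h1, h2, h3⟩ := hT.med (x⁻¹ * y) hy (x⁻¹ * z) hz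
    refine ⟨x * m, ?_, ?_, ?_, ?_⟩
    · unfold Lv
      rwa [inv_mul_cancel_left]
    · unfold Btw t
      rw [inv_mul_cancel_left, mul_inv_rev, mul_assoc]
      exact h1
    · unfold Btw t
      rw [inv_mul_cancel_left, mul_inv_rev, mul_assoc]
      exact h2
    · unfold Btw t
      have e1 : (x⁻¹ * y)⁻¹ * m = y⁻¹ * (x * m) := by group
      have e2 : m⁻¹ * (x⁻¹ * z) = (x * m)⁻¹ * z := by group
      have e3 : (x⁻¹ * y)⁻¹ * (x⁻¹ * z) = y⁻¹ * z := by group
      rw [e1, e2, e3] at h3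
      exact h3
  unfold md
  rw [dif_pos h]
  exact h.choose_spec

/-- (T3b) PROOF. `2 * t x m = t x y + t x z - t y z` for both medians, both are between `x` and `y`: `btw_eq`. -/
theorem med_uniq (hT : TreeN F N) {x y z m m' : G} (hy : Lv F x y) (hz : Lv F x z) (hm : IsMed F N x y z m)
    (hm' : IsMed F N x y z m') : m = m' := by
  obtain ⟨h1, h2, h3, h4⟩ := hm
  obtain ⟨h1', h2', h3', h4'⟩ := hm'
  refine btw_eq hT h1 h1' hy h2 h2' ?_
  have e1 := t_symm hT (lv_trans (lv_symm hy) h1)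
  have e2 := t_symm hT (lv_trans (lv_symm hy) h1')
  unfold Btw at *
  omega

/-- (T3c) PROOF. `md_spec`, `med_uniq`. -/
theorem md_of (hT : TreeN F N) {x y z m : G} (hy : Lv F x y) (hz : Lv F x z) (hm : IsMed F N x y z m) :
    md F N x y z = m := by
  exact med_uniq hT hy hz (md_spec hT hy hz) hm

/-- (T3d) PROOF. `g * md x y z` is a median of `g * x, g * y, g * z` (`t_left`, `lv_left`); `md_of`. -/
theorem md_left (hT : TreeN F N) {x y z : G} (g : G) (hy : Lv F x y) (hz : Lv F x z) :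
    md F N (g * x) (g * y) (g * z) = g * md F N x y z := by
  obtain ⟨h1, h2, h3, h4⟩ := md_spec hT hy hz
  refine md_of hT (lv_left g hy) (lv_left g hz) ⟨lv_left g h1, ?_, ?_, ?_⟩ <;>
  · unfold Btw at *
    rw [t_left, t_left, t_left]
    assumption

/-- (T3e) PROOF. `md_of`. -/
theorem md_swap (hT : TreeN F N) {x y z : G} (hy : Lv F x y) (hz : Lv F x z) :
    md F N x y z = md F N y x z ∧ md F N x y z = md F N x z y := by
  obtain ⟨h1, h2, h3, h4⟩ := md_spec hT hy hz
  constructor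
  · exact (md_of hT (lv_symm hy) (lv_trans (lv_symm hy) hz) ⟨lv_trans (lv_symm hy) h1,
      btw_symm hT h1 hy h2, h4, h3⟩).symm
  · exact (md_of hT hz hy ⟨h1, h3, h2, btw_symm hT (lv_trans (lv_symm hy) h1)
      (lv_trans (lv_symm hy) hz) h4⟩).symm

/-- (T3f) PROOF. `z` is a median. -/
theorem md_btw (hT : TreeN F N) {x y z : G} (hy : Lv F x y) (hz : Lv F x z) (h : Btw N x z y) : md F N x y z = z := by
  exact md_of hT hy hz ⟨hz, h, btw_right hT x z, btw_right hT y z⟩

/-- (T3g) PROOF. `x` is a median of `x, x, z`. -/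
theorem md_same (hT : TreeN F N) {x z : G} (hz : Lv F x z) : md F N x x z = x := by
  exact md_of hT (lv_refl F x) hz ⟨lv_refl F x, btw_left hT x x, btw_left hT x z, btw_left hT x z⟩

end H15M
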