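import Pool.Agent.Lib.H15M.M1
import Pool.Agent.Lib.H15M.M2
import Pool.Agent.Lib.H15M.B4
import Pool.Agent.Lib.H15M.Q1
import Pool.Agent.Lib.H15M.Q2
import Pool.Agent.Lib.H15M.E3

/-! # H15M, chunk Z1 (S/M): the main theorem -/

namespace H15M

/-- the subgroup `H` is quasiconvex (conclusion of S01207) -/
def Quasiconvex {G : Type} [Group G] (d : G → G → ℕ) (H : Subgroup G) : Prop :=
  ∃ K : ℕ, ∀ h : G, h ∈ H → ∀ g : G, d 1 g + d g h = d 1 h → ∃ h' : G, h' ∈ H ∧ d g h' ≤ K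

/-- (Z1, S/M) PROOF. `ctx_exists`, `twoB` for two elements of `ι` and `base_exists`, `cocycle`, `hull` (`T` from `hfg`). If for some `n0` all `w` between `1` and `h ∈ H` satisfy `∃ f ∈ F, d w f ≤ n0`: `crit`.
Otherwise `levels` and `pigeon`. -/
theorem main {G : Type} [Group G] (S : Finset G) (hS : Subgroup.closure (S : Set G) = ⊤) (d : G → G → ℕ)
    (hd : WordMetric S d) (δ : ℕ) (hδ : Gromov d δ) (F : Subgroup G) (hF : F.Normal) (ι : Type) [Finite ι]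
    [Nontrivial ι] (e : FreeGroup ι ≃* F) (H : Subgroup G) (hH : H ≤ F) (hfg : H.FG) :
    Quasiconvex d H ∨ ∃ x ∈ F, x ≠ 1 ∧ {κ | ∃ g, col H g = κ ∧ g * x * g⁻¹ ∈ H}.Infinite := by
  obtain ⟨⟨K, η, hc⟩, hfin⟩ := ctx_exists hS hd hδ F hF e
  obtain ⟨i, j, hij⟩ := exists_pair_ne ι
  obtain ⟨K1, hB⟩ := base_exists hc (twoB F e hij)
  obtain ⟨T, hTH⟩ := hfg
  obtain ⟨CH, hCH⟩ := hull hc.tree hH T hTH
  by_cases hb : ∃ n0 : ℕ, ∀ h ∈ H, ∀ w, d 1 w + d w h = d 1 h → ∃ f ∈ F, d w f ≤ n0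
  · left
    obtain ⟨n0, hb⟩ := hb
    obtain ⟨K0, hK0⟩ := crit hc hH CH hCH n0 hb
    exact ⟨K0, fun h hh g hg => hK0 h hh g hg⟩
  · right
    push Not at hb
    obtain ⟨V, hV⟩ := levels hc (cocycle F e) K1 hB hH T hTH hfin CH hCH hb
    exact pigeon hF hH hfin V hV

end H15M
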