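import Pool.Agent.Lib.H15M.Z1

/-! # H15M, chunk Z2 (S/M): finite width, finite height, malnormal subgroups -/

namespace H15M

variable {G : Type} [Group G]

/-- finite width: at most `n` different right cosets `H g` have pairwise infinite intersections `g⁻¹ H g ∩ g'⁻¹ H g'` -/
def FiniteWidth (H : Subgroup G) : Prop :=
  ∃ n : ℕ, ∀ T : Finset G, (∀ g ∈ T, ∀ g' ∈ T, g ≠ g' → g' * g⁻¹ ∉ H ∧
    {x : G | g * x * g⁻¹ ∈ H ∧ g' * x * g'⁻¹ ∈ H}.Infinite) → T.card ≤ n

/-- finite height: at most `n` different right cosets `H g` have an infinite intersection of all `g⁻¹ H g` -/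
def FiniteHeight (H : Subgroup G) : Prop :=
  ∃ n : ℕ, ∀ T : Finset G, (∀ g ∈ T, ∀ g' ∈ T, g ≠ g' → g' * g⁻¹ ∉ H) →
    {x : G | ∀ g ∈ T, g * x * g⁻¹ ∈ H}.Infinite → T.card ≤ n

/-- (Z2a, S) PROOF. For `T` with at least two elements every intersection of two contains the intersection of all. (`T.card ≤ 1`: take `n + 1`.) -/
theorem height_of_width (H : Subgroup G) (h : FiniteWidth H) : FiniteHeight H := by
  obtain ⟨n, hn⟩ := h
  refine ⟨n, fun T hT hinf => hn T fun g hg g' hg' hne => ⟨hT g hg g' hg' hne, ?_⟩⟩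
  refine hinf.mono ?_
  intro x hx
  exact ⟨hx g hg, hx g' hg'⟩

/-- (Z2b, S) PROOF. `n = 1`. Let `g ≠ g'` be in `T` with `g' * g⁻¹ ∉ H`; `x` in the intersection: `y = g * x * g⁻¹ ∈ H` and `g' * x * g'⁻¹ = (g' * g⁻¹) * y * (g' * g⁻¹)⁻¹ ∈ H`, so `y = 1` by
malnormality (for `(g' * g⁻¹)⁻¹ ∉ H`): the intersection is `{1}`, not infinite. -/
theorem width_of_malnormal (H : Subgroup G) (hm : ∀ g : G, g ∉ H → ∀ x : G, x ∈ H → g⁻¹ * x * g ∈ H → x = 1) :
    FiniteWidth H := by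
  refine ⟨1, fun T hT => ?_⟩
  by_contra hlt
  rw [not_le, Finset.one_lt_card] at hlt
  obtain ⟨g, hg, g', hg', hne⟩ := hlt
  obtain ⟨h1, h2⟩ := hT g hg g' hg' hne
  refine h2 ((Set.finite_singleton (1 : G)).subset ?_)
  rintro x ⟨hx, hx'⟩
  have h3 : g * g'⁻¹ ∉ H := by
    intro h
    apply h1
    have h4 := H.inv_mem h
    rwa [mul_inv_rev, inv_inv] at h4
  have h4 := hm (g * g'⁻¹) h3 (g * x * g⁻¹) hx (by
    have h5 : (g * g'⁻¹)⁻¹ * (g * x * g⁻¹) * (g * g'⁻¹) = g' * x * g'⁻¹ := by group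
    rwa [h5])
  have h5 : x = g⁻¹ * (g * x * g⁻¹) * g := by group
  rw [h4, mul_one, inv_mul_cancel] at h5
  exact h5

/-- (Z2c, S/M) PROOF. Choose `n + 1` elements of the infinite set and `g` for each; the different cosets give `g' * g⁻¹ ∉ H`; all powers of `x` are in the intersection, and they are different
(`F` is free: `x ^ k = 1` implies `x = 1` or `k = 0`; `FreeGroup` is torsion free, or `N (x ^ k)` is not bounded; transport by `e`). -/
theorem not_height (F : Subgroup G) {ι : Type} (e : FreeGroup ι ≃* F) (H : Subgroup G) {x : G} (hx : x ∈ F)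
    (hx1 : x ≠ 1) (hi : {κ | ∃ g, col H g = κ ∧ g * x * g⁻¹ ∈ H}.Infinite) : ¬ FiniteHeight H := by
  classical
  rintro ⟨n, hn⟩
  obtain ⟨t, hts, htc⟩ := hi.exists_subset_card_eq (n + 1)
  have hgf : ∀ κ : Quotient (QuotientGroup.rightRel H), ∃ g, κ ∈ t → col H g = κ ∧ g * x * g⁻¹ ∈ H := by
    intro κ
    by_cases hκ : κ ∈ t
    · obtain ⟨g, hg⟩ := hts hκ
      exact ⟨g, fun _ => hg⟩
    · exact ⟨1, fun h => absurd h hκ⟩
  choose gf hgf using hgf
  have hcard : (t.image gf).card = n + 1 := by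
    rw [Finset.card_image_of_injOn, htc]
    intro κ hκ κ' hκ' h
    rw [← (hgf κ hκ).1, ← (hgf κ' hκ').1, h]
  have h1 := hn (t.image gf) (by
    intro g hg g' hg' hne hH
    obtain ⟨κ, hκ, rfl⟩ := Finset.mem_image.1 hg
    obtain ⟨κ', hκ', rfl⟩ := Finset.mem_image.1 hg'
    apply hne
    have h2 : col H (gf κ) = col H (gf κ') := Quotient.sound (QuotientGroup.rightRel_apply.2 hH)
    rw [(hgf κ hκ).1, (hgf κ' hκ').1] at h2
    rw [h2]) (by
    have hinj : Function.Injective (fun k : ℕ => x ^ k) := by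
      rw [injective_pow_iff_not_isOfFinOrder]
      intro hfin
      obtain ⟨k, hk, hk'⟩ := isOfFinOrder_iff_pow_eq_one.1 hfin
      have h3 : (e.symm ⟨x, hx⟩) ^ k = 1 := by
        rw [← map_pow]
        have h4 : (⟨x, hx⟩ : F) ^ k = 1 := by
          apply Subtype.ext
          simpa using hk'
        rw [h4, map_one]
      have h4 : e.symm ⟨x, hx⟩ ≠ 1 := by
        intro h5
        rw [EmbeddingLike.map_eq_one_iff] at h5
        exact hx1 (congrArg Subtype.val h5)
      exact not_isOfFinOrder_of_isMulTorsionFree h4 (isOfFinOrder_iff_pow_eq_one.2 ⟨k, hk, h3⟩)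
    refine (Set.infinite_range_of_injective hinj).mono ?_
    rintro _ ⟨k, rfl⟩ g hg
    obtain ⟨κ, hκ, rfl⟩ := Finset.mem_image.1 hg
    have h3 := H.pow_mem (hgf κ hκ).2 k
    rwa [conj_pow] at h3)
  omega

end H15M
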