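import Pool.Agent.Lib.H15M.Z1
import Pool.Agent.Lib.H15M.A4

/-! # H15M, chunk Z3 (M): subgroups with a finite index subgroup in `F` -/

namespace H15M

variable {G : Type} [Group G]

/-- (Z3a, S/M) PROOF. `F.subgroupOf H` has finite index in the finitely generated group `H`, so it is finitely generated (Schreier:
`Subgroup.fg_of_index_ne_zero`), and `H ⊓ F` is its image under the inclusion. -/
theorem fg_inf (F H : Subgroup G) (hfg : H.FG) (hfi : F.relIndex H ≠ 0) : (H ⊓ F).FG := by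
  classical
  have h1 : Group.FG H := (Group.fg_iff_subgroup_fg H).2 hfg
  have h2 : (F.subgroupOf H).FiniteIndex := Subgroup.finiteIndex_iff.2 hfi
  have h3 : Group.FG (F.subgroupOf H) := Subgroup.fg_of_index_ne_zero _
  obtain ⟨S, hS⟩ := (Group.fg_iff_subgroup_fg _).1 h3
  refine ⟨S.image H.subtype, ?_⟩
  rw [Finset.coe_image, ← MonoidHom.map_closure, hS, Subgroup.subgroupOf_map_subtype, inf_comm]

/-- (Z3b, S) Finitely many representatives. PROOF. Finite index. -/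
theorem reps (F H : Subgroup G) (hfi : F.relIndex H ≠ 0) : ∃ R : Finset G, (∀ r ∈ R, r ∈ H) ∧
    ∀ h ∈ H, ∃ r ∈ R, ∃ h0 ∈ H ⊓ F, h = h0 * r := by
  classical
  have h2 : (F.subgroupOf H).FiniteIndex := Subgroup.finiteIndex_iff.2 hfi
  let _ : Fintype (H ⧸ F.subgroupOf H) := Subgroup.fintypeQuotientOfFiniteIndex
  refine ⟨Finset.univ.image fun q : H ⧸ F.subgroupOf H => ((Quotient.out q : H) : G)⁻¹, ?_, ?_⟩
  · intro r hr
    obtain ⟨q, _, rfl⟩ := Finset.mem_image.1 hr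
    exact H.inv_mem (Quotient.out q : H).2
  · intro h hh
    have h4 : (QuotientGroup.mk (Quotient.out (QuotientGroup.mk (⟨h, hh⟩⁻¹ : H) : H ⧸ F.subgroupOf H)) : H ⧸ F.subgroupOf H) =
        QuotientGroup.mk (⟨h, hh⟩⁻¹ : H) := QuotientGroup.out_eq' _
    have h5 := QuotientGroup.eq.1 h4
    rw [Subgroup.mem_subgroupOf] at h5
    set y : H := Quotient.out (QuotientGroup.mk (⟨h, hh⟩⁻¹ : H) : H ⧸ F.subgroupOf H) with hy
    refine ⟨(y : G)⁻¹, Finset.mem_image.2 ⟨_, Finset.mem_univ _, rfl⟩, h * (y : G), ⟨H.mul_mem hh y.2, ?_⟩, by group⟩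
    have h6 := F.inv_mem h5
    simpa using h6

/-- (Z3c, M) PROOF. `R` from `reps`, `A` = maximum (or sum) of the `d 1 r`, `r ∈ R`. Let `g` be between `1` and `h = h0 * r`: `gp d g 1 h = 0`, `d h0 h = d 1 r ≤ A`, so `gp d g 1 h0 ≤ 2 * A` (`gp_move`,
`gp_symm`), and `near_geo` gives `o` between `1` and `h0` with `2 * d g o ≤ 2 * A + 4 * δ + 2`. `o` is near `H ⊓ F ≤ H`. -/
theorem qc_up {d : G → G → ℕ} {δ : ℕ} (hd : Hyp d δ) (hl : ∀ g x y, d (g * x) (g * y) = d x y) (F H : Subgroup G)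
    (hfi : F.relIndex H ≠ 0) (h : Quasiconvex d (H ⊓ F)) : Quasiconvex d H := by
  obtain ⟨K, hK⟩ := h
  obtain ⟨R, hR, hrep⟩ := reps F H hfi
  refine ⟨K + ((∑ r ∈ R, d 1 r) + 2 * δ + 1), fun h hh g hg => ?_⟩
  obtain ⟨r, hr, h0, hh0, rfl⟩ := hrep h hh
  have hA : d 1 r ≤ ∑ r ∈ R, d 1 r := Finset.single_le_sum (f := fun r => d 1 r) (fun _ _ => Nat.zero_le _) hr
  have h1 : d h0 (h0 * r) = d 1 r := by
    have := hl h0 1 r
    rwa [mul_one] at this
  have h2 : gp d g 1 h0 ≤ 2 * d 1 r := by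
    have h3 := gp_move hd g h0 (h0 * r) 1
    rw [gp_symm hd g h0 1, gp_symm hd g (h0 * r) 1, h1] at h3
    have h4 : gp d g 1 (h0 * r) = 0 := by
      unfold gp
      rw [hd.symm g 1, hd.symm g (h0 * r)] at *
      have := hd.symm g (h0 * r)
      omega
    rw [h4] at h3
    simpa using h3
  obtain ⟨o, ho, ho'⟩ := near_geo hd 1 h0 g
  obtain ⟨h', hh', hd'⟩ := hK h0 hh0 o ho
  refine ⟨h', hh'.1, ?_⟩
  have h5 := hd.tri g o h'
  omega

/-- (Z3d, M) PROOF. The map `col (H ⊓ F) g ↦ col H g` has finite fibres: if `col H g = col H g'` then `g' = h * g`, `h = h0 * r` (`reps`), so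
`col (H ⊓ F) g' = col (H ⊓ F) (r * g)`, `r ∈ R`. An infinite set has an infinite image under a map with finite fibres. -/
theorem inf_up (F H : Subgroup G) (hfi : F.relIndex H ≠ 0) (x : G)
    (h : {κ | ∃ g, col (H ⊓ F) g = κ ∧ g * x * g⁻¹ ∈ H ⊓ F}.Infinite) :
    {κ | ∃ g, col H g = κ ∧ g * x * g⁻¹ ∈ H}.Infinite := by
  classical
  obtain ⟨R, hR, hrep⟩ := reps F H hfi
  intro hfin
  apply h
  have key : ∀ g g' : G, col H g = col H g' → ∃ r ∈ R, col (H ⊓ F) g' = col (H ⊓ F) (r * g) := by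
    intro g g' hgg
    have h1 : g' * g⁻¹ ∈ H := QuotientGroup.rightRel_apply.1 (Quotient.exact hgg)
    obtain ⟨r, hr, h0, hh0, e⟩ := hrep _ h1
    refine ⟨r, hr, Quotient.sound ?_⟩
    refine QuotientGroup.rightRel_apply.2 ?_
    have e1 : r * g * g'⁻¹ = h0⁻¹ := by
      have e2 : g' = h0 * r * g := by rw [← e]; group
      rw [e2]
      group
    rw [e1]
    exact Subgroup.inv_mem _ hh0
  obtain ⟨T, hT⟩ : ∃ T : Set G, T.Finite ∧ ∀ g, g * x * g⁻¹ ∈ H → ∃ g' ∈ T, col H g' = col H g := by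
    refine ⟨Quotient.out '' {κ | ∃ g, col H g = κ ∧ g * x * g⁻¹ ∈ H}, hfin.image _, fun g hg => ⟨_, ⟨col H g, ⟨g, rfl, hg⟩, rfl⟩, ?_⟩⟩
    exact Quotient.out_eq _
  have hfin2 : ((fun p : G × G => col (H ⊓ F) (p.1 * p.2)) '' ((R : Set G) ×ˢ T)).Finite := (R.finite_toSet.prod hT.1).image _
  refine hfin2.subset ?_
  rintro κ ⟨g, rfl, hg⟩
  obtain ⟨g', hg', e⟩ := hT.2 g hg.1
  obtain ⟨r, hr, e'⟩ := key g' g e
  exact ⟨(r, g'), ⟨hr, hg'⟩, e'.symm⟩

end H15M
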